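import Mathlib

set_option autoImplicit false
open MeasureTheory ProbabilityTheory Filter Topology

namespace Pool.Agent.LibPerc

/-- the law of a coin that shows `true` with probability `p` -/
noncomputable def bern (p : ℝ) : Measure Bool :=
  ENNReal.ofReal p • Measure.dirac true + ENNReal.ofReal (1 - p) • Measure.dirac false

variable {ι : Type*} [Fintype ι]

/-- the law of independent coins with parameters `p c` -/
noncomputable def law (p : ι → ℝ) : Measure (ι → Bool) := Measure.pi (fun c => bern (p c))

lemma bern_prob {p : ℝ} (h0 : 0 ≤ p) (h1 : p ≤ 1) : IsProbabilityMeasure (bern p) := by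
  constructor
  unfold bern
  simp only [Measure.add_apply, Measure.smul_apply, smul_eq_mul]
  rw [Measure.dirac_apply' _ MeasurableSet.univ, Measure.dirac_apply' _ MeasurableSet.univ]
  simp only [Set.mem_univ, Set.indicator_of_mem, Pi.one_apply, mul_one]
  rw [← ENNReal.ofReal_add h0 (by linarith)]
  simp

lemma law_prob {p : ι → ℝ} (h0 : ∀ c, 0 ≤ p c) (h1 : ∀ c, p c ≤ 1) :
    IsProbabilityMeasure (law p) := by
  have : ∀ c, IsProbabilityMeasure (bern (p c)) := fun c => bern_prob (h0 c) (h1 c)
  unfold law
  infer_instance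

lemma integral_bern {p : ℝ} (h0 : 0 ≤ p) (h1 : p ≤ 1) (f : Bool → ℝ) :
    ∫ b, f b ∂(bern p) = p * f true + (1 - p) * f false := by
  have := bern_prob h0 h1
  unfold bern
  rw [integral_add_measure, integral_smul_measure, integral_smul_measure, integral_dirac,
    integral_dirac]
  · rw [ENNReal.toReal_ofReal h0, ENNReal.toReal_ofReal (by linarith)]
    simp
  · exact (Integrable.of_finite).smul_measure ENNReal.ofReal_ne_top
  · exact (Integrable.of_finite).smul_measure ENNReal.ofReal_ne_top

section

variable {p : ι → ℝ} (h0 : ∀ c, 0 ≤ p c) (h1 : ∀ c, p c ≤ 1)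

include h0 h1

lemma integrable_all (f : (ι → Bool) → ℝ) : Integrable f (law p) := by
  have := law_prob h0 h1
  exact Integrable.of_finite

/-- functions of disjoint sets of coins are independent -/
lemma indep2 {S T : Set ι} (hST : Disjoint S T) (f g : (ι → Bool) → ℝ) (hf : DependsOn f S)
    (hg : DependsOn g T) :
    ∫ ω, f ω * g ω ∂(law p) = (∫ ω, f ω ∂(law p)) * ∫ ω, g ω ∂(law p) := by
  classical
  have : ∀ c, IsProbabilityMeasure (bern (p c)) := fun c => bern_prob (h0 c) (h1 c)
  have hi : iIndepFun (fun (i : ι) (ω : ι → Bool) => id (ω i)) (Measure.pi (fun c => bern (p c))) :=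
    iIndepFun_pi (X := fun _ => id) (fun _ => aemeasurable_id)
  have hdisj : Disjoint S.toFinset T.toFinset := by
    rw [Set.disjoint_toFinset]; exact hST
  have h2 := hi.indepFun_finset S.toFinset T.toFinset hdisj (fun i => Measurable.of_discrete)
  have hf' : ∃ φ : ((i : S.toFinset) → Bool) → ℝ, f = φ ∘ (fun (ω : ι → Bool) (i : S.toFinset) => id (ω i)) := by
    refine ⟨fun y => f (fun i => if h : i ∈ S.toFinset then y ⟨i, h⟩ else false), ?_⟩
    ext ω
    apply hf
    intro i hi'
    have : i ∈ S.toFinset := Set.mem_toFinset.2 hi'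
    simp only [dif_pos this, id]
  have hg' : ∃ φ : ((i : T.toFinset) → Bool) → ℝ, g = φ ∘ (fun (ω : ι → Bool) (i : T.toFinset) => id (ω i)) := by
    refine ⟨fun y => g (fun i => if h : i ∈ T.toFinset then y ⟨i, h⟩ else false), ?_⟩
    ext ω
    apply hg
    intro i hi'
    have : i ∈ T.toFinset := Set.mem_toFinset.2 hi'
    simp only [dif_pos this, id]
  obtain ⟨φ, hφ⟩ := hf'
  obtain ⟨ψ, hψ⟩ := hg'
  have h3 : IndepFun f g (law p) := by
    rw [hφ, hψ]
    exact h2.comp Measurable.of_discrete Measurable.of_discrete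
  exact h3.integral_fun_mul_eq_mul_integral (Measurable.of_discrete).aestronglyMeasurable
    (Measurable.of_discrete).aestronglyMeasurable

lemma indepFam {κ : Type*} (K : Finset κ) (R : κ → Set ι)
    (hR : ∀ k ∈ K, ∀ l ∈ K, k ≠ l → Disjoint (R k) (R l)) (f : κ → (ι → Bool) → ℝ)
    (hf : ∀ k ∈ K, DependsOn (f k) (R k)) :
    ∫ ω, ∏ k ∈ K, f k ω ∂(law p) = ∏ k ∈ K, ∫ ω, f k ω ∂(law p) := by
  classical
  have := law_prob h0 h1
  induction K using Finset.induction_on with
  | empty => simp
  | insert a s has ih =>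
    rw [Finset.prod_insert has]
    simp_rw [Finset.prod_insert has]
    rw [indep2 h0 h1 (S := R a) (T := ⋃ k ∈ s, R k), ih]
    · exact fun k hk l hl hkl => hR k (Finset.mem_insert_of_mem hk) l (Finset.mem_insert_of_mem hl) hkl
    · exact fun k hk => hf k (Finset.mem_insert_of_mem hk)
    · rw [Set.disjoint_iUnion₂_right]
      intro k hk
      exact hR a (Finset.mem_insert_self _ _) k (Finset.mem_insert_of_mem hk)
        (fun h => has (h ▸ hk))
    · exact hf a (Finset.mem_insert_self _ _)
    · intro x y hxy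
      refine Finset.prod_congr rfl fun k hk => ?_
      exact hf k (Finset.mem_insert_of_mem hk) (fun i hi => hxy i (Set.mem_biUnion hk hi))

lemma integral_coord (c : ι) (F : Bool → ℝ) :
    ∫ ω, F (ω c) ∂(law p) = p c * F true + (1 - p c) * F false := by
  classical
  have : ∀ c, IsProbabilityMeasure (bern (p c)) := fun c => bern_prob (h0 c) (h1 c)
  rw [← integral_bern (h0 c) (h1 c)]
  have h := (measurePreserving_eval (fun c => bern (p c)) c)
  rw [← h.map_eq, integral_map h.measurable.aemeasurable (Measurable.of_discrete).aestronglyMeasurable]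
  rfl

/-- probability of an event -/
lemma prob_eq_integral (A : (ι → Bool) → Prop) [DecidablePred A] :
    (law p).real {ω | A ω} = ∫ ω, (if A ω then (1:ℝ) else 0) ∂(law p) := by
  have := law_prob h0 h1
  have : (fun ω => (if A ω then (1:ℝ) else 0)) = Set.indicator {ω | A ω} (fun _ => (1:ℝ)) := by
    ext ω
    by_cases h : A ω
    · rw [if_pos h, Set.indicator_of_mem (by exact h)]
    · rw [if_neg h, Set.indicator_of_notMem (by exact h)]
  rw [this, integral_indicator (MeasurableSet.of_discrete)]
  simp

/-- probability of an intersection of events depending on disjoint coins -/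
lemma prob_forall {κ : Type*} (K : Finset κ) (R : κ → Set ι)
    (hR : ∀ k ∈ K, ∀ l ∈ K, k ≠ l → Disjoint (R k) (R l)) (A : κ → (ι → Bool) → Prop)
    (hA : ∀ k ∈ K, DependsOn (A k) (R k)) :
    (law p).real {ω | ∀ k ∈ K, A k ω} = ∏ k ∈ K, (law p).real {ω | A k ω} := by
  classical
  rw [prob_eq_integral h0 h1]
  simp_rw [prob_eq_integral h0 h1]
  rw [← indepFam h0 h1 K R hR (fun k ω => if A k ω then (1:ℝ) else 0)]
  · congr 1
    ext ω
    by_cases h : ∀ k ∈ K, A k ω
    · rw [if_pos h, Finset.prod_congr rfl (fun k hk => if_pos (h k hk))]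
      simp
    · rw [if_neg h]
      push Not at h
      obtain ⟨k, hk, hk'⟩ := h
      rw [Finset.prod_eq_zero hk (if_neg hk')]
  · intro k hk x y hxy
    have := hA k hk hxy
    simp only [this]

lemma prob_coord_true (c : ι) : (law p).real {ω | ω c = true} = p c := by
  classical
  rw [prob_eq_integral h0 h1 (fun ω => ω c = true)]
  rw [integral_coord h0 h1 c (fun b => if b = true then (1:ℝ) else 0)]
  simp

lemma prob_exists_le {κ : Type*} (K : Finset κ) (A : κ → (ι → Bool) → Prop) :
    (law p).real {ω | ∃ k ∈ K, A k ω} ≤ ∑ k ∈ K, (law p).real {ω | A k ω} := by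
  have := law_prob h0 h1
  have : {ω | ∃ k ∈ K, A k ω} = ⋃ k ∈ K, {ω | A k ω} := by
    ext ω; simp
  rw [this]
  exact measureReal_biUnion_finset_le K _

end

end Pool.Agent.LibPerc
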