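import Mathlib

set_option autoImplicit false
open Filter Topology

namespace Pool.Agent.LibPerc

/-- the weights in the second moment bound -/
noncomputable def beta (r : ℝ) : ℕ → ℝ
  | 0 => 1
  | (k + 1) => (r - 1) * ∑ l : Fin (k + 1), beta r l / ((k + 1).choose l)

lemma beta_succ (r : ℝ) (k : ℕ) :
    beta r (k + 1) = (r - 1) * ∑ l ∈ Finset.range (k + 1), beta r l / ((k + 1).choose l) := by
  rw [beta, Finset.sum_range]

lemma beta_nonneg {r : ℝ} (hr : 1 ≤ r) (k : ℕ) : 0 ≤ beta r k := by
  induction k using Nat.strong_induction_on with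
  | _ k ih =>
    cases k with
    | zero => rw [beta]; exact zero_le_one
    | succ k =>
      rw [beta_succ]
      refine mul_nonneg (by linarith) (Finset.sum_nonneg fun l hl => ?_)
      have := ih l (by simpa using hl)
      positivity

lemma choose_two_le {k l : ℕ} (h2 : 2 ≤ l) (hl : l + 2 ≤ k) : k.choose 2 ≤ k.choose l := by
  have key : ∀ l, 2 ≤ l → l ≤ k / 2 → k.choose 2 ≤ k.choose l := by
    intro l h2 hlk
    induction l, h2 using Nat.le_induction with
    | base => exact le_rfl
    | succ m hm ih =>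
      exact (ih (by omega)).trans (Nat.choose_le_succ_of_lt_half_left (by omega))
  rcases le_or_gt l (k / 2) with h | h
  · exact key l h2 h
  · rw [← Nat.choose_symm (show l ≤ k by omega)]
    exact key (k - l) (by omega) (by omega)

lemma choose_ge {k l : ℕ} (h1 : 1 ≤ l) (hl : l + 1 ≤ k) : k ≤ k.choose l := by
  rcases eq_or_lt_of_le h1 with h | h
  · subst h; simp
  rcases eq_or_lt_of_le hl with h' | h'
  · subst h'
    rw [Nat.choose_succ_self_right]
  · have := choose_two_le (k := k) (l := l) (by omega) (by omega)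
    refine le_trans ?_ this
    rw [Nat.choose_two_right, Nat.le_div_iff_mul_le (by norm_num)]
    have : 2 ≤ k - 1 := by omega
    nlinarith

/-- the sum of inverse binomial coefficients without the end terms is small -/
lemma sum_inv_choose (k : ℕ) :
    ∑ l ∈ Finset.range k, (1 : ℝ) / ((k + 1).choose (l + 1)) ≤ 4 / (k + 1) := by
  rcases lt_or_ge k 3 with h | h
  · interval_cases k
    · simp
    · norm_num [Finset.sum_range_succ]
    · norm_num [Finset.sum_range_succ]
  · obtain ⟨m, rfl⟩ : ∃ m, k = m + 3 := ⟨k - 3, by omega⟩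
    rw [Finset.sum_range_succ, Finset.sum_range_succ']
    have hmid : ∑ i ∈ Finset.range (m + 1), (1:ℝ) / ((m + 3 + 1).choose (i + 1 + 1)) ≤
        ∑ i ∈ Finset.range (m + 1), (1:ℝ) / ((m + 3 + 1).choose 2) := by
      refine Finset.sum_le_sum fun i hi => ?_
      have hi' : i < m + 1 := by simpa using hi
      have h1 := choose_two_le (k := m + 3 + 1) (l := i + 1 + 1) (by omega) (by omega)
      have h0 : 0 < (m + 3 + 1).choose 2 := Nat.choose_pos (by omega)
      apply one_div_le_one_div_of_le
      · exact_mod_cast h0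
      · exact_mod_cast h1
    have h2 : ((m + 3 + 1).choose 2 : ℝ) = ((m:ℝ) + 4) * (m + 3) / 2 := by
      rw [Nat.cast_choose_two]
      push_cast
      ring
    have h3 : ((m + 3 + 1).choose (m + 2 + 1) : ℝ) = (m:ℝ) + 4 := by
      have : m + 3 + 1 = (m + 2 + 1) + 1 := by omega
      rw [this, Nat.choose_succ_self_right]
      push_cast
      ring
    have h4 : ((m + 3 + 1).choose (0 + 1) : ℝ) = (m:ℝ) + 4 := by
      simp
      ring
    rw [h3, h4]
    rw [h2, Finset.sum_const, Finset.card_range, nsmul_eq_mul] at hmid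
    push_cast at hmid ⊢
    have h5 : ((m:ℝ) + 1) * (1 / (((m:ℝ) + 4) * (m + 3) / 2)) ≤ 2 / ((m:ℝ) + 4) := by
      rw [one_div, inv_div, ← mul_div_assoc, div_le_div_iff₀ (by positivity) (by positivity)]
      have : (0:ℝ) ≤ m := Nat.cast_nonneg m
      nlinarith
    have h6 : (1:ℝ) / ((m:ℝ) + 4) + 1 / ((m:ℝ) + 4) + 2 / ((m:ℝ) + 4) = 4 / ((m:ℝ) + 3 + 1) := by
      rw [← add_div, ← add_div]
      norm_num
      ring_nf
    linarith

lemma beta_bdd {r : ℝ} (hr : 1 ≤ r) : ∃ B : ℝ, 1 ≤ B ∧ ∀ k, beta r k ≤ B := by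
  obtain ⟨k₀, hk₀⟩ := exists_nat_ge (8 * r)
  set B₀ : ℝ := ∑ l ∈ Finset.range (k₀ + 1), beta r l with hB₀
  have hB₀nn : 0 ≤ B₀ := Finset.sum_nonneg fun l _ => beta_nonneg hr l
  refine ⟨B₀ + 2 * r, by linarith, ?_⟩
  intro k
  induction k using Nat.strong_induction_on with
  | _ k ih =>
    rcases le_or_gt k k₀ with h | h
    · have : beta r k ≤ B₀ := by
        rw [hB₀]
        exact Finset.single_le_sum (f := fun l => beta r l) (fun l _ => beta_nonneg hr l)
          (Finset.mem_range.2 (Nat.lt_succ_of_le h))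
      linarith
    · obtain ⟨j, rfl⟩ : ∃ j, k = j + 1 := ⟨k - 1, by omega⟩
      rw [beta_succ, Finset.sum_range_succ']
      have h1 : ∑ i ∈ Finset.range j, beta r (i + 1) / ((j + 1).choose (i + 1)) ≤
          (B₀ + 2 * r) * (4 / (j + 1)) := by
        calc ∑ i ∈ Finset.range j, beta r (i + 1) / ((j + 1).choose (i + 1))
            ≤ ∑ i ∈ Finset.range j, (B₀ + 2 * r) * (1 / ((j + 1).choose (i + 1))) := by
              refine Finset.sum_le_sum fun i hi => ?_
              have hi' : i < j := by simpa using hi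
              rw [mul_one_div]
              exact div_le_div_of_nonneg_right (ih (i + 1) (by omega)) (by positivity)
          _ = (B₀ + 2 * r) * ∑ i ∈ Finset.range j, (1:ℝ) / ((j + 1).choose (i + 1)) := by
              rw [Finset.mul_sum]
          _ ≤ _ := mul_le_mul_of_nonneg_left (sum_inv_choose j) (by linarith)
      have h2 : (4:ℝ) / (j + 1) ≤ 1 / (2 * r) := by
        rw [div_le_div_iff₀ (by positivity) (by positivity)]
        have : (k₀ : ℝ) ≤ j + 1 := by exact_mod_cast h.le
        linarith
      have h3 : (B₀ + 2 * r) * (4 / (j + 1)) ≤ (B₀ + 2 * r) * (1 / (2 * r)) :=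
        mul_le_mul_of_nonneg_left h2 (by linarith)
      have h4 : beta r 0 / ((j + 1).choose 0 : ℝ) = 1 := by
        rw [beta]; simp
      rw [h4]
      have h5 : ∑ i ∈ Finset.range j, beta r (i + 1) / ((j + 1).choose (i + 1)) + 1 ≤ (B₀ + 2 * r) * (1 / (2 * r)) + 1 := by
        linarith
      calc (r - 1) * (∑ i ∈ Finset.range j, beta r (i + 1) / ((j + 1).choose (i + 1)) + 1)
          ≤ (r - 1) * ((B₀ + 2 * r) * (1 / (2 * r)) + 1) :=
            mul_le_mul_of_nonneg_left h5 (by linarith)
        _ = (r - 1) * B₀ / (2 * r) + 2 * (r - 1) := by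
            field_simp
            ring
        _ ≤ B₀ + 2 * r := by
            have : (r - 1) * B₀ / (2 * r) ≤ B₀ := by
              rw [div_le_iff₀ (by positivity)]
              nlinarith
            linarith

end Pool.Agent.LibPerc
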