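import Pool.Agent.LibPerc.ProbP

set_option autoImplicit false
set_option linter.unusedSectionVars false
set_option linter.unusedVariables false
open MeasureTheory ProbabilityTheory Filter Topology
open scoped symmDiff

namespace Pool.Agent.LibPerc

variable {n m : ℕ}

/-- the first `a` directions -/
def pre (i : Fin m ↪ Fin n) (a : ℕ) : Finset (Fin n) :=
  (Finset.univ.filter (fun b : Fin m => (b : ℕ) < a)).map i

/-- the vertices of the chain -/
def vx (x : Finset (Fin n)) (i : Fin m ↪ Fin n) (a : ℕ) : Finset (Fin n) := x ∆ pre i a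

/-- the directions used by the chain at its vertex number `a` -/
def dirs (i : Fin m ↪ Fin n) (a : ℕ) : Finset (Fin n) :=
  (Finset.univ.filter (fun b : Fin m => (b : ℕ) = a ∨ (b : ℕ) + 1 = a)).map i

/-- the chain is a pendant path, and the antipode of its last vertex is present -/
def EvC (x : Finset (Fin n)) (i : Fin m ↪ Fin n) (ω : Co n → Bool) : Prop :=
  ω (Sum.inl x) = true ∧ ω (Sum.inl (vx x i m)ᶜ) = true ∧ ∀ a < m, opn ω (vx x i a) = dirs i a

lemma mem_pre {i : Fin m ↪ Fin n} {a : ℕ} {b : Fin m} : i b ∈ pre i a ↔ (b : ℕ) < a := by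
  unfold pre
  rw [Finset.mem_map']
  simp

lemma mem_dirs {i : Fin m ↪ Fin n} {a : ℕ} {b : Fin m} :
    i b ∈ dirs i a ↔ (b : ℕ) = a ∨ (b : ℕ) + 1 = a := by
  unfold dirs
  rw [Finset.mem_map']
  simp

lemma exists_of_mem_pre {i : Fin m ↪ Fin n} {a : ℕ} {j : Fin n} (h : j ∈ pre i a) :
    ∃ b : Fin m, i b = j ∧ (b : ℕ) < a := by
  unfold pre at h
  obtain ⟨b, hb, rfl⟩ := Finset.mem_map.1 h
  exact ⟨b, rfl, (Finset.mem_filter.1 hb).2⟩

lemma exists_of_mem_dirs {i : Fin m ↪ Fin n} {a : ℕ} {j : Fin n} (h : j ∈ dirs i a) :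
    ∃ b : Fin m, i b = j ∧ ((b : ℕ) = a ∨ (b : ℕ) + 1 = a) := by
  unfold dirs at h
  obtain ⟨b, hb, rfl⟩ := Finset.mem_map.1 h
  exact ⟨b, rfl, (Finset.mem_filter.1 hb).2⟩

lemma card_pre {i : Fin m ↪ Fin n} {a : ℕ} (ha : a ≤ m) : (pre i a).card = a := by
  unfold pre
  rw [Finset.card_map]
  have : (Finset.univ.filter (fun b : Fin m => (b : ℕ) < a)).card = (Finset.range a).card := by
    refine Finset.card_bij (fun b _ => (b : ℕ)) ?_ ?_ ?_
    · intro b hb
      rw [Finset.mem_range]
      exact (Finset.mem_filter.1 hb).2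
    · intro b _ b' _ h
      exact Fin.ext h
    · intro b hb
      rw [Finset.mem_range] at hb
      exact ⟨⟨b, by omega⟩, Finset.mem_filter.2 ⟨Finset.mem_univ _, hb⟩, rfl⟩
  rw [this, Finset.card_range]

lemma pre_zero (i : Fin m ↪ Fin n) : pre i 0 = ∅ := by
  unfold pre; simp

lemma pre_mono (i : Fin m ↪ Fin n) {a b : ℕ} (h : a ≤ b) : pre i a ⊆ pre i b := by
  intro j hj
  obtain ⟨c, rfl, hc⟩ := exists_of_mem_pre hj
  exact mem_pre.2 (by omega)

lemma pre_succ (i : Fin m ↪ Fin n) (b : Fin m) : pre i (b + 1) = pre i b ∆ {i b} := by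
  ext j
  rw [Finset.mem_symmDiff, Finset.mem_singleton]
  constructor
  · intro h
    obtain ⟨c, rfl, hc⟩ := exists_of_mem_pre h
    by_cases hcb : c = b
    · subst hcb
      exact Or.inr ⟨rfl, fun h => lt_irrefl _ (mem_pre.1 h)⟩
    · refine Or.inl ⟨mem_pre.2 ?_, fun h => hcb (i.injective h)⟩
      have : (c : ℕ) ≠ b := fun h => hcb (Fin.ext h)
      omega
  · rintro (⟨h, _⟩ | ⟨rfl, _⟩)
    · exact pre_mono i (Nat.le_succ _) h
    · exact mem_pre.2 (Nat.lt_succ_self _)

lemma vx_zero (x : Finset (Fin n)) (i : Fin m ↪ Fin n) : vx x i 0 = x := by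
  unfold vx
  rw [pre_zero]
  exact symmDiff_bot x

lemma vx_succ (x : Finset (Fin n)) (i : Fin m ↪ Fin n) (b : Fin m) :
    vx x i (b + 1) = vx x i b ∆ {i b} := by
  unfold vx
  rw [pre_succ, symmDiff_assoc]

lemma vx_pred (x : Finset (Fin n)) (i : Fin m ↪ Fin n) (b : Fin m) :
    vx x i b = vx x i (b + 1) ∆ {i b} := by
  rw [vx_succ, symmDiff_assoc, symmDiff_self]
  exact (symmDiff_bot _).symm

lemma vx_inj {x : Finset (Fin n)} {i : Fin m ↪ Fin n} {a b : ℕ} (ha : a ≤ m) (hb : b ≤ m)
    (h : vx x i a = vx x i b) : a = b := by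
  have := symmDiff_inj h
  have h1 := card_pre (i := i) ha
  have h2 := card_pre (i := i) hb
  rw [this] at h1
  omega

lemma vx_step {x : Finset (Fin n)} {i : Fin m ↪ Fin n} {a a' : ℕ} (ha : a ≤ m) (ha' : a' ≤ m)
    {b : Fin m} (h : vx x i a ∆ {i b} = vx x i a') :
    ((b : ℕ) = a ∧ a' = a + 1) ∨ ((b : ℕ) + 1 = a ∧ a' = b) := by
  unfold vx at h
  rw [symmDiff_assoc] at h
  have h' := symmDiff_inj h
  have h1 := card_pre (i := i) ha
  have h2 := card_pre (i := i) ha'
  rcases Nat.lt_or_ge (b : ℕ) a with hb | hb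
  · have hm : i b ∈ pre i a := mem_pre.2 hb
    have e : pre i a ∆ {i b} = (pre i a).erase (i b) := by
      ext j
      rw [Finset.mem_symmDiff, Finset.mem_singleton, Finset.mem_erase]
      constructor
      · rintro (⟨h1, h2⟩ | ⟨h1, h2⟩)
        · exact ⟨h2, h1⟩
        · rw [h1] at h2; exact absurd hm h2
      · rintro ⟨h1, h2⟩
        exact Or.inl ⟨h2, h1⟩
    rw [e] at h'
    have h3 : ((pre i a).erase (i b)).card + 1 = a := by
      rw [Finset.card_erase_of_mem hm, h1]
      have := Finset.card_pos.2 ⟨_, hm⟩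
      omega
    rw [h', h2] at h3
    have h4 : i b ∉ pre i a' := by
      rw [← h']; exact Finset.notMem_erase _ _
    rw [mem_pre] at h4
    right
    omega
  · have hm : i b ∉ pre i a := fun h => by
      have := mem_pre.1 h
      omega
    have e : pre i a ∆ {i b} = insert (i b) (pre i a) := by
      ext j
      rw [Finset.mem_symmDiff, Finset.mem_singleton, Finset.mem_insert]
      constructor
      · rintro (⟨h1, h2⟩ | ⟨h1, h2⟩)
        · exact Or.inr h1
        · exact Or.inl h1
      · rintro (h1 | h1)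
        · exact Or.inr ⟨h1, by rw [h1]; exact hm⟩
        · exact Or.inl ⟨h1, fun h2 => hm (h2 ▸ h1)⟩
    rw [e] at h'
    have h3 : (insert (i b) (pre i a)).card = a + 1 := by
      rw [Finset.card_insert_of_notMem hm, h1]
    rw [h', h2] at h3
    have h4 : i b ∈ pre i a' := by
      rw [← h']; exact Finset.mem_insert_self _ _
    rw [mem_pre] at h4
    left
    omega

/-- the potential -/
def pot (x : Finset (Fin n)) (i : Fin m ↪ Fin n) (z : Finset (Fin n)) : ℕ :=
  (z ∆ (vx x i m)ᶜ).card + ∑ a ∈ Finset.range m, if vx x i a = z then 2 * (m - a) else 0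

lemma card_symm_compl (z w : Finset (Fin n)) : (z ∆ wᶜ).card + (z ∆ w).card = n := by
  have : z ∆ wᶜ = (z ∆ w)ᶜ := by
    ext j
    simp only [Finset.mem_symmDiff, Finset.mem_compl]
    tauto
  rw [this, Finset.card_compl, Fintype.card_fin]
  have := Finset.card_le_univ (z ∆ w)
  rw [Fintype.card_fin] at this
  omega

lemma card_vx_symm {x : Finset (Fin n)} {i : Fin m ↪ Fin n} {a b : ℕ} (hab : a ≤ b) (hb : b ≤ m) :
    (vx x i a ∆ vx x i b).card = b - a := by
  unfold vx
  rw [symmDiff_symmDiff_symmDiff_comm, symmDiff_self, bot_symmDiff]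
  have h1 : pre i a ∆ pre i b = pre i b \ pre i a := by
    ext j
    rw [Finset.mem_symmDiff, Finset.mem_sdiff]
    constructor
    · rintro (⟨h1, h2⟩ | h)
      · exact absurd (pre_mono i hab h1) h2
      · exact h
    · exact Or.inr
  rw [h1, Finset.card_sdiff_of_subset (pre_mono i hab), card_pre hb, card_pre (by omega)]

lemma pot_chain {x : Finset (Fin n)} {i : Fin m ↪ Fin n} {a : ℕ} (ha : a ≤ m) :
    pot x i (vx x i a) + a = n + m := by
  unfold pot
  have h1 : ∑ a' ∈ Finset.range m, (if vx x i a' = vx x i a then 2 * (m - a') else 0) = 2 * (m - a) := by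
    have : ∀ a' ∈ Finset.range m, (if vx x i a' = vx x i a then 2 * (m - a') else 0) =
        if a' = a then 2 * (m - a') else 0 := by
      intro a' ha'
      rw [Finset.mem_range] at ha'
      by_cases h : a' = a
      · rw [if_pos h, if_pos (by rw [h])]
      · rw [if_neg h, if_neg (fun h' => h (vx_inj (by omega) ha h'))]
    rw [Finset.sum_congr rfl this, Finset.sum_ite_eq']
    split_ifs with h
    · rfl
    · rw [Finset.mem_range] at h
      omega
  rw [h1]
  have h2 := card_symm_compl (vx x i a) (vx x i m)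
  have h3 := card_vx_symm (x := x) (i := i) ha le_rfl
  omega

lemma pot_step {x : Finset (Fin n)} {i : Fin m ↪ Fin n} {ω : Co n → Bool} (h : EvC x i ω)
    {u v : Finset (Fin n)} (huv : (hG ω).Adj u v) : pot x i u ≤ pot x i v + 1 := by
  by_cases hu : ∃ a, a < m ∧ vx x i a = u
  · obtain ⟨a, ha, rfl⟩ := hu
    obtain ⟨j, hj⟩ := Finset.card_eq_one.1 huv.1
    have hv : v = vx x i a ∆ {j} := by
      rw [← hj, symmDiff_cancel]
    have hjo : j ∈ opn ω (vx x i a) := by
      rw [mem_opn, ← hv]
      exact ⟨huv.2.2.1, huv.2.2.2⟩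
    rw [h.2.2 a ha] at hjo
    obtain ⟨b, rfl, hb⟩ := exists_of_mem_dirs hjo
    have hpa := pot_chain (x := x) (i := i) (a := a) ha.le
    rcases hb with hb | hb
    · have hv' : v = vx x i (a + 1) := by
        rw [hv, ← hb, vx_succ]
      have := pot_chain (x := x) (i := i) (a := a + 1) (by omega)
      rw [hv']
      omega
    · have hv' : v = vx x i b := by
        rw [hv, ← hb, ← vx_pred]
      have := pot_chain (x := x) (i := i) (a := b) (by omega)
      rw [hv']
      omega
  · have h1 : ∑ a ∈ Finset.range m, (if vx x i a = u then 2 * (m - a) else 0) = 0 := by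
      refine Finset.sum_eq_zero fun a ha => ?_
      rw [Finset.mem_range] at ha
      rw [if_neg (fun h' => hu ⟨a, ha, h'⟩)]
    unfold pot
    rw [h1]
    have h2 := card_tri u v (vx x i m)ᶜ
    have h3 := huv.1
    omega

lemma pot_walk {x : Finset (Fin n)} {i : Fin m ↪ Fin n} {ω : Co n → Bool} (h : EvC x i ω)
    {u v : Finset (Fin n)} (p : (hG ω).Walk u v) : pot x i u ≤ pot x i v + p.length := by
  induction p with
  | nil => simp
  | @cons a b c hab q ih =>
    have := pot_step h hab
    rw [SimpleGraph.Walk.length_cons]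
    omega

theorem dist_ge_of_EvC {x : Finset (Fin n)} {i : Fin m ↪ Fin n} {ω : Co n → Bool} (h : EvC x i ω)
    (hmn : m < n) (hr : (hG ω).Reachable x (vx x i m)ᶜ) :
    n + m ≤ (hG ω).dist x (vx x i m)ᶜ := by
  obtain ⟨p, hp⟩ := hr.exists_walk_length_eq_dist
  have h1 := pot_walk h p
  rw [hp] at h1
  have h2 := pot_chain (x := x) (i := i) (a := 0) (by omega)
  rw [vx_zero] at h2
  have h3 : pot x i (vx x i m)ᶜ = 0 := by
    unfold pot
    rw [symmDiff_self]
    simp only [Finset.bot_eq_empty, Finset.card_empty, zero_add]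
    refine Finset.sum_eq_zero fun a ha => ?_
    rw [Finset.mem_range] at ha
    rw [if_neg]
    intro h'
    have h4 := card_symm_compl (vx x i a) (vx x i m)
    rw [← h', symmDiff_self] at h4
    have h5 := card_vx_symm (x := x) (i := i) ha.le le_rfl
    simp only [Finset.bot_eq_empty, Finset.card_empty, zero_add] at h4
    omega
  omega

lemma symm_univ (z : Finset (Fin n)) : z ∆ (Finset.univ : Finset (Fin n)) = zᶜ := by
  ext j
  simp [Finset.mem_symmDiff]

lemma card_dirs_le (i : Fin m ↪ Fin n) (a : ℕ) : (dirs i a).card ≤ 2 := by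
  unfold dirs
  rw [Finset.card_map]
  have h1 : (Finset.univ.filter (fun b : Fin m => (b : ℕ) = a ∨ (b : ℕ) + 1 = a)).card ≤
      ({a, a - 1} : Finset ℕ).card := by
    refine Finset.card_le_card_of_injOn (fun b => (b : ℕ)) ?_ ?_
    · intro b hb
      have := (Finset.mem_filter.1 hb).2
      simp only [Finset.coe_insert, Finset.coe_singleton, Set.mem_insert_iff, Set.mem_singleton_iff]
      omega
    · intro b _ b' _ h
      exact Fin.ext h
  exact h1.trans Finset.card_le_two

lemma card_dirs_zero (i : Fin m ↪ Fin n) (hm : 1 ≤ m) : (dirs i 0).card = 1 := by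
  unfold dirs
  rw [Finset.card_map, Finset.card_eq_one]
  refine ⟨⟨0, by omega⟩, ?_⟩
  ext b
  rw [Finset.mem_filter, Finset.mem_singleton, Fin.ext_iff]
  simp only [Finset.mem_univ, true_and]
  omega

lemma card_dirs_pos (i : Fin m ↪ Fin n) (a : ℕ) (h1 : 1 ≤ a) (ha : a < m) : (dirs i a).card = 2 := by
  unfold dirs
  rw [Finset.card_map, Finset.card_eq_two]
  refine ⟨⟨a, by omega⟩, ⟨a - 1, by omega⟩, ?_, ?_⟩
  · rw [Ne, Fin.ext_iff]
    simp only
    omega
  · ext b
    rw [Finset.mem_filter, Finset.mem_insert, Finset.mem_singleton, Fin.ext_iff, Fin.ext_iff]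
    simp only [Finset.mem_univ, true_and]
    omega

lemma EvC.reach {x : Finset (Fin n)} {i : Fin m ↪ Fin n} {ω : Co n → Bool} (h : EvC x i ω)
    (a : ℕ) (ha : a ≤ m) : (hG ω).Reachable x (vx x i a) ∧ ω (Sum.inl (vx x i a)) = true := by
  induction a with
  | zero =>
    rw [vx_zero]
    exact ⟨SimpleGraph.Reachable.refl _, h.1⟩
  | succ a ih =>
    obtain ⟨h1, h2⟩ := ih (by omega)
    have h3 := h.2.2 a (by omega)
    have h4 : i ⟨a, by omega⟩ ∈ opn ω (vx x i a) := by
      rw [h3, mem_dirs]
      exact Or.inl rfl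
    rw [mem_opn] at h4
    have h5 : vx x i (a + 1) = vx x i a ∆ {i ⟨a, by omega⟩} := vx_succ x i ⟨a, by omega⟩
    rw [h5]
    refine ⟨h1.trans (SimpleGraph.Adj.reachable ⟨?_, h2, h4.1, h4.2⟩), h4.1⟩
    rw [symmDiff_cancel]
    simp

theorem reach_of_good {pv pe : ℝ} (hv : 0 < pv) (he : 0 < pe) {d L : ℕ} {x : Finset (Fin n)}
    {i : Fin m ↪ Fin n} {ω : Co n → Bool}
    (hG' : GoodG pv pe L ω) (hP : GoodP m d L ω) (hm : 1 ≤ m) (h2 : 2 ≤ L) (hn : 5 * L ≤ n)
    (hmL : m ≤ L) (h : EvC x i ω) : (hG ω).Reachable x (vx x i m)ᶜ := by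
  classical
  obtain ⟨h1, h1'⟩ := h.reach m le_rfl
  refine h1.trans ?_
  have hpoor : ∀ a < m, (opn ω (vx x i a)).card < 3 * L := by
    intro a ha
    rw [h.2.2 a ha]
    have := card_dirs_le i a
    omega
  have hball : ∀ a ≤ m, (vx x i m ∆ vx x i a).card ≤ m := by
    intro a ha
    rw [symmDiff_comm, card_vx_symm ha le_rfl]
    omega
  have r1 : 3 * L ≤ (opn ω (vx x i m)).card := by
    obtain ⟨z, hz, hz'⟩ := hP (vx x i m) Finset.univ (by simp)
      ((Finset.range (m + 1)).image (vx x i)) (by
        rw [Finset.card_image_of_injOn, Finset.card_range]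
        intro a ha b hb hab
        simp only [Finset.coe_range, Set.mem_Iio] at ha hb
        exact vx_inj (by omega) (by omega) hab) (by
        intro z hz
        obtain ⟨a, ha, rfl⟩ := Finset.mem_image.1 hz
        rw [Finset.mem_range] at ha
        exact Or.inl (hball a (by omega)))
    obtain ⟨a, ha, rfl⟩ := Finset.mem_image.1 hz
    rw [Finset.mem_range] at ha
    rcases Nat.lt_or_ge a m with h3 | h3
    · have := hpoor a h3
      omega
    · have ham : a = m := by omega
      have hvv : vx x i a = vx x i m := congrArg _ ham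
      rw [hvv] at hz'; exact hz'
  have r2 : 3 * L ≤ (opn ω (vx x i m)ᶜ).card := by
    obtain ⟨z, hz, hz'⟩ := hP (vx x i m) Finset.univ (by simp)
      (insert (vx x i m)ᶜ ((Finset.range m).image (vx x i))) (by
        rw [Finset.card_insert_of_notMem, Finset.card_image_of_injOn, Finset.card_range]
        · intro a ha b hb hab
          simp only [Finset.coe_range, Set.mem_Iio] at ha hb
          exact vx_inj (by omega) (by omega) hab
        · intro hcon
          obtain ⟨a, ha, ha'⟩ := Finset.mem_image.1 hcon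
          rw [Finset.mem_range] at ha
          have h4 := card_symm_compl (vx x i a) (vx x i m)
          rw [← ha', symmDiff_self, card_vx_symm ha.le le_rfl] at h4
          simp only [Finset.bot_eq_empty, Finset.card_empty, zero_add] at h4
          omega) (by
        intro z hz
        rcases Finset.mem_insert.1 hz with rfl | hz
        · right
          rw [symm_univ, symmDiff_self]
          simp
        · obtain ⟨a, ha, rfl⟩ := Finset.mem_image.1 hz
          rw [Finset.mem_range] at ha
          exact Or.inl (hball a (by omega)))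
    rcases Finset.mem_insert.1 hz with rfl | hz
    · exact hz'
    · obtain ⟨a, ha, rfl⟩ := Finset.mem_image.1 hz
      rw [Finset.mem_range] at ha
      have := hpoor a ha
      omega
  rw [← symm_univ]
  rw [← symm_univ] at r2
  have h3 := h.2.1
  rw [← symm_univ] at h3
  obtain ⟨p, _⟩ := near_walk (x := vx x i m) (D := Finset.univ) hv he hG' h2 hn
    (by simp) h1' h3 r1 r2
  exact ⟨p⟩

/-- two different pendant chains are never both present with the same set of interior vertices -/
theorem EvC.union {x x' : Finset (Fin n)} {i i' : Fin m ↪ Fin n} {ω : Co n → Bool}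
    (h : EvC x i ω) (h' : EvC x' i' ω) (hm : 1 ≤ m) (hne : (x, i) ≠ (x', i')) :
    m + 1 ≤ ((Finset.range m).image (vx x i) ∪ (Finset.range m).image (vx x' i')).card := by
  classical
  have hc : ∀ (x : Finset (Fin n)) (i : Fin m ↪ Fin n), ((Finset.range m).image (vx x i)).card = m := by
    intro x i
    rw [Finset.card_image_of_injOn, Finset.card_range]
    intro a ha b hb hab
    simp only [Finset.coe_range, Set.mem_Iio] at ha hb
    exact vx_inj (by omega) (by omega) hab
  by_contra hcon
  push Not at hcon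
  have hsub : (Finset.range m).image (vx x' i') ⊆ (Finset.range m).image (vx x i) := by
    have h1 : (Finset.range m).image (vx x i) = (Finset.range m).image (vx x i) ∪ (Finset.range m).image (vx x' i') :=
      Finset.eq_of_subset_of_card_le Finset.subset_union_left (by rw [hc]; omega)
    rw [h1]
    exact Finset.subset_union_right
  have hx : x' ∈ (Finset.range m).image (vx x i) := by
    refine hsub (Finset.mem_image.2 ⟨0, Finset.mem_range.2 (by omega), vx_zero x' i'⟩)
  obtain ⟨a, ha, hax⟩ := Finset.mem_image.1 hx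
  rw [Finset.mem_range] at ha
  have h0 := h'.2.2 0 (by omega)
  rw [vx_zero, ← hax, h.2.2 a ha] at h0
  have hc0 := card_dirs_zero i' hm
  rw [← h0] at hc0
  have ha0 : a = 0 := by
    by_contra hcon
    rw [card_dirs_pos i a (by omega) ha] at hc0
    omega
  subst ha0
  rw [vx_zero] at hax
  subst hax
  apply hne
  have key : ∀ a, ∀ ha : a < m, (∀ b, b < a → ∀ hb : b < m, i ⟨b, hb⟩ = i' ⟨b, hb⟩) → i ⟨a, ha⟩ = i' ⟨a, ha⟩ := by
    intro a ha ih
    have hpre : vx x i a = vx x i' a := by
      unfold vx pre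
      congr 1
      ext j
      simp only [Finset.mem_map, Finset.mem_filter, Finset.mem_univ, true_and]
      constructor
      · rintro ⟨b, hb, rfl⟩
        exact ⟨b, hb, (ih b hb b.2).symm⟩
      · rintro ⟨b, hb, rfl⟩
        exact ⟨b, hb, ih b hb b.2⟩
    have h1 := h.2.2 a ha
    have h2 := h'.2.2 a ha
    rw [← hpre, h1] at h2
    have h3 : i ⟨a, ha⟩ ∈ dirs i' a := by
      rw [← h2, mem_dirs]; exact Or.inl rfl
    obtain ⟨b, hb, hb'⟩ := exists_of_mem_dirs h3
    rcases hb' with hb' | hb'
    · rw [← hb]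
      congr 1
      exact Fin.ext hb'
    · have h4 := ih b (by omega) b.2
      rw [← h4] at hb
      have := i.injective hb
      rw [Fin.ext_iff] at this
      simp only at this
      omega
  have key2 : ∀ a, ∀ b, b ≤ a → ∀ hb : b < m, i ⟨b, hb⟩ = i' ⟨b, hb⟩ := by
    intro a
    induction a with
    | zero =>
      intro b hb hb'
      exact key b hb' (fun c hc => by omega)
    | succ a ih =>
      intro b hb hb'
      rcases Nat.lt_or_ge b (a + 1) with h5 | h5
      · exact ih b (by omega) hb'
      · exact key b hb' (fun c hc hc' => ih c (by omega) hc')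
  have : i = i' := by
    ext b
    rw [show i b = i' b from key2 b b le_rfl b.2]
  rw [this]

end Pool.Agent.LibPerc
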