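import Pool.Agent.LibPerc.ChainP

set_option autoImplicit false
set_option linter.unusedSectionVars false
set_option linter.unusedVariables false
open MeasureTheory ProbabilityTheory Filter Topology
open scoped symmDiff

namespace Pool.Agent.LibPerc

variable {n m : ℕ}

/-- the two coins of a direction -/
def two (x : Finset (Fin n)) (i : Fin m ↪ Fin n) (k : Fin m × Fin n) : Finset (Co n) :=
  {Sum.inl (vx x i k.1 ∆ {k.2}), Sum.inr s(vx x i k.1, vx x i k.1 ∆ {k.2})}

/-- the special coins of a chain -/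
def Spec (x : Finset (Fin n)) (i : Fin m ↪ Fin n) : Finset (Co n) :=
  {Sum.inl x, Sum.inl (vx x i m)ᶜ} ∪ (Finset.univ : Finset (Fin m × Fin m)).biUnion
    (fun k => two x i (k.1, i k.2))

lemma card_Spec_le (x : Finset (Fin n)) (i : Fin m ↪ Fin n) : (Spec x i).card ≤ 2 + m * m * 2 := by
  classical
  unfold Spec
  refine (Finset.card_union_le _ _).trans (add_le_add Finset.card_le_two ?_)
  refine (Finset.card_biUnion_le_card_mul _ _ 2 (fun k _ => ?_)).trans ?_
  · exact Finset.card_le_two
  · rw [Finset.card_univ, Fintype.card_prod, Fintype.card_fin]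

/-- the vertices of the chain and the antipode -/
def VC (x : Finset (Fin n)) (i : Fin m ↪ Fin n) : Finset (Finset (Fin n)) :=
  insert (vx x i m)ᶜ ((Finset.range (m + 1)).image (vx x i))

open Classical in
/-- the wanted values of the special coins -/
noncomputable def want (pv pe : ℝ) (x : Finset (Fin n)) (i : Fin m ↪ Fin n) : Co n → Bool :=
  Sum.elim (fun z => decide (z ∈ VC x i ∨ pv = 1)) (fun e => decide ((∀ z ∈ e, z ∈ VC x i) ∨ pe = 1))

lemma vx_mem_VC (x : Finset (Fin n)) (i : Fin m ↪ Fin n) (a : ℕ) (ha : a ≤ m) : vx x i a ∈ VC x i :=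
  Finset.mem_insert_of_mem (Finset.mem_image.2 ⟨a, Finset.mem_range.2 (by omega), rfl⟩)

lemma step_mem_VC {x : Finset (Fin n)} {i : Fin m ↪ Fin n} {a b : Fin m} (hn : 2 * m < n) :
    vx x i a ∆ {i b} ∈ VC x i ↔ i b ∈ dirs i a := by
  classical
  rw [mem_dirs]
  constructor
  · intro h
    rcases Finset.mem_insert.1 h with h | h
    · exfalso
      have h1 := card_symm_compl x (vx x i m)
      rw [← h, symm_vx', symm_vx, card_pre le_rfl] at h1
      have h2 := card_pre_symm_le i a (by omega) (i b)
      omega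
    · obtain ⟨a', ha', h⟩ := Finset.mem_image.1 h
      rw [Finset.mem_range] at ha'
      rcases vx_step (by omega) (by omega) h.symm with h1 | h1
      · exact Or.inl h1.1
      · exact Or.inr h1.1
  · rintro (h | h)
    · rw [← h, ← vx_succ]
      exact vx_mem_VC x i _ (by omega)
    · rw [← h, ← vx_pred]
      exact vx_mem_VC x i _ (by omega)

lemma EvC_of_want {pv pe : ℝ} (hpp : ¬ (pv = 1 ∧ pe = 1)) {x : Finset (Fin n)} {i : Fin m ↪ Fin n}
    (hn : 2 * m < n)
    {ω : Co n → Bool} (h1 : ∀ c ∈ Spec x i, ω c = want pv pe x i c)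
    (h2 : ∀ k ∈ (Finset.univ : Finset (Fin m)) ×ˢ (Finset.univ \ pre i m), k.2 ∉ opn ω (vx x i k.1)) :
    EvC x i ω := by
  classical
  refine ⟨?_, ?_, ?_⟩
  · rw [h1 _ (Finset.mem_union_left _ (Finset.mem_insert_self _ _))]
    simp only [want, Sum.elim_inl, decide_eq_true_eq]
    left
    have := vx_mem_VC x i 0 (by omega)
    rwa [vx_zero] at this
  · rw [h1 _ (Finset.mem_union_left _ (Finset.mem_insert_of_mem (Finset.mem_singleton_self _)))]
    simp only [want, Sum.elim_inl, decide_eq_true_eq]
    left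
    exact Finset.mem_insert_self _ _
  · intro a ha
    ext j
    by_cases hj : j ∈ pre i m
    · obtain ⟨b, rfl, hb⟩ := exists_of_mem_pre hj
      have hmem : ∀ c ∈ two x i (⟨a, ha⟩, i b), c ∈ Spec x i := fun c hc =>
        Finset.mem_union_right _ (Finset.mem_biUnion.2 ⟨(⟨a, ha⟩, b), Finset.mem_univ _, hc⟩)
      rw [mem_opn]
      have e1 := h1 (Sum.inl (vx x i a ∆ {i b})) (hmem _ (Finset.mem_insert_self _ _))
      have e2 := h1 (Sum.inr s(vx x i a, vx x i a ∆ {i b}))
        (hmem _ (Finset.mem_insert_of_mem (Finset.mem_singleton_self _)))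
      rw [e1, e2]
      simp only [want, Sum.elim_inl, Sum.elim_inr, decide_eq_true_eq, Sym2.mem_iff, forall_eq_or_imp,
        forall_eq]
      have h3 := step_mem_VC (x := x) (i := i) (a := ⟨a, ha⟩) (b := b) hn
      simp only at h3
      have h4 := vx_mem_VC x i a ha.le
      rw [← h3]
      tauto
    · constructor
      · intro h
        exact absurd h (h2 (⟨a, ha⟩, j) (Finset.mem_product.2 ⟨Finset.mem_univ _,
          Finset.mem_sdiff.2 ⟨Finset.mem_univ _, hj⟩⟩))
      · intro h
        obtain ⟨b, rfl, _⟩ := exists_of_mem_dirs h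
        exact absurd (mem_pre.2 b.2) hj

lemma two_disj {x : Finset (Fin n)} {i : Fin m ↪ Fin n} {k l : Fin m × Fin n}
    (hk : k.2 ∉ pre i m) (hl : l.2 ∉ pre i m) (hkl : k ≠ l) :
    Disjoint (two x i k : Set (Co n)) (two x i l : Set (Co n)) := by
  classical
  have key : ∀ k l : Fin m × Fin n, k.2 ∉ pre i m → l.2 ∉ pre i m →
      vx x i k.1 ∆ {k.2} = vx x i l.1 ∆ {l.2} → k = l := by
    intro k l hk hl h
    have h0 : pre i k.1 ∆ {k.2} = pre i l.1 ∆ {l.2} := by
      rw [← symm_vx' x, ← symm_vx' x, h]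
    have hk' : k.2 ∉ pre i k.1 := fun h => hk (pre_mono i k.1.2.le h)
    have hl' : k.2 ∉ pre i l.1 := fun h => hk (pre_mono i l.1.2.le h)
    have h1 : k.2 ∈ pre i k.1 ∆ {k.2} := by
      rw [Finset.mem_symmDiff]
      exact Or.inr ⟨Finset.mem_singleton_self _, hk'⟩
    rw [h0, Finset.mem_symmDiff] at h1
    have h2 : k.2 = l.2 := by
      rcases h1 with h1 | h1
      · exact absurd h1.1 hl'
      · exact Finset.mem_singleton.1 h1.1
    rw [h2] at h
    have h3 : vx x i k.1 = vx x i l.1 := by
      have := congrArg (fun z => z ∆ {l.2}) h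
      simpa [symmDiff_assoc] using this
    have h4 := vx_inj k.1.2.le l.1.2.le h3
    exact Prod.ext (Fin.ext h4) h2
  have key2 : ∀ (a : Fin m) (l : Fin m × Fin n), l.2 ∉ pre i m → vx x i a ≠ vx x i l.1 ∆ {l.2} := by
    intro a l hl h
    have h0 : pre i a = pre i l.1 ∆ {l.2} := by
      rw [← symm_vx' x, ← symm_vx x, h]
    have hl' : l.2 ∉ pre i l.1 := fun h => hl (pre_mono i l.1.2.le h)
    have h1 : l.2 ∈ pre i l.1 ∆ {l.2} := by
      rw [Finset.mem_symmDiff]
      exact Or.inr ⟨Finset.mem_singleton_self _, hl'⟩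
    rw [← h0] at h1
    exact hl (pre_mono i a.2.le h1)
  rw [Set.disjoint_left]
  intro c hc hc'
  simp only [two, Finset.coe_insert, Finset.coe_singleton, Set.mem_insert_iff, Set.mem_singleton_iff] at hc hc'
  rcases hc with rfl | rfl
  · rcases hc' with h | h
    · exact hkl (key k l hk hl (Sum.inl_injective h))
    · cases h
  · rcases hc' with h | h
    · cases h
    · have h' := Sum.inr_injective h
      rw [Sym2.eq_iff] at h'
      rcases h' with ⟨_, h2⟩ | ⟨h1, _⟩
      · exact hkl (key k l hk hl h2)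
      · exact key2 k.1 l hl h1

lemma two_disj_Spec {x : Finset (Fin n)} {i : Fin m ↪ Fin n} (hn : 2 * m < n) {k : Fin m × Fin n}
    (hk : k.2 ∉ pre i m) : Disjoint (two x i k : Set (Co n)) (Spec x i : Set (Co n)) := by
  classical
  have hk' : k.2 ∉ pre i k.1 := fun h => hk (pre_mono i k.1.2.le h)
  -- vertices over subsets of the special directions
  have key : ¬ (x ∆ (vx x i k.1 ∆ {k.2}) ⊆ pre i m) := by
    rw [symm_vx']
    intro h
    refine hk (h ?_)
    rw [Finset.mem_symmDiff]
    exact Or.inr ⟨Finset.mem_singleton_self _, hk'⟩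
  have key2 : ∀ b : Fin m, ∀ a : Fin m, x ∆ (vx x i a ∆ {i b}) ⊆ pre i m := by
    intro b a
    rw [symm_vx']
    intro j hj
    rw [Finset.mem_symmDiff] at hj
    rcases hj with hj | hj
    · exact pre_mono i a.2.le hj.1
    · rw [Finset.mem_singleton.1 hj.1, mem_pre]
      exact b.2
  have key3 : ∀ a : Fin m, x ∆ vx x i a ⊆ pre i m := by
    intro a
    rw [symm_vx]
    exact pre_mono i a.2.le
  rw [Set.disjoint_left]
  intro c hc hc'
  simp only [two, Finset.coe_insert, Finset.coe_singleton, Set.mem_insert_iff, Set.mem_singleton_iff] at hc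
  rw [Finset.mem_coe] at hc'
  rcases Finset.mem_union.1 hc' with h | h
  · rcases Finset.mem_insert.1 h with rfl | h
    · rcases hc with h1 | h1
      · have h2 := Sum.inl_injective h1
        apply key
        rw [← h2, symmDiff_self]
        exact Finset.empty_subset _
      · cases h1
    · rw [Finset.mem_singleton] at h
      subst h
      rcases hc with h1 | h1
      · have h2 := Sum.inl_injective h1
        have h3 := card_symm_compl x (vx x i m)
        rw [h2, symm_vx', symm_vx, card_pre le_rfl] at h3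
        have h4 := card_pre_symm_le i k.1 (by omega) k.2
        omega
      · cases h1
  · obtain ⟨l, _, h⟩ := Finset.mem_biUnion.1 h
    simp only [two, Finset.mem_insert, Finset.mem_singleton] at h
    rcases h with rfl | rfl
    · rcases hc with h1 | h1
      · have h2 := Sum.inl_injective h1
        apply key
        rw [← h2]
        exact key2 _ _
      · cases h1
    · rcases hc with h1 | h1
      · cases h1
      · have h2 := Sum.inr_injective h1
        rw [Sym2.eq_iff] at h2
        rcases h2 with ⟨_, h2⟩ | ⟨h2, _⟩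
        · apply key
          rw [← h2]
          exact key2 _ _
        · apply key
          rw [← h2]
          exact key3 _

section

variable {pv pe : ℝ} (hv0 : 0 < pv) (hv1 : pv ≤ 1) (he0 : 0 < pe) (he1 : pe ≤ 1)

include hv0 hv1 he0 he1

lemma prob_want {κ : ℝ} (hκ0 : 0 < κ) (hκ1 : κ ≤ 1) (k1 : κ ≤ pv) (k2 : κ ≤ pe)
    (k3 : pv ≠ 1 → κ ≤ 1 - pv) (k4 : pe ≠ 1 → κ ≤ 1 - pe)
    (x : Finset (Fin n)) (i : Fin m ↪ Fin n) :
    κ ^ (2 + m * m * 2) ≤ (law (par pv pe)).real {ω : Co n → Bool | ∀ c ∈ Spec x i, ω c = want pv pe x i c} := by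
  classical
  have H0 := par_nonneg (n := n) hv0 hv1 he0 he1
  have H1 := par_le_one (n := n) hv0 hv1 he0 he1
  have := law_prob H0 H1
  rw [prob_forall H0 H1 (Spec x i) (fun c => {c}) (fun c _ c' _ h => by simpa using h)
    (fun c ω => ω c = want pv pe x i c)]
  · have h1 : ∀ c ∈ Spec x i, κ ≤ (law (par pv pe)).real {ω : Co n → Bool | ω c = want pv pe x i c} := by
      intro c _
      have htrue := prob_coord_true H0 H1 c
      have hfalse : (law (par pv pe)).real {ω : Co n → Bool | ω c = false} = 1 - par pv pe c := by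
        have : {ω : Co n → Bool | ω c = false} = {ω | ω c = true}ᶜ := by
          ext ω
          simp
        rw [this, probReal_compl_eq_one_sub MeasurableSet.of_discrete, htrue]
      rcases c with z | e
      · by_cases h : z ∈ VC x i ∨ pv = 1
        · have e1 : want pv pe x i (Sum.inl z) = true := by
            simp only [want, Sum.elim_inl, decide_eq_true_eq]
            exact h
          rw [e1, htrue]
          exact k1
        · have e1 : want pv pe x i (Sum.inl z) = false := by
            simp only [want, Sum.elim_inl, decide_eq_false_iff_not]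
            exact h
          rw [e1, hfalse]
          exact k3 (fun h' => h (Or.inr h'))
      · by_cases h : (∀ z ∈ e, z ∈ VC x i) ∨ pe = 1
        · have e1 : want pv pe x i (Sum.inr e) = true := by
            simp only [want, Sum.elim_inr, decide_eq_true_eq]
            exact h
          rw [e1, htrue]
          exact k2
        · have e1 : want pv pe x i (Sum.inr e) = false := by
            simp only [want, Sum.elim_inr, decide_eq_false_iff_not]
            exact h
          rw [e1, hfalse]
          exact k4 (fun h' => h (Or.inr h'))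
    calc κ ^ (2 + m * m * 2) ≤ κ ^ (Spec x i).card := pow_le_pow_of_le_one hκ0.le hκ1 (card_Spec_le x i)
      _ = ∏ c ∈ Spec x i, κ := by rw [Finset.prod_const]
      _ ≤ _ := Finset.prod_le_prod (fun _ _ => hκ0.le) h1
  · intro c _ ω ω' h
    simp only
    rw [h _ rfl]

lemma prob_EvC_ge {κ : ℝ} (hκ0 : 0 < κ) (hκ1 : κ ≤ 1) (k1 : κ ≤ pv) (k2 : κ ≤ pe)
    (k3 : pv ≠ 1 → κ ≤ 1 - pv) (k4 : pe ≠ 1 → κ ≤ 1 - pe) (hpp : ¬ (pv = 1 ∧ pe = 1)) (hn : 2 * m < n)
    (x : Finset (Fin n)) (i : Fin m ↪ Fin n) :
    κ ^ (2 + m * m * 2) * ((1 - pv * pe) ^ m) ^ n ≤ (law (par pv pe)).real {ω : Co n → Bool | EvC x i ω} := by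
  classical
  have H0 := par_nonneg (n := n) hv0 hv1 he0 he1
  have H1 := par_le_one (n := n) hv0 hv1 he0 he1
  have := law_prob H0 H1
  have hp : pv * pe ≤ 1 := by nlinarith
  have hp0 : 0 < pv * pe := by positivity
  set K : Finset (Fin m × Fin n) := Finset.univ ×ˢ (Finset.univ \ pre i m) with hK
  have hKm : ∀ k ∈ K, k.2 ∉ pre i m := fun k hk =>
    (Finset.mem_sdiff.1 (Finset.mem_product.1 hk).2).2
  have h1 : (law (par pv pe)).real {ω : Co n → Bool | ∀ k ∈ K, k.2 ∉ opn ω (vx x i k.1)} =
      (1 - pv * pe) ^ K.card := by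
    rw [prob_forall H0 H1 K (fun k => (two x i k : Set (Co n)))
      (fun k hk l hl hkl => two_disj (hKm k hk) (hKm l hl) hkl)
      (fun k ω => k.2 ∉ opn ω (vx x i k.1))]
    · rw [Finset.prod_congr rfl (fun k _ => prob_notMem_opn hv0 hv1 he0 he1 (vx x i k.1) k.2), Finset.prod_const]
    · intro k _ ω ω' h
      simp only [mem_opn]
      rw [h (Sum.inl (vx x i k.1 ∆ {k.2})) (by simp [two]), h (Sum.inr s(vx x i k.1, vx x i k.1 ∆ {k.2})) (by simp [two])]
  have h2 := prob_want hv0 hv1 he0 he1 hκ0 hκ1 k1 k2 k3 k4 x i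
  have h3 : (law (par pv pe)).real {ω : Co n → Bool | (∀ c ∈ Spec x i, ω c = want pv pe x i c) ∧
      ∀ k ∈ K, k.2 ∉ opn ω (vx x i k.1)} ≤ (law (par pv pe)).real {ω : Co n → Bool | EvC x i ω} := by
    refine measureReal_mono ?_
    rintro ω ⟨h1, h2⟩
    exact EvC_of_want hpp hn h1 h2
  refine le_trans ?_ h3
  rw [prob_and hv0 hv1 he0 he1 (S := (Spec x i : Set (Co n))) (T := ⋃ k ∈ K, (two x i k : Set (Co n)))
    ?_ (fun ω => ∀ c ∈ Spec x i, ω c = want pv pe x i c) (fun ω => ∀ k ∈ K, k.2 ∉ opn ω (vx x i k.1)), h1]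
  · refine mul_le_mul h2 ?_ (by have : 0 ≤ 1 - pv * pe := by linarith
                                positivity) measureReal_nonneg
    rw [← pow_mul]
    refine pow_le_pow_of_le_one (by linarith) (by linarith) ?_
    rw [hK, Finset.card_product, Finset.card_univ, Fintype.card_fin]
    refine Nat.mul_le_mul_left _ ?_
    refine (Finset.card_le_univ _).trans ?_
    rw [Fintype.card_fin]
  · intro ω ω' h
    simp only
    refine propext (forall_congr' fun c => forall_congr' fun hc => ?_)
    rw [h c hc]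
  · intro ω ω' h
    simp only [mem_opn]
    refine propext (forall_congr' fun k => forall_congr' fun hk => ?_)
    rw [h (Sum.inl (vx x i k.1 ∆ {k.2})) (Set.mem_biUnion hk (by simp [two])),
      h (Sum.inr s(vx x i k.1, vx x i k.1 ∆ {k.2})) (Set.mem_biUnion hk (by simp [two]))]
  · rw [Set.disjoint_iUnion₂_right]
    intro k hk
    exact (two_disj_Spec hn (hKm k hk)).symm

end

end Pool.Agent.LibPerc
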