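import Pool.Agent.LibPerc.Chain

set_option autoImplicit false
set_option linter.unusedSectionVars false
set_option linter.unusedVariables false
open MeasureTheory ProbabilityTheory Filter Topology
open scoped symmDiff

namespace Pool.Agent.LibPerc

variable {n m : ℕ}

/-- the coins that matter for chains starting at `x` -/
def Dep (x : Finset (Fin n)) (m : ℕ) : Set (Co n) :=
  {c | Sum.elim (fun z => (x ∆ z).card ≤ m ∨ n ≤ (x ∆ z).card + m)
    (fun e => ∀ z ∈ e, (x ∆ z).card ≤ m) c}

lemma symm_vx (x : Finset (Fin n)) (i : Fin m ↪ Fin n) (a : ℕ) : x ∆ vx x i a = pre i a :=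
  symmDiff_cancel _ _

lemma symm_vx' (x : Finset (Fin n)) (i : Fin m ↪ Fin n) (a : ℕ) (j : Fin n) :
    x ∆ (vx x i a ∆ {j}) = pre i a ∆ {j} := by
  unfold vx
  rw [symmDiff_assoc, symmDiff_cancel]

lemma card_pre_symm_le (i : Fin m ↪ Fin n) (a : ℕ) (ha : a ≤ m) (j : Fin n) :
    (pre i a ∆ {j}).card ≤ a + 1 := by
  have := card_symmDiff_le (pre i a) {j}
  rw [card_pre ha, Finset.card_singleton] at this
  exact this

lemma EvC_dep (x : Finset (Fin n)) (i : Fin m ↪ Fin n) : DependsOn (EvC x i) (Dep x m) := by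
  intro ω ω' h
  unfold EvC
  have e1 : ω (Sum.inl x) = ω' (Sum.inl x) := h _ (by
    simp only [Dep, Set.mem_ofPred_eq, Sum.elim_inl]
    left
    rw [symmDiff_self]
    simp)
  have e2 : ω (Sum.inl (vx x i m)ᶜ) = ω' (Sum.inl (vx x i m)ᶜ) := h _ (by
    simp only [Dep, Set.mem_ofPred_eq, Sum.elim_inl]
    right
    have h1 := card_symm_compl x (vx x i m)
    rw [symm_vx, card_pre le_rfl] at h1
    omega)
  have e3 : ∀ a < m, opn ω (vx x i a) = opn ω' (vx x i a) := by
    intro a ha
    ext j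
    rw [mem_opn, mem_opn]
    have h1 : (x ∆ (vx x i a ∆ {j})).card ≤ m := by
      rw [symm_vx']
      exact (card_pre_symm_le i a ha.le j).trans (by omega)
    have h2 : (x ∆ vx x i a).card ≤ m := by
      rw [symm_vx, card_pre ha.le]; omega
    rw [h (Sum.inl (vx x i a ∆ {j})) (by
      simp only [Dep, Set.mem_ofPred_eq, Sum.elim_inl]
      exact Or.inl h1), h (Sum.inr s(vx x i a, vx x i a ∆ {j})) (by
      simp only [Dep, Set.mem_ofPred_eq, Sum.elim_inr]
      intro z hz
      rw [Sym2.mem_iff] at hz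
      rcases hz with rfl | rfl
      · exact h2
      · exact h1)]
  rw [e1, e2]
  refine propext (and_congr Iff.rfl (and_congr Iff.rfl ?_))
  refine forall_congr' fun a => forall_congr' fun ha => ?_
  rw [e3 a ha]

lemma Dep_disj {x x' : Finset (Fin n)} (h1 : 2 * m < (x ∆ x').card) (h2 : (x ∆ x').card + 2 * m < n) :
    Disjoint (Dep x m) (Dep x' m) := by
  rw [Set.disjoint_left]
  rintro (z | e) hz hz'
  · simp only [Dep, Set.mem_ofPred_eq, Sum.elim_inl] at hz hz'
    have t1 := card_tri x z x'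
    have t2 := card_tri x' x z
    have t3 := card_tri x x' z
    have t4 := card_symm_compl x z
    have t5 := card_tri x zᶜ x'
    have t6 := card_symm_compl x' z
    rw [symmDiff_comm z x'] at t1
    rw [symmDiff_comm x' x] at t2
    rw [symmDiff_comm zᶜ x'] at t5
    omega
  · simp only [Dep, Set.mem_ofPred_eq, Sum.elim_inr] at hz hz'
    induction e using Sym2.ind with
    | _ z w =>
      have h3 := hz z (Sym2.mem_mk_left _ _)
      have h4 := hz' z (Sym2.mem_mk_left _ _)
      have t1 := card_tri x z x'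
      rw [symmDiff_comm z x'] at t1
      omega

section

variable {pv pe : ℝ} (hv0 : 0 < pv) (hv1 : pv ≤ 1) (he0 : 0 < pe) (he1 : pe ≤ 1)

include hv0 hv1 he0 he1

lemma prob_notMem_opn (z : Finset (Fin n)) (j : Fin n) :
    (law (par pv pe)).real {ω : Co n → Bool | j ∉ opn ω z} = 1 - pv * pe := by
  classical
  have H0 := par_nonneg (n := n) hv0 hv1 he0 he1
  have H1 := par_le_one (n := n) hv0 hv1 he0 he1
  rw [prob_eq_integral H0 H1 (fun ω => j ∉ opn ω z)]
  have := integral_tilt hv0 hv1 he0 he1 z j 0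
  rw [mul_zero, add_zero] at this
  rw [← this]
  congr 1
  ext ω
  by_cases h : j ∈ opn ω z
  · rw [if_neg (by simpa using h), if_pos (mem_opn.1 h)]
  · rw [if_pos h, if_neg (fun h' => h (mem_opn.2 h'))]

lemma prob_far {x x' : Finset (Fin n)} (i i' : Fin m ↪ Fin n)
    (h1 : 2 * m < (x ∆ x').card) (h2 : (x ∆ x').card + 2 * m < n) :
    (law (par pv pe)).real {ω | EvC x i ω ∧ EvC x' i' ω} =
      (law (par pv pe)).real {ω | EvC x i ω} * (law (par pv pe)).real {ω | EvC x' i' ω} :=
  prob_and hv0 hv1 he0 he1 (Dep_disj h1 h2) _ _ (EvC_dep x i) (EvC_dep x' i')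

lemma prob_close {x x' : Finset (Fin n)} (i i' : Fin m ↪ Fin n) (hm : 1 ≤ m)
    (hne : (x, i) ≠ (x', i')) (t : ℝ) (ht0 : 0 < t) (ht1 : t ≤ 1) :
    (law (par pv pe)).real {ω | EvC x i ω ∧ EvC x' i' ω} ≤
      ((t ^ 2)⁻¹ * (1 - pv * pe + pv * pe * t) ^ (n - 3 * (m + 1))) ^ (m + 1) := by
  classical
  have H0 := par_nonneg (n := n) hv0 hv1 he0 he1
  have H1 := par_le_one (n := n) hv0 hv1 he0 he1
  have := law_prob H0 H1
  have hp : pv * pe ≤ 1 := by nlinarith
  have hp0 : 0 < pv * pe := by positivity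
  have hq0 : 0 ≤ 1 - pv * pe + pv * pe * t := by nlinarith
  rcases Nat.lt_or_ge ((Finset.range m).image (vx x i) ∪ (Finset.range m).image (vx x' i')).card (m + 1) with h | h
  · have : {ω | EvC x i ω ∧ EvC x' i' ω} = ∅ := by
      rw [Set.eq_empty_iff_forall_notMem]
      rintro ω ⟨h1, h2⟩
      have := h1.union h2 hm hne
      omega
    rw [this]
    simp only [measureReal_empty]
    positivity
  · obtain ⟨Z, hZ, hZc⟩ := Finset.exists_subset_card_eq h
    have h1 := poor_bound hv0 hv1 he0 he1 Z 2 t ht0 ht1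
    rw [hZc] at h1
    refine le_trans (measureReal_mono ?_) h1
    rintro ω ⟨h1, h2⟩ z hz
    rcases Finset.mem_union.1 (hZ hz) with h3 | h3
    · obtain ⟨a, ha, rfl⟩ := Finset.mem_image.1 h3
      rw [Finset.mem_range] at ha
      rw [h1.2.2 a ha]
      exact card_dirs_le i a
    · obtain ⟨a, ha, rfl⟩ := Finset.mem_image.1 h3
      rw [Finset.mem_range] at ha
      rw [h2.2.2 a ha]
      exact card_dirs_le i' a

end

end Pool.Agent.LibPerc
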