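import Pool.Agent.LibPerc.ChainL

set_option autoImplicit false
set_option linter.unusedSectionVars false
set_option linter.unusedVariables false
open MeasureTheory ProbabilityTheory Filter Topology
open scoped symmDiff

namespace Pool.Agent.LibPerc

variable {n m : ℕ}

section

variable {ι : Type*} [Fintype ι] {p : ι → ℝ} (h0 : ∀ c, 0 ≤ p c) (h1 : ∀ c, p c ≤ 1)

include h0 h1

/-- second moment bound for the number of events that occur -/
lemma second_moment {κ : Type*} [Fintype κ] [DecidableEq κ] (A : κ → (ι → Bool) → Prop)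
    (cl : κ → Finset κ) (B : ℕ) (hB : ∀ k, (cl k).card ≤ B) (b : ℝ) (hb : 0 ≤ b)
    (hfar : ∀ k l, l ∉ cl k → k ≠ l → (law p).real {ω | A k ω ∧ A l ω} ≤
      (law p).real {ω | A k ω} * (law p).real {ω | A l ω})
    (hcl : ∀ k l, k ≠ l → (law p).real {ω | A k ω ∧ A l ω} ≤ b) :
    (∑ k, (law p).real {ω | A k ω}) ^ 2 * (law p).real {ω | ∀ k, ¬ A k ω} ≤
      (∑ k, (law p).real {ω | A k ω}) + Fintype.card κ * (B * b) := by
  classical
  have := law_prob h0 h1
  have hint : ∀ f : (ι → Bool) → ℝ, Integrable f (law p) := integrable_all h0 h1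
  set μ := ∑ k, (law p).real {ω | A k ω} with hμ
  set N : (ι → Bool) → ℝ := fun ω => ∑ k, if A k ω then (1:ℝ) else 0 with hN
  have hEN : ∫ ω, N ω ∂(law p) = μ := by
    rw [hN, hμ, integral_finsetSum _ (fun i _ => hint _)]
    refine Finset.sum_congr rfl fun k _ => ?_
    rw [prob_eq_integral h0 h1]
  have hEN2 : ∫ ω, N ω * N ω ∂(law p) = ∑ k, ∑ l, (law p).real {ω | A k ω ∧ A l ω} := by
    have : ∀ ω, N ω * N ω = ∑ k, ∑ l, if A k ω ∧ A l ω then (1:ℝ) else 0 := by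
      intro ω
      rw [hN]
      simp only
      rw [Finset.sum_mul_sum]
      refine Finset.sum_congr rfl fun k _ => Finset.sum_congr rfl fun l _ => ?_
      by_cases h1 : A k ω <;> by_cases h2 : A l ω <;> simp [h1, h2]
    simp_rw [this]
    rw [integral_finsetSum _ (fun i _ => hint _)]
    refine Finset.sum_congr rfl fun k _ => ?_
    rw [integral_finsetSum _ (fun i _ => hint _)]
    refine Finset.sum_congr rfl fun l _ => ?_
    rw [prob_eq_integral h0 h1]
  have hbound : ∑ k, ∑ l, (law p).real {ω | A k ω ∧ A l ω} ≤ μ ^ 2 + (μ + Fintype.card κ * (B * b)) := by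
    have h2 : ∀ k l, (law p).real {ω | A k ω ∧ A l ω} ≤ (law p).real {ω | A k ω} * (law p).real {ω | A l ω} +
        ((if k = l then (law p).real {ω | A k ω} else 0) + if l ∈ cl k then b else 0) := by
      intro k l
      have hnn : 0 ≤ (law p).real {ω | A k ω} * (law p).real {ω | A l ω} :=
        mul_nonneg measureReal_nonneg measureReal_nonneg
      by_cases hkl : k = l
      · subst hkl
        simp only [and_self, if_true]
        have : 0 ≤ (if k ∈ cl k then b else 0) := by split_ifs <;> simp [hb]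
        linarith
      · rw [if_neg hkl]
        by_cases hc : l ∈ cl k
        · rw [if_pos hc]
          have := hcl k l hkl
          linarith
        · rw [if_neg hc]
          have := hfar k l hc hkl
          linarith
    calc ∑ k, ∑ l, (law p).real {ω | A k ω ∧ A l ω}
        ≤ ∑ k, ∑ l, ((law p).real {ω | A k ω} * (law p).real {ω | A l ω} +
        ((if k = l then (law p).real {ω | A k ω} else 0) + if l ∈ cl k then b else 0)) :=
          Finset.sum_le_sum fun k _ => Finset.sum_le_sum fun l _ => h2 k l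
      _ = μ ^ 2 + (μ + ∑ k, ((cl k).card : ℝ) * b) := by
          simp_rw [Finset.sum_add_distrib]
          congr 1
          · rw [pow_two, hμ, Finset.sum_mul_sum]
          · congr 1
            · refine Finset.sum_congr rfl fun k _ => ?_
              rw [Finset.sum_ite_eq]
              simp
            · refine Finset.sum_congr rfl fun k _ => ?_
              rw [Finset.sum_ite_mem, Finset.univ_inter, Finset.sum_const, nsmul_eq_mul]
      _ ≤ _ := by
          have h3 : ∑ k, ((cl k).card : ℝ) * b ≤ ∑ k : κ, (B * b) := by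
            refine Finset.sum_le_sum fun k _ => ?_
            refine mul_le_mul_of_nonneg_right ?_ hb
            exact_mod_cast hB k
          rw [Finset.sum_const, nsmul_eq_mul, Finset.card_univ] at h3
          linarith
  have hcheb : μ ^ 2 * (law p).real {ω | ∀ k, ¬ A k ω} ≤
      ∫ ω, (N ω * N ω - 2 * μ * N ω + μ ^ 2) ∂(law p) := by
    rw [prob_eq_integral h0 h1 (fun ω => ∀ k, ¬ A k ω), ← integral_const_mul]
    refine integral_mono (hint _) (hint _) fun ω => ?_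
    simp only
    by_cases h : ∀ k, ¬ A k ω
    · rw [if_pos h]
      have : N ω = 0 := by
        rw [hN]
        exact Finset.sum_eq_zero fun k _ => if_neg (h k)
      rw [this]
      apply le_of_eq
      ring
    · rw [if_neg h, mul_zero]
      nlinarith [sq_nonneg (N ω - μ)]
  rw [integral_add (hint _) (hint _), integral_sub (hint _) (hint _), integral_const_mul, hEN, hEN2] at hcheb
  have hc : ∫ ω : ι → Bool, μ ^ 2 ∂(law p) = μ ^ 2 := by simp
  rw [hc] at hcheb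
  nlinarith

end

/-- starting points that may interact with `x` -/
def nearS (x : Finset (Fin n)) (m : ℕ) : Finset (Finset (Fin n)) :=
  Finset.univ.filter (fun z => (x ∆ z).card ≤ 2 * m ∨ n ≤ (x ∆ z).card + 2 * m)

lemma card_nearS (x : Finset (Fin n)) (m : ℕ) : (nearS x m).card ≤ 2 * (n + 1) ^ (2 * m) := by
  classical
  have h1 : nearS x m ⊆ bal x (2 * m) ∪ Finset.univ.filter (fun z => n ≤ (x ∆ z).card + 2 * m) := by
    intro z hz
    rw [Finset.mem_union, mem_bal]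
    rcases (Finset.mem_filter.1 hz).2 with h | h
    · exact Or.inl h
    · exact Or.inr (Finset.mem_filter.2 ⟨Finset.mem_univ _, h⟩)
  have h2 : (Finset.univ.filter (fun z : Finset (Fin n) => n ≤ (x ∆ z).card + 2 * m)).card ≤ (n + 1) ^ (2 * m) := by
    refine le_trans ?_ (card_large n (2 * m))
    refine Finset.card_le_card_of_injOn (fun z => x ∆ z) ?_ ?_
    · intro z hz
      have := (Finset.mem_filter.1 hz).2
      simp only [Finset.coe_filter, Finset.mem_univ, true_and, Set.mem_ofPred_eq]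
      exact this
    · intro z _ z' _ h
      exact symmDiff_inj h
  have h3 := card_bal x (2 * m)
  have h4 := Finset.card_le_card h1
  have h5 := Finset.card_union_le (bal x (2 * m)) (Finset.univ.filter (fun z => n ≤ (x ∆ z).card + 2 * m))
  omega

section

variable {pv pe : ℝ} (hv0 : 0 < pv) (hv1 : pv ≤ 1) (he0 : 0 < pe) (he1 : pe ≤ 1)

include hv0 hv1 he0 he1

lemma prob_no_chain {κ : ℝ} (hκ0 : 0 < κ) (hκ1 : κ ≤ 1) (k1 : κ ≤ pv) (k2 : κ ≤ pe)
    (k3 : pv ≠ 1 → κ ≤ 1 - pv) (k4 : pe ≠ 1 → κ ≤ 1 - pe) (hpp : ¬ (pv = 1 ∧ pe = 1)) (hn : 2 * m < n)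
    (hm : 1 ≤ m) (hq : pv * pe < 1) (t : ℝ) (ht0 : 0 < t) (ht1 : t ≤ 1) :
    (law (par pv pe)).real {ω : Co n → Bool | ∀ k : Finset (Fin n) × (Fin m ↪ Fin n), ¬ EvC k.1 k.2 ω} ≤
      (κ ^ (2 + m * m * 2) * (2 * (1 - pv * pe) ^ m) ^ n * ((n + 1 - m : ℕ) : ℝ) ^ m)⁻¹ +
      (2 ^ n * (n ^ m) * (2 * (n + 1) ^ (2 * m) * n ^ m)) *
      ((t ^ 2)⁻¹ * (1 - pv * pe + pv * pe * t) ^ (n - 3 * (m + 1))) ^ (m + 1) *
      ((κ ^ (2 + m * m * 2) * (2 * (1 - pv * pe) ^ m) ^ n * ((n + 1 - m : ℕ) : ℝ) ^ m) ^ 2)⁻¹ := by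
  classical
  have H0 := par_nonneg (n := n) hv0 hv1 he0 he1
  have H1 := par_le_one (n := n) hv0 hv1 he0 he1
  have := law_prob H0 H1
  have hp0 : 0 < pv * pe := by positivity
  have hq0 : 0 < 1 - pv * pe := by linarith
  have hq1 : 0 < 1 - pv * pe + pv * pe * t := by positivity
  set b : ℝ := ((t ^ 2)⁻¹ * (1 - pv * pe + pv * pe * t) ^ (n - 3 * (m + 1))) ^ (m + 1) with hb
  have hb0 : 0 ≤ b := by positivity
  have hemb : Fintype.card (Fin m ↪ Fin n) = n.descFactorial m := by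
    rw [Fintype.card_embedding_eq, Fintype.card_fin, Fintype.card_fin]
  have hemb1 : Fintype.card (Fin m ↪ Fin n) ≤ n ^ m := by
    rw [hemb]; exact Nat.descFactorial_le_pow n m
  have hemb2 : (n + 1 - m) ^ m ≤ Fintype.card (Fin m ↪ Fin n) := by
    rw [hemb]; exact Nat.pow_sub_le_descFactorial n m
  have hsm := second_moment H0 H1
    (fun (k : Finset (Fin n) × (Fin m ↪ Fin n)) ω => EvC k.1 k.2 ω)
    (fun k => nearS k.1 m ×ˢ Finset.univ) (2 * (n + 1) ^ (2 * m) * n ^ m) (by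
      intro k
      rw [Finset.card_product, Finset.card_univ]
      exact Nat.mul_le_mul (card_nearS _ _) hemb1) b hb0 (by
      intro k l hl hkl
      apply le_of_eq
      have : l.1 ∉ nearS k.1 m := fun h => hl (Finset.mem_product.2 ⟨h, Finset.mem_univ _⟩)
      have h1 : ¬ ((k.1 ∆ l.1).card ≤ 2 * m ∨ n ≤ (k.1 ∆ l.1).card + 2 * m) := fun h =>
        this (Finset.mem_filter.2 ⟨Finset.mem_univ _, h⟩)
      exact prob_far hv0 hv1 he0 he1 k.2 l.2 (by omega) (by omega)) (by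
      intro k l hkl
      exact prob_close hv0 hv1 he0 he1 k.2 l.2 hm hkl t ht0 ht1)
  set μ := ∑ k : Finset (Fin n) × (Fin m ↪ Fin n), (law (par pv pe)).real {ω : Co n → Bool | EvC k.1 k.2 ω} with hμ
  set ν : ℝ := κ ^ (2 + m * m * 2) * (2 * (1 - pv * pe) ^ m) ^ n * ((n + 1 - m : ℕ) : ℝ) ^ m with hν
  have hν0 : 0 < ν := by
    have : 0 < n + 1 - m := by omega
    positivity
  have hμν : ν ≤ μ := by
    have h1 : ∑ k : Finset (Fin n) × (Fin m ↪ Fin n), κ ^ (2 + m * m * 2) * ((1 - pv * pe) ^ m) ^ n ≤ μ :=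
      Finset.sum_le_sum fun k _ => prob_EvC_ge hv0 hv1 he0 he1 hκ0 hκ1 k1 k2 k3 k4 hpp hn k.1 k.2
    refine le_trans ?_ h1
    rw [Finset.sum_const, nsmul_eq_mul, Finset.card_univ, Fintype.card_prod, Fintype.card_finset,
      Fintype.card_fin]
    have h2 : (((n + 1 - m : ℕ) : ℝ)) ^ m ≤ (Fintype.card (Fin m ↪ Fin n) : ℝ) := by exact_mod_cast hemb2
    calc ν = (2 ^ n * (((n + 1 - m : ℕ) : ℝ)) ^ m) * (κ ^ (2 + m * m * 2) * ((1 - pv * pe) ^ m) ^ n) := by
          rw [hν, mul_pow]; ring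
      _ ≤ (2 ^ n * (Fintype.card (Fin m ↪ Fin n) : ℝ)) * (κ ^ (2 + m * m * 2) * ((1 - pv * pe) ^ m) ^ n) := by
          refine mul_le_mul_of_nonneg_right ?_ (by positivity)
          exact mul_le_mul_of_nonneg_left h2 (by positivity)
      _ = _ := by push_cast; ring
  have hμ0 : 0 < μ := lt_of_lt_of_le hν0 hμν
  set P := (law (par pv pe)).real {ω : Co n → Bool | ∀ k : Finset (Fin n) × (Fin m ↪ Fin n), ¬ EvC k.1 k.2 ω} with hP
  have hcardκ : (Fintype.card (Finset (Fin n) × (Fin m ↪ Fin n)) : ℝ) ≤ 2 ^ n * n ^ m := by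
    rw [Fintype.card_prod, Fintype.card_finset, Fintype.card_fin]
    push_cast
    refine mul_le_mul_of_nonneg_left ?_ (by positivity)
    exact_mod_cast hemb1
  have hS : (Fintype.card (Finset (Fin n) × (Fin m ↪ Fin n)) : ℝ) * (((2 * (n + 1) ^ (2 * m) * n ^ m : ℕ) : ℝ) * b) ≤
      (2 ^ n * (n ^ m) * (2 * (n + 1) ^ (2 * m) * n ^ m)) * b := by
    push_cast
    calc (Fintype.card (Finset (Fin n) × (Fin m ↪ Fin n)) : ℝ) * ((2 * ((n:ℝ) + 1) ^ (2 * m) * (n:ℝ) ^ m) * b)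
        ≤ (2 ^ n * n ^ m) * ((2 * ((n:ℝ) + 1) ^ (2 * m) * (n:ℝ) ^ m) * b) :=
          mul_le_mul_of_nonneg_right hcardκ (by positivity)
      _ = _ := by ring
  have h5 : P ≤ μ⁻¹ + (2 ^ n * (n ^ m) * (2 * (n + 1) ^ (2 * m) * n ^ m)) * b * (μ ^ 2)⁻¹ := by
    have h6 : μ ^ 2 * P ≤ μ + (2 ^ n * (n ^ m) * (2 * (n + 1) ^ (2 * m) * n ^ m)) * b := by
      refine hsm.trans ?_
      linarith
    have h7 : P = (μ ^ 2)⁻¹ * (μ ^ 2 * P) := by
      field_simp
    rw [h7]
    calc (μ ^ 2)⁻¹ * (μ ^ 2 * P) ≤ (μ ^ 2)⁻¹ * (μ + (2 ^ n * (n ^ m) * (2 * (n + 1) ^ (2 * m) * n ^ m)) * b) :=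
          mul_le_mul_of_nonneg_left h6 (by positivity)
      _ = _ := by
          field_simp
  refine h5.trans ?_
  refine add_le_add ?_ ?_
  · exact inv_anti₀ hν0 hμν
  · refine mul_le_mul_of_nonneg_left ?_ (by positivity)
    refine inv_anti₀ (by positivity) ?_
    exact pow_le_pow_left₀ hν0.le hμν 2

theorem tendsto_chain (m : ℕ) (hm : 1 ≤ m) (hq : pv * pe < 1) (hqm : 1 / 2 ≤ (1 - pv * pe) ^ m) :
    Tendsto (fun n : ℕ => (law (par pv pe)).real
      {ω : Co n → Bool | ∀ k : Finset (Fin n) × (Fin m ↪ Fin n), ¬ EvC k.1 k.2 ω}) atTop (𝓝 0) := by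
  classical
  have hp0 : 0 < pv * pe := by positivity
  have hq0 : 0 < 1 - pv * pe := by linarith
  set q : ℝ := 1 - pv * pe with hqdef
  -- constants
  obtain ⟨κ, hκ0, hκ1, k1, k2, k3, k4⟩ : ∃ κ : ℝ, 0 < κ ∧ κ ≤ 1 ∧ κ ≤ pv ∧ κ ≤ pe ∧
      (pv ≠ 1 → κ ≤ 1 - pv) ∧ (pe ≠ 1 → κ ≤ 1 - pe) := by
    refine ⟨min (min pv pe) (min (if pv = 1 then 1 else 1 - pv) (if pe = 1 then 1 else 1 - pe)), ?_, ?_, ?_, ?_, ?_, ?_⟩
    · refine lt_min (lt_min hv0 he0) (lt_min ?_ ?_)
      · split_ifs with h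
        · norm_num
        · have : pv < 1 := lt_of_le_of_ne hv1 h
          linarith
      · split_ifs with h
        · norm_num
        · have : pe < 1 := lt_of_le_of_ne he1 h
          linarith
    · exact ((min_le_left _ _).trans (min_le_left _ _)).trans hv1
    · exact (min_le_left _ _).trans (min_le_left _ _)
    · exact (min_le_left _ _).trans (min_le_right _ _)
    · intro h
      refine ((min_le_right _ _).trans (min_le_left _ _)).trans ?_
      rw [if_neg h]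
    · intro h
      refine ((min_le_right _ _).trans (min_le_right _ _)).trans ?_
      rw [if_neg h]
  have hpp : ¬ (pv = 1 ∧ pe = 1) := by
    rintro ⟨h1, h2⟩
    rw [h1, h2] at hq
    norm_num at hq
  have hθ : q ^ (m + 1) < 2 * (q ^ m * q ^ m) := by
    have hqm0 : 0 < q ^ m := by positivity
    have h1 : q ^ m ≤ 2 * (q ^ m * q ^ m) := by nlinarith
    have h2 : q ^ (m + 1) < q ^ m := by
      rw [pow_succ]
      have : q < 1 := by linarith
      nlinarith
    linarith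
  obtain ⟨t, ht0, ht1, ht⟩ := exists_tilt hv0 hv1 he0 he1 (m + 1) (by omega) (2 * (q ^ m * q ^ m)) hθ
  have hq1 : 0 < q + pv * pe * t := by positivity
  set X : ℝ := (q + pv * pe * t) ^ (m + 1) with hX
  have hX0 : 0 < X := by positivity
  set ρ : ℝ := X / (2 * (q ^ m * q ^ m)) with hρ
  have hρ0 : 0 < ρ := by positivity
  have hρ1 : ρ < 1 := by
    rw [hρ, div_lt_one (by positivity)]
    exact ht
  set K : ℝ := κ ^ (2 + m * m * 2) with hK
  have hK0 : 0 < K := by positivity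
  have hlim1 : Tendsto (fun n : ℕ => (K * ((n + 1 - m : ℕ) : ℝ))⁻¹) atTop (𝓝 0) := by
    refine Tendsto.inv_tendsto_atTop ?_
    refine Tendsto.const_mul_atTop hK0 ?_
    refine tendsto_natCast_atTop_atTop.comp ?_
    refine tendsto_atTop_mono (fun n => ?_) (tendsto_sub_atTop_nat m)
    omega
  have hlim2 : Tendsto (fun n : ℕ => (2 * ((t ^ 2)⁻¹) ^ (m + 1) * (X ^ (3 * (m + 1)))⁻¹ * (K ^ 2)⁻¹ * ρ⁻¹) *
      (((n + 1 : ℕ) : ℝ) ^ (4 * m) * ρ ^ (n + 1))) atTop (𝓝 0) := by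
    have h1 := tendsto_pow_const_mul_const_pow_of_abs_lt_one (4 * m) (r := ρ)
      (by rw [abs_of_pos hρ0]; exact hρ1)
    have h2 := (h1.comp (tendsto_add_atTop_nat 1)).const_mul
      (2 * ((t ^ 2)⁻¹) ^ (m + 1) * (X ^ (3 * (m + 1)))⁻¹ * (K ^ 2)⁻¹ * ρ⁻¹)
    rw [mul_zero] at h2
    exact h2
  have hlim := hlim1.add hlim2
  rw [add_zero] at hlim
  refine tendsto_of_tendsto_of_tendsto_of_le_of_le' tendsto_const_nhds hlim
    (Eventually.of_forall fun n => measureReal_nonneg) ?_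
  filter_upwards [eventually_gt_atTop (2 * m), eventually_ge_atTop (3 * (m + 1))] with n hn hn3
  refine (prob_no_chain hv0 hv1 he0 he1 hκ0 hκ1 k1 k2 k3 k4 hpp hn hm hq t ht0 ht1).trans ?_
  have hnm : (1:ℝ) ≤ ((n + 1 - m : ℕ) : ℝ) := by
    have : 1 ≤ n + 1 - m := by omega
    exact_mod_cast this
  have h2q : 1 ≤ 2 * q ^ m := by linarith
  rw [← hK, ← hqdef]
  refine add_le_add ?_ ?_
  · refine inv_anti₀ (by positivity) ?_
    have e1 : (1:ℝ) ≤ (2 * q ^ m) ^ n := one_le_pow₀ h2q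
    have e2 : ((n + 1 - m : ℕ) : ℝ) ≤ ((n + 1 - m : ℕ) : ℝ) ^ m := le_self_pow₀ hnm (by omega)
    calc K * ((n + 1 - m : ℕ) : ℝ) = K * 1 * ((n + 1 - m : ℕ) : ℝ) := by ring
      _ ≤ K * (2 * q ^ m) ^ n * ((n + 1 - m : ℕ) : ℝ) ^ m := by
        refine mul_le_mul ?_ e2 (by positivity) (by positivity)
        exact mul_le_mul_of_nonneg_left e1 hK0.le
  · have e1 : (K * (2 * q ^ m) ^ n) ^ 2 ≤ (K * (2 * q ^ m) ^ n * ((n + 1 - m : ℕ) : ℝ) ^ m) ^ 2 := by
      refine pow_le_pow_left₀ (by positivity) ?_ 2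
      exact le_mul_of_one_le_right (by positivity) (one_le_pow₀ hnm)
    have e2 : ((K * (2 * q ^ m) ^ n * ((n + 1 - m : ℕ) : ℝ) ^ m) ^ 2)⁻¹ ≤ ((K * (2 * q ^ m) ^ n) ^ 2)⁻¹ :=
      inv_anti₀ (by positivity) e1
    have e3 : ((q + pv * pe * t) ^ (n - 3 * (m + 1))) ^ (m + 1) = X ^ n * (X ^ (3 * (m + 1)))⁻¹ := by
      rw [← pow_mul, mul_comm (n - 3 * (m + 1)) (m + 1), pow_mul, ← hX]
      rw [pow_sub₀ X hX0.ne' hn3]
    have e4 : (n:ℝ) ^ m ≤ ((n:ℝ) + 1) ^ m := pow_le_pow_left₀ (by positivity) (by linarith) _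
    rw [mul_pow (t ^ 2)⁻¹, e3]
    calc (2 ^ n * ((n:ℝ) ^ m) * (2 * ((n:ℝ) + 1) ^ (2 * m) * (n:ℝ) ^ m)) *
          (((t ^ 2)⁻¹) ^ (m + 1) * (X ^ n * (X ^ (3 * (m + 1)))⁻¹)) *
          ((K * (2 * q ^ m) ^ n * ((n + 1 - m : ℕ) : ℝ) ^ m) ^ 2)⁻¹
        ≤ (2 ^ n * (((n:ℝ) + 1) ^ m) * (2 * ((n:ℝ) + 1) ^ (2 * m) * ((n:ℝ) + 1) ^ m)) *
          (((t ^ 2)⁻¹) ^ (m + 1) * (X ^ n * (X ^ (3 * (m + 1)))⁻¹)) *
          ((K * (2 * q ^ m) ^ n) ^ 2)⁻¹ := by
          refine mul_le_mul ?_ e2 (by positivity) (by positivity)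
          refine mul_le_mul_of_nonneg_right ?_ (by positivity)
          refine mul_le_mul ?_ ?_ (by positivity) (by positivity)
          · exact mul_le_mul_of_nonneg_left e4 (by positivity)
          · exact mul_le_mul_of_nonneg_left e4 (by positivity)
      _ = (2 * ((t ^ 2)⁻¹) ^ (m + 1) * (X ^ (3 * (m + 1)))⁻¹ * (K ^ 2)⁻¹) *
          ((((n:ℝ) + 1) ^ m * ((n:ℝ) + 1) ^ (2 * m) * ((n:ℝ) + 1) ^ m) * (2 ^ n * X ^ n * (((2 * q ^ m) ^ n) ^ 2)⁻¹)) := by
          rw [mul_pow K, mul_inv]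
          ring
      _ = (2 * ((t ^ 2)⁻¹) ^ (m + 1) * (X ^ (3 * (m + 1)))⁻¹ * (K ^ 2)⁻¹ * ρ⁻¹) *
          (((n + 1 : ℕ) : ℝ) ^ (4 * m) * ρ ^ (n + 1)) := by
          have f1 : ((n:ℝ) + 1) ^ m * ((n:ℝ) + 1) ^ (2 * m) * ((n:ℝ) + 1) ^ m = ((n + 1 : ℕ) : ℝ) ^ (4 * m) := by
            rw [← pow_add, ← pow_add]
            push_cast
            congr 1
            omega
          have f2 : 2 ^ n * X ^ n * (((2 * q ^ m) ^ n) ^ 2)⁻¹ = ρ ^ n := by
            rw [← mul_pow, ← pow_mul, mul_comm n 2, pow_mul, ← inv_pow, ← mul_pow, hρ]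
            congr 1
            field_simp
          have f3 : ρ ^ n = ρ⁻¹ * ρ ^ (n + 1) := by
            rw [pow_succ]
            field_simp
          rw [f1, f2, f3]
          ring

end

end Pool.Agent.LibPerc
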