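import Pool.Agent.LibPerc.SecondB

set_option autoImplicit false
set_option linter.unusedSectionVars false
open MeasureTheory ProbabilityTheory Filter Topology
open scoped symmDiff

namespace Pool.Agent.LibPerc

variable {n : ℕ}

/-- the random subgraph of the cube read off from the coins -/
def hG (ω : Co n → Bool) : SimpleGraph (Finset (Fin n)) where
  Adj x y := (x ∆ y).card = 1 ∧ ω (Sum.inl x) = true ∧ ω (Sum.inl y) = true ∧
    ω (Sum.inr s(x, y)) = true
  symm := ⟨fun x y ⟨h1, h2, h3, h4⟩ => ⟨by rw [symmDiff_comm]; exact h1, h3, h2, by rw [Sym2.eq_swap]; exact h4⟩⟩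
  loopless := ⟨fun x h => by
    have := h.1
    rw [symmDiff_self] at this
    simp at this⟩

/-- the event that there is an open increasing path from `a` to `a ∆ W` -/
def Conn (pv pe : ℝ) (a W : Finset (Fin n)) (ω : Co n → Bool) : Prop :=
  0 < Mn pv pe a W.card W ω

lemma Conn_dep (pv pe : ℝ) (a W : Finset (Fin n)) : DependsOn (Conn pv pe a W) (cubeC a W) := by
  intro x y h
  unfold Conn
  rw [Mn_dep pv pe a W.card W rfl h]

lemma walk_of_Mn {pv pe : ℝ} (hv : 0 < pv) (he : 0 < pe) (a : Finset (Fin n)) (k : ℕ)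
    (W : Finset (Fin n)) (hW : W.card = k) (ω : Co n → Bool) (ha : ω (Sum.inl a) = true)
    (h : 0 < Mn pv pe a k W ω) :
    ω (Sum.inl (a ∆ W)) = true ∧ ∃ p : (hG ω).Walk a (a ∆ W), p.length = k := by
  classical
  induction k generalizing W with
  | zero =>
    rw [Finset.card_eq_zero] at hW
    subst hW
    have e : a ∆ ∅ = a := symmDiff_bot a
    rw [e]
    exact ⟨ha, SimpleGraph.Walk.nil, rfl⟩
  | succ k ih =>
    rw [Mn] at h
    have hsum : 0 < ∑ i ∈ W, stepF pv pe a W i ω * Mn pv pe a k (W.erase i) ω := by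
      by_contra hcon
      push Not at hcon
      have : (0:ℝ) < ((k:ℝ) + 1)⁻¹ := by positivity
      nlinarith
    obtain ⟨i, hi, hpos⟩ := Finset.exists_lt_of_sum_lt (s := W) (f := fun _ => (0:ℝ))
      (g := fun i => stepF pv pe a W i ω * Mn pv pe a k (W.erase i) ω) (by simpa using hsum)
    have hM := Mn_nonneg hv.le he.le a k (W.erase i) ω
    have hS := stepF_nonneg hv he a W i ω
    have hM' : 0 < Mn pv pe a k (W.erase i) ω := by
      rcases hM.lt_or_eq with h' | h'
      · exact h'
      · rw [← h', mul_zero] at hpos; exact absurd hpos (lt_irrefl _)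
    have hS' : 0 < stepF pv pe a W i ω := by
      rcases hS.lt_or_eq with h' | h'
      · exact h'
      · rw [← h', zero_mul] at hpos; exact absurd hpos (lt_irrefl _)
    unfold stepF at hS'
    have h1 : ω (Sum.inl (a ∆ W)) = true := by
      by_contra hcon
      rw [if_neg hcon, zero_mul] at hS'
      exact lt_irrefl _ hS'
    have h2 : ω (Sum.inr s(a ∆ (W.erase i), a ∆ W)) = true := by
      by_contra hcon
      rw [if_neg hcon, mul_zero] at hS'
      exact lt_irrefl _ hS'
    obtain ⟨h3, p, hp⟩ := ih (W.erase i) (by rw [Finset.card_erase_of_mem hi, hW]; rfl) hM'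
    refine ⟨h1, ?_⟩
    have hadj : (hG ω).Adj (a ∆ (W.erase i)) (a ∆ W) := by
      refine ⟨?_, h3, h1, h2⟩
      have : (a ∆ (W.erase i)) ∆ (a ∆ W) = {i} := by
        rw [symmDiff_symmDiff_symmDiff_comm, symmDiff_self, bot_symmDiff]
        ext j
        simp only [Finset.mem_symmDiff, Finset.mem_erase, Finset.mem_singleton]
        constructor
        · rintro (⟨⟨_, hj⟩, hj'⟩ | ⟨hj, hj'⟩)
          · exact absurd hj hj'
          · by_contra hne
            exact hj' ⟨hne, hj⟩
        · rintro rfl
          exact Or.inr ⟨hi, fun h => h.1 rfl⟩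
      rw [this]
      simp
    refine ⟨p.concat hadj, ?_⟩
    rw [SimpleGraph.Walk.length_concat, hp]

section

variable {pv pe : ℝ} (hv0 : 0 < pv) (hv1 : pv ≤ 1) (he0 : 0 < pe) (he1 : pe ≤ 1)

include hv0 hv1 he0 he1

lemma integral_Mn (a : Finset (Fin n)) (k : ℕ) (W : Finset (Fin n)) (hW : W.card = k) :
    ∫ ω, Mn pv pe a k W ω ∂(law (par pv pe)) = 1 := by
  classical
  have H0 := par_nonneg (n := n) hv0 hv1 he0 he1
  have H1 := par_le_one (n := n) hv0 hv1 he0 he1
  have := law_prob H0 H1
  have hint : ∀ f : (Co n → Bool) → ℝ, Integrable f (law (par pv pe)) := integrable_all H0 H1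
  induction k generalizing W with
  | zero => simp [Mn]
  | succ k ih =>
    simp_rw [Mn]
    rw [integral_const_mul, integral_finsetSum _ (fun i _ => hint _)]
    have h1 : ∀ i ∈ W, ∫ ω, stepF pv pe a W i ω * Mn pv pe a k (W.erase i) ω ∂(law (par pv pe)) = 1 := by
      intro i hi
      have hc : (W.erase i).card = k := by rw [Finset.card_erase_of_mem hi, hW]; rfl
      rw [peel hv0 hv1 he0 he1 a W i (cubeC a (W.erase i)) _ (Mn_dep pv pe a k _ hc)]
      · exact ih _ hc
      · intro h
        have := cubeC_sub_lev a _ k hc.le h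
        simp only [lev, Set.mem_ofPred_eq, Sum.elim_inl] at this
        rw [symmDiff_cancel, hW] at this
        omega
      · intro h
        have := cubeC_sub_lev a _ k hc.le h
        simp only [lev, Set.mem_ofPred_eq, Sum.elim_inr] at this
        have := this (a ∆ W) (Sym2.mem_mk_right _ _)
        rw [symmDiff_cancel, hW] at this
        omega
    rw [Finset.sum_congr rfl h1, Finset.sum_const, hW, nsmul_eq_mul]
    push_cast
    field_simp

/-- connection through a cube has probability bounded below -/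
theorem exists_conn_bound : ∃ c : ℝ, 0 < c ∧ c ≤ 1 ∧ ∀ (n : ℕ) (a W : Finset (Fin n)),
    c ≤ (law (par pv pe)).real {ω : Co n → Bool | Conn pv pe a W ω} := by
  classical
  obtain ⟨A, hA1, hA⟩ := exists_second_bound hv0 hv1 he0 he1
  refine ⟨A⁻¹, by positivity, inv_le_one_of_one_le₀ hA1, ?_⟩
  intro n a W
  have H0 := par_nonneg (n := n) hv0 hv1 he0 he1
  have H1 := par_le_one (n := n) hv0 hv1 he0 he1
  have := law_prob H0 H1
  have hint : ∀ f : (Co n → Bool) → ℝ, Integrable f (law (par pv pe)) := integrable_all H0 H1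
  have h1 := integral_Mn hv0 hv1 he0 he1 a W.card W rfl
  have h2 := hA n a W
  rw [prob_eq_integral H0 H1 (fun ω => Conn pv pe a W ω)]
  have h3 : ∫ ω, Mn pv pe a W.card W ω ∂(law (par pv pe)) ≤
      ∫ ω, ((2 * A)⁻¹ * (Mn pv pe a W.card W ω * Mn pv pe a W.card W ω) +
        (A / 2) * (if Conn pv pe a W ω then (1:ℝ) else 0)) ∂(law (par pv pe)) := by
    refine integral_mono (hint _) (hint _) fun ω => ?_
    simp only
    by_cases h : Conn pv pe a W ω
    · rw [if_pos h]
      have : 0 ≤ ((2 * A)⁻¹) * (Mn pv pe a W.card W ω - A) ^ 2 := by positivity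
      have e : (2 * A)⁻¹ * (Mn pv pe a W.card W ω * Mn pv pe a W.card W ω) + A / 2 * 1 -
          Mn pv pe a W.card W ω = ((2 * A)⁻¹) * (Mn pv pe a W.card W ω - A) ^ 2 := by
        have : A ≠ 0 := by positivity
        field_simp
        ring
      linarith
    · rw [if_neg h]
      have h0 : Mn pv pe a W.card W ω = 0 := by
        have := Mn_nonneg hv0.le he0.le a W.card W ω
        unfold Conn at h
        linarith
      rw [h0]
      simp
  rw [h1, integral_add (hint _) (hint _), integral_const_mul, integral_const_mul] at h3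
  have h4 : (2 * A)⁻¹ * ∫ ω, Mn pv pe a W.card W ω * Mn pv pe a W.card W ω ∂(law (par pv pe)) ≤ 1 / 2 := by
    calc _ ≤ (2 * A)⁻¹ * A := mul_le_mul_of_nonneg_left h2 (by positivity)
      _ = 1 / 2 := by
        have : A ≠ 0 := by positivity
        field_simp
  rw [inv_le_iff_one_le_mul₀ (by positivity)]
  linarith

end

end Pool.Agent.LibPerc
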