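import Pool.Agent.LibPerc.Rich

set_option autoImplicit false
set_option linter.unusedSectionVars false
set_option linter.unusedVariables false
open MeasureTheory ProbabilityTheory Filter Topology
open scoped symmDiff

namespace Pool.Agent.LibPerc

variable {n L : ℕ}

/-- directions at `z` leading away from the neighbourhood of the other points of `Z` -/
def cln (Z : Finset (Finset (Fin n))) (z : Finset (Fin n)) : Finset (Fin n) :=
  Finset.univ.filter (fun i => z ∆ {i} ∉ Z ∧ ∀ z' ∈ Z, z' ≠ z → ((z ∆ {i}) ∆ z').card ≠ 1)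

lemma singleton_symm_inj {z : Finset (Fin n)} {i j : Fin n} (h : z ∆ {i} = z ∆ {j}) : i = j := by
  have := symmDiff_inj h
  exact Finset.singleton_injective this

lemma card_nbr_le (z z' : Finset (Fin n)) (h : z' ≠ z) :
    (Finset.univ.filter (fun i : Fin n => ((z ∆ {i}) ∆ z').card = 1)).card ≤ 2 := by
  classical
  by_cases h2 : (z ∆ z').card = 2
  · refine (Finset.card_le_card ?_).trans h2.le
    intro i hi
    rw [Finset.mem_filter] at hi
    by_contra hcon
    have e : (z ∆ {i}) ∆ z' = insert i (z ∆ z') := by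
      ext a
      simp only [Finset.mem_symmDiff, Finset.mem_singleton, Finset.mem_insert] at hcon ⊢
      by_cases hai : a = i
      · subst hai
        tauto
      · tauto
    rw [e, Finset.card_insert_of_notMem hcon, h2] at hi
    omega
  · have : Finset.univ.filter (fun i : Fin n => ((z ∆ {i}) ∆ z').card = 1) = ∅ := by
      rw [Finset.eq_empty_iff_forall_notMem]
      intro i hi
      rw [Finset.mem_filter] at hi
      by_cases hcon : i ∈ z ∆ z'
      · have e : (z ∆ {i}) ∆ z' = (z ∆ z').erase i := by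
          ext a
          simp only [Finset.mem_symmDiff, Finset.mem_singleton, Finset.mem_erase] at hcon ⊢
          by_cases hai : a = i
          · subst hai
            tauto
          · tauto
        rw [e, Finset.card_erase_of_mem hcon] at hi
        apply h2
        have := Finset.card_pos.2 ⟨i, hcon⟩
        omega
      · have e : (z ∆ {i}) ∆ z' = insert i (z ∆ z') := by
          ext a
          simp only [Finset.mem_symmDiff, Finset.mem_singleton, Finset.mem_insert] at hcon ⊢
          by_cases hai : a = i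
          · subst hai
            tauto
          · tauto
        rw [e, Finset.card_insert_of_notMem hcon] at hi
        have h0 : (z ∆ z').card = 0 := by omega
        rw [Finset.card_eq_zero] at h0
        exact h (symmDiff_eq_bot.1 h0).symm
    rw [this]
    simp

lemma card_cln_ge (Z : Finset (Finset (Fin n))) (z : Finset (Fin n)) (hz : z ∈ Z) :
    n ≤ (cln Z z).card + 3 * Z.card := by
  classical
  have hcover : (Finset.univ : Finset (Fin n)) ⊆ cln Z z ∪
      ((Finset.univ.filter (fun i : Fin n => z ∆ {i} ∈ Z)) ∪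
      (Z.erase z).biUnion (fun z' => Finset.univ.filter (fun i : Fin n => ((z ∆ {i}) ∆ z').card = 1))) := by
    intro i _
    by_cases h1 : z ∆ {i} ∈ Z
    · exact Finset.mem_union_right _ (Finset.mem_union_left _ (Finset.mem_filter.2 ⟨Finset.mem_univ _, h1⟩))
    · by_cases h2 : ∀ z' ∈ Z, z' ≠ z → ((z ∆ {i}) ∆ z').card ≠ 1
      · exact Finset.mem_union_left _ (Finset.mem_filter.2 ⟨Finset.mem_univ _, h1, h2⟩)
      · push Not at h2
        obtain ⟨z', hz', hne, hc⟩ := h2
        refine Finset.mem_union_right _ (Finset.mem_union_right _ (Finset.mem_biUnion.2 ⟨z', ?_, ?_⟩))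
        · exact Finset.mem_erase.2 ⟨hne, hz'⟩
        · exact Finset.mem_filter.2 ⟨Finset.mem_univ _, hc⟩
  have h1 : (Finset.univ.filter (fun i : Fin n => z ∆ {i} ∈ Z)).card ≤ Z.card := by
    refine Finset.card_le_card_of_injOn (fun i => z ∆ {i}) ?_ ?_
    · intro i hi
      exact (Finset.mem_filter.1 hi).2
    · intro i _ j _ hij
      exact singleton_symm_inj hij
  have h2 : ((Z.erase z).biUnion (fun z' => Finset.univ.filter (fun i : Fin n => ((z ∆ {i}) ∆ z').card = 1))).card ≤
      (Z.erase z).card * 2 := by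
    refine Finset.card_biUnion_le_card_mul _ _ _ ?_
    intro z' hz'
    exact card_nbr_le z z' (Finset.mem_erase.1 hz').1
  have h3 : (Z.erase z).card ≤ Z.card := Finset.card_erase_le
  have h4 := Finset.card_le_card hcover
  have h5 := Finset.card_union_le (cln Z z) ((Finset.univ.filter (fun i : Fin n => z ∆ {i} ∈ Z)) ∪
      (Z.erase z).biUnion (fun z' => Finset.univ.filter (fun i : Fin n => ((z ∆ {i}) ∆ z').card = 1)))
  have h6 := Finset.card_union_le (Finset.univ.filter (fun i : Fin n => z ∆ {i} ∈ Z))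
      ((Z.erase z).biUnion (fun z' => Finset.univ.filter (fun i : Fin n => ((z ∆ {i}) ∆ z').card = 1)))
  rw [Finset.card_univ, Fintype.card_fin] at h4
  omega

section

variable {pv pe : ℝ} (hv0 : 0 < pv) (hv1 : pv ≤ 1) (he0 : 0 < pe) (he1 : pe ≤ 1)

include hv0 hv1 he0 he1

/-- expectation of the tilt of one direction -/
lemma integral_tilt (z : Finset (Fin n)) (i : Fin n) (t : ℝ) :
    ∫ ω, (if ω (Sum.inl (z ∆ {i})) = true ∧ ω (Sum.inr s(z, z ∆ {i})) = true then t else 1)
      ∂(law (par pv pe)) = 1 - pv * pe + pv * pe * t := by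
  classical
  have H0 := par_nonneg (n := n) hv0 hv1 he0 he1
  have H1 := par_le_one (n := n) hv0 hv1 he0 he1
  have := law_prob H0 H1
  have hint : ∀ f : (Co n → Bool) → ℝ, Integrable f (law (par pv pe)) := integrable_all H0 H1
  have h1 : ∀ ω : Co n → Bool, (if ω (Sum.inl (z ∆ {i})) = true ∧ ω (Sum.inr s(z, z ∆ {i})) = true then t else 1)
      = 1 - (1 - t) * ((if ω (Sum.inl (z ∆ {i})) then (1:ℝ) else 0) * (if ω (Sum.inr s(z, z ∆ {i})) then (1:ℝ) else 0)) := by
    intro ω
    by_cases h1 : ω (Sum.inl (z ∆ {i})) = true <;> by_cases h2 : ω (Sum.inr s(z, z ∆ {i})) = true <;>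
      simp [h1, h2]
  simp_rw [h1]
  rw [integral_sub (hint _) (hint _), integral_const_mul,
    indep2 H0 H1 (S := {Sum.inl (z ∆ {i})}) (T := {Sum.inr s(z, z ∆ {i})}),
    integral_coord H0 H1 (Sum.inl (z ∆ {i})) (fun b => if b then (1:ℝ) else 0),
    integral_coord H0 H1 (Sum.inr s(z, z ∆ {i})) (fun b => if b then (1:ℝ) else 0)]
  · have e1 : ∫ ω : Co n → Bool, (1:ℝ) ∂(law (par pv pe)) = 1 := by simp
    rw [e1]
    simp [par]
    ring
  · simp
  · intro ω ω' h
    simp only
    rw [h _ rfl]
  · intro ω ω' h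
    simp only
    rw [h _ rfl]

/-- a set of vertices has few open directions everywhere only with small probability -/
theorem poor_bound (Z : Finset (Finset (Fin n))) (T : ℕ) (t : ℝ) (ht0 : 0 < t) (ht1 : t ≤ 1) :
    (law (par pv pe)).real {ω | ∀ z ∈ Z, (opn ω z).card ≤ T} ≤
      ((t ^ T)⁻¹ * (1 - pv * pe + pv * pe * t) ^ (n - 3 * Z.card)) ^ Z.card := by
  classical
  have H0 := par_nonneg (n := n) hv0 hv1 he0 he1
  have H1 := par_le_one (n := n) hv0 hv1 he0 he1
  have := law_prob H0 H1
  have hint : ∀ f : (Co n → Bool) → ℝ, Integrable f (law (par pv pe)) := integrable_all H0 H1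
  have hp : pv * pe ≤ 1 := by nlinarith
  have hp0 : 0 < pv * pe := by positivity
  have hq0 : 0 ≤ 1 - pv * pe + pv * pe * t := by nlinarith
  have hq1 : 1 - pv * pe + pv * pe * t ≤ 1 := by nlinarith
  rw [prob_eq_integral H0 H1 (fun ω => ∀ z ∈ Z, (opn ω z).card ≤ T)]
  set f : (Σ _ : Finset (Fin n), Fin n) → (Co n → Bool) → ℝ := fun k ω =>
    if ω (Sum.inl (k.1 ∆ {k.2})) = true ∧ ω (Sum.inr s(k.1, k.1 ∆ {k.2})) = true then t else 1 with hf
  set P : Finset (Σ _ : Finset (Fin n), Fin n) := Z.sigma (fun z => cln Z z) with hP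
  have hf0 : ∀ k ω, 0 < f k ω := by
    intro k ω; rw [hf]; simp only; split_ifs <;> linarith
  have hptw : ∀ ω : Co n → Bool, (if ∀ z ∈ Z, (opn ω z).card ≤ T then (1:ℝ) else 0) ≤
      ((t ^ T)⁻¹) ^ Z.card * ∏ k ∈ P, f k ω := by
    intro ω
    by_cases h : ∀ z ∈ Z, (opn ω z).card ≤ T
    · rw [if_pos h, hP, Finset.prod_sigma, ← Finset.prod_const, ← Finset.prod_mul_distrib]
      rw [← Finset.prod_const_one (s := Z)]
      refine Finset.prod_le_prod (fun _ _ => zero_le_one) fun z hz => ?_
      have h1 : t ^ T ≤ ∏ i ∈ cln Z z, f ⟨z, i⟩ ω := by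
        have h2 : ∏ i ∈ cln Z z, f ⟨z, i⟩ ω = t ^ ((cln Z z).filter (fun i => i ∈ opn ω z)).card := by
          rw [← Finset.prod_const, Finset.prod_filter]
          refine Finset.prod_congr rfl fun i _ => ?_
          rw [hf]
          simp only [mem_opn]
        rw [h2]
        refine pow_le_pow_of_le_one ht0.le ht1 ?_
        refine le_trans (Finset.card_le_card ?_) (h z hz)
        intro i hi
        exact (Finset.mem_filter.1 hi).2
      rw [inv_mul_eq_div, one_le_div (by positivity)]
      exact h1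
    · rw [if_neg h]
      exact mul_nonneg (by positivity) (Finset.prod_nonneg fun k _ => (hf0 k ω).le)
  have hstep := integral_mono (hint _) (hint _) hptw
  refine hstep.trans ?_
  rw [integral_const_mul, indepFam H0 H1 P (fun k => {Sum.inl (k.1 ∆ {k.2}), Sum.inr s(k.1, k.1 ∆ {k.2})})]
  · have h1 : ∀ k ∈ P, ∫ ω, f k ω ∂(law (par pv pe)) = 1 - pv * pe + pv * pe * t := fun k _ =>
      integral_tilt hv0 hv1 he0 he1 k.1 k.2 t
    rw [Finset.prod_congr rfl h1, Finset.prod_const, mul_pow, ← pow_mul]
    refine mul_le_mul_of_nonneg_left ?_ (by positivity)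
    refine pow_le_pow_of_le_one hq0 hq1 ?_
    rw [hP, Finset.card_sigma]
    have h2 : ∀ z ∈ Z, n - 3 * Z.card ≤ (cln Z z).card := by
      intro z hz
      have := card_cln_ge Z z hz
      omega
    calc (n - 3 * Z.card) * Z.card = ∑ z ∈ Z, (n - 3 * Z.card) := by
          rw [Finset.sum_const, smul_eq_mul, mul_comm]
      _ ≤ ∑ z ∈ Z, (cln Z z).card := Finset.sum_le_sum h2
  · rintro ⟨z, i⟩ hk ⟨z', i'⟩ hl hkl
    rw [hP, Finset.mem_sigma] at hk hl
    simp only at hk hl
    have hk2 := (Finset.mem_filter.1 hk.2).2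
    have hl2 := (Finset.mem_filter.1 hl.2).2
    have hadj : ∀ w : Finset (Fin n), ∀ j : Fin n, ((w ∆ {j}) ∆ w).card = 1 := by
      intro w j
      rw [symmDiff_comm, symmDiff_cancel]; simp
    rw [Set.disjoint_left]
    rintro c (rfl | rfl)
    · rintro (h | h)
      · simp only [Sum.inl.injEq] at h
        by_cases hz : z' = z
        · subst hz
          exact hkl (by rw [singleton_symm_inj h])
        · exact hk2.2 z' hl.1 hz (by rw [h]; exact hadj z' i')
      · simp at h
    · rintro (h | h)
      · simp at h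
      · simp only [Set.mem_singleton_iff, Sum.inr.injEq] at h
        rw [Sym2.eq_iff] at h
        rcases h with ⟨h1, h2⟩ | ⟨h1, h2⟩
        · subst h1
          exact hkl (by rw [singleton_symm_inj h2])
        · apply hk2.1
          rw [h2]; exact hl.1
  · intro k _ ω ω' h
    rw [hf]
    simp only
    rw [h _ (Set.mem_insert _ _), h _ (Set.mem_insert_of_mem _ rfl)]

end

end Pool.Agent.LibPerc
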