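import Pool.Agent.LibPerc.Upper

set_option autoImplicit false
set_option linter.unusedSectionVars false
set_option linter.unusedVariables false
open MeasureTheory ProbabilityTheory Filter Topology
open scoped symmDiff

namespace Pool.Agent.LibPerc

variable {n L : ℕ}

section

variable {pv pe : ℝ} (hv0 : 0 < pv) (hv1 : pv ≤ 1) (he0 : 0 < pe) (he1 : pe ≤ 1)

include hv0 hv1 he0 he1

lemma prob_not_goodG {c : ℝ} (hc0 : 0 < c) (hc1 : c ≤ 1)
    (hc : ∀ (a W : Finset (Fin n)), c ≤ (law (par pv pe)).real {ω : Co n → Bool | Conn pv pe a W ω})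
    (L : ℕ) :
    (law (par pv pe)).real {ω : Co n → Bool | ¬ GoodG pv pe L ω} ≤
      (2 ^ n * 2 ^ n * (n ^ L) ^ 4 : ℝ) * (1 - pe * (pv * (c * (c * pe)))) ^ (L * L) := by
  classical
  have H0 := par_nonneg (n := n) hv0 hv1 he0 he1
  have H1 := par_le_one (n := n) hv0 hv1 he0 he1
  have := law_prob H0 H1
  set K : Finset ((Finset (Fin n) × Finset (Fin n)) × ((Fin L → Fin n) × (Fin L → Fin n)) ×
      ((Fin L → Fin n) × (Fin L → Fin n))) :=
    Finset.univ.filter (fun κ => Dirs κ.1.2 κ.2.1.1 κ.2.1.2 κ.2.2.1 κ.2.2.2) with hK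
  have hsub : {ω : Co n → Bool | ¬ GoodG pv pe L ω} ⊆
      {ω | ∃ κ ∈ K, ∀ k, ¬ Succ pv pe κ.1.1 κ.1.2 κ.2.1.1 κ.2.1.2 κ.2.2.1 κ.2.2.2 k ω} := by
    intro ω hω
    simp only [Set.mem_ofPred_eq, GoodG] at hω ⊢
    push Not at hω
    obtain ⟨x, D, s, t, u, v, h, h'⟩ := hω
    exact ⟨⟨⟨x, D⟩, ⟨s, t⟩, ⟨u, v⟩⟩, Finset.mem_filter.2 ⟨Finset.mem_univ _, h⟩, h'⟩
  have hq : 0 ≤ 1 - pe * (pv * (c * (c * pe))) := by
    have h1 : c * pe ≤ 1 := by nlinarith
    have h2 : c * (c * pe) ≤ 1 := by nlinarith [mul_pos hc0 he0]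
    have h3 : pv * (c * (c * pe)) ≤ 1 := by
      have : 0 < c * (c * pe) := by positivity
      nlinarith
    have h4 : 0 < pv * (c * (c * pe)) := by positivity
    nlinarith
  calc (law (par pv pe)).real {ω : Co n → Bool | ¬ GoodG pv pe L ω}
      ≤ (law (par pv pe)).real {ω | ∃ κ ∈ K, ∀ k, ¬ Succ pv pe κ.1.1 κ.1.2 κ.2.1.1 κ.2.1.2 κ.2.2.1 κ.2.2.2 k ω} :=
        measureReal_mono hsub
    _ ≤ ∑ κ ∈ K, (law (par pv pe)).real {ω | ∀ k, ¬ Succ pv pe κ.1.1 κ.1.2 κ.2.1.1 κ.2.1.2 κ.2.2.1 κ.2.2.2 k ω} :=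
        prob_exists_le H0 H1 K _
    _ ≤ ∑ κ ∈ K, (1 - pe * (pv * (c * (c * pe)))) ^ (L * L) := by
        refine Finset.sum_le_sum fun κ hκ => ?_
        exact Dirs.prob_fail hv0 hv1 he0 he1 hc0 hc1 hc (Finset.mem_filter.1 hκ).2
    _ = (K.card : ℝ) * (1 - pe * (pv * (c * (c * pe)))) ^ (L * L) := by
        rw [Finset.sum_const, nsmul_eq_mul]
    _ ≤ _ := by
        refine mul_le_mul_of_nonneg_right ?_ (pow_nonneg hq _)
        have h1 : K.card ≤ Fintype.card ((Finset (Fin n) × Finset (Fin n)) × ((Fin L → Fin n) × (Fin L → Fin n)) ×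
            ((Fin L → Fin n) × (Fin L → Fin n))) := Finset.card_le_univ _
        have h2 : Fintype.card ((Finset (Fin n) × Finset (Fin n)) × ((Fin L → Fin n) × (Fin L → Fin n)) ×
            ((Fin L → Fin n) × (Fin L → Fin n))) = 2 ^ n * 2 ^ n * (n ^ L) ^ 4 := by
          simp only [Fintype.card_prod, Fintype.card_finset, Fintype.card_fin, Fintype.card_fun]
          ring
        rw [h2] at h1
        exact_mod_cast h1

theorem tendsto_goodG (M : ℕ) (hM : 1 ≤ M) :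
    Tendsto (fun n : ℕ => (law (par pv pe)).real {ω : Co n → Bool | ¬ GoodG pv pe (n / M) ω})
      atTop (𝓝 0) := by
  classical
  obtain ⟨c, hc0, hc1, hc⟩ := exists_conn_bound hv0 hv1 he0 he1
  set γ := 1 - pe * (pv * (c * (c * pe))) with hγ
  have hγ0 : 0 ≤ γ := by
    have h1 : c * pe ≤ 1 := by nlinarith
    have h2 : c * (c * pe) ≤ 1 := by nlinarith [mul_pos hc0 he0]
    have h3 : pv * (c * (c * pe)) ≤ 1 := by
      have : 0 < c * (c * pe) := by positivity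
      nlinarith
    have h4 : 0 < pv * (c * (c * pe)) := by positivity
    nlinarith
  have hγ1 : γ < 1 := by
    have : 0 < pe * (pv * (c * (c * pe))) := by positivity
    linarith
  -- the bracket
  have hbr : Tendsto (fun L : ℕ => ((4:ℝ) ^ (2 * M) * (2 * M) ^ 4) * ((L:ℝ) ^ 4 * γ ^ L)) atTop (𝓝 0) := by
    have h1 := tendsto_pow_const_mul_const_pow_of_abs_lt_one 4 (r := γ) (by rw [abs_of_nonneg hγ0]; exact hγ1)
    have h2 := h1.const_mul ((4:ℝ) ^ (2 * M) * (2 * M) ^ 4)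
    rwa [mul_zero] at h2
  have hdiv : Tendsto (fun n : ℕ => n / M) atTop atTop :=
    Nat.tendsto_div_const_atTop (by omega)
  have hbr' := hbr.comp hdiv
  refine tendsto_of_tendsto_of_tendsto_of_le_of_le' tendsto_const_nhds hbr'
    (Eventually.of_forall fun n => measureReal_nonneg) ?_
  have hev : ∀ᶠ n : ℕ in atTop, ((4:ℝ) ^ (2 * M) * (2 * M) ^ 4) * (((n / M : ℕ):ℝ) ^ 4 * γ ^ (n / M)) ≤ 1 := by
    have := (hbr'.eventually (gt_mem_nhds (show (0:ℝ) < 1 by norm_num)))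
    exact this.mono fun n hn => hn.le
  filter_upwards [hev, eventually_ge_atTop M] with n hn hnM
  set L := n / M with hL
  have hL1 : 1 ≤ L := Nat.div_pos hnM (by omega)
  have hnL : n ≤ 2 * M * L := by
    have h1 := Nat.div_add_mod n M
    have h2 := Nat.mod_lt n (show 0 < M by omega)
    have h3 : M ≤ M * L := Nat.le_mul_of_pos_right _ hL1
    rw [← hL] at h1
    nlinarith
  have hb := prob_not_goodG hv0 hv1 he0 he1 hc0 hc1 (hc n) L
  rw [← hγ] at hb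
  set B : ℝ := ((4:ℝ) ^ (2 * M) * (2 * M) ^ 4) * ((L:ℝ) ^ 4 * γ ^ L) with hB
  have hB0 : 0 ≤ B := by positivity
  refine hb.trans ?_
  have h1 : (2 ^ n * 2 ^ n * (n ^ L) ^ 4 : ℝ) * γ ^ (L * L) ≤ B ^ L := by
    have e1 : (2:ℝ) ^ n * 2 ^ n = 4 ^ n := by rw [← mul_pow]; norm_num
    have e2 : (4:ℝ) ^ n ≤ (4 ^ (2 * M)) ^ L := by
      rw [← pow_mul]; exact pow_le_pow_right₀ (by norm_num) hnL
    have e3 : ((n:ℝ) ^ L) ^ 4 ≤ (((2 * M) ^ 4 * (L:ℝ) ^ 4)) ^ L := by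
      rw [← mul_pow, ← pow_mul, ← pow_mul, mul_comm L 4]
      refine pow_le_pow_left₀ (by positivity) ?_ _
      exact_mod_cast hnL
    have e4 : γ ^ (L * L) = (γ ^ L) ^ L := by rw [pow_mul]
    rw [e1, e4, hB]
    calc (4:ℝ) ^ n * ((n:ℝ) ^ L) ^ 4 * (γ ^ L) ^ L
        ≤ (4 ^ (2 * M)) ^ L * (((2 * M) ^ 4 * (L:ℝ) ^ 4)) ^ L * (γ ^ L) ^ L := by
          refine mul_le_mul_of_nonneg_right ?_ (by positivity)
          exact mul_le_mul e2 e3 (by positivity) (by positivity)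
      _ = _ := by rw [← mul_pow, ← mul_pow]; ring
  refine h1.trans ?_
  exact pow_le_of_le_one hB0 hn (by omega)

end

end Pool.Agent.LibPerc
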