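import Pool.Agent.LibPerc.ProbG

set_option autoImplicit false
set_option linter.unusedSectionVars false
set_option linter.unusedVariables false
open MeasureTheory ProbabilityTheory Filter Topology
open scoped symmDiff

namespace Pool.Agent.LibPerc

variable {n L : ℕ}

lemma card_small (n d : ℕ) :
    ((Finset.univ : Finset (Finset (Fin n))).filter (fun E => E.card ≤ d)).card ≤ (n + 1) ^ d := by
  classical
  have h1 : (Finset.univ : Finset (Finset (Fin n))).filter (fun E => E.card ≤ d) ⊆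
      (Finset.univ : Finset (Fin d → Option (Fin n))).image
        (fun g => Finset.univ.filter (fun i => ∃ j, g j = some i)) := by
    intro E hE
    rw [Finset.mem_filter] at hE
    rw [Finset.mem_image]
    set e := E.equivFin with he
    refine ⟨fun j => if h : (j : ℕ) < E.card then some (e.symm ⟨j, h⟩).1 else none, Finset.mem_univ _, ?_⟩
    ext i
    rw [Finset.mem_filter]
    constructor
    · rintro ⟨_, j, hj⟩
      simp only at hj
      by_cases h : (j : ℕ) < E.card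
      · rw [dif_pos h] at hj
        simp only [Option.some.injEq] at hj
        rw [← hj]
        exact (e.symm ⟨j, h⟩).2
      · rw [dif_neg h] at hj
        simp at hj
    · intro hi
      refine ⟨Finset.mem_univ _, ⟨(e ⟨i, hi⟩ : ℕ), lt_of_lt_of_le (e ⟨i, hi⟩).2 hE.2⟩, ?_⟩
      simp only
      rw [dif_pos (e ⟨i, hi⟩).2]
      simp
  refine (Finset.card_le_card h1).trans (Finset.card_image_le.trans ?_)
  rw [Finset.card_univ, Fintype.card_fun]
  simp

/-- the ball of radius `m` -/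
def bal (x : Finset (Fin n)) (m : ℕ) : Finset (Finset (Fin n)) :=
  Finset.univ.filter (fun z => (x ∆ z).card ≤ m)

lemma mem_bal {x z : Finset (Fin n)} {m : ℕ} : z ∈ bal x m ↔ (x ∆ z).card ≤ m := by
  unfold bal; simp

lemma card_bal (x : Finset (Fin n)) (m : ℕ) : (bal x m).card ≤ (n + 1) ^ m := by
  refine le_trans ?_ (card_small n m)
  refine Finset.card_le_card_of_injOn (fun z => x ∆ z) ?_ ?_
  · intro z hz
    simp only [Finset.coe_filter, Finset.mem_univ, true_and, Set.mem_ofPred_eq]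
    exact mem_bal.1 hz
  · intro z _ z' _ h
    exact symmDiff_inj h

lemma card_large (n d : ℕ) :
    ((Finset.univ : Finset (Finset (Fin n))).filter (fun E => n ≤ E.card + d)).card ≤ (n + 1) ^ d := by
  refine le_trans ?_ (card_small n d)
  refine Finset.card_le_card_of_injOn (fun z => zᶜ) ?_ ?_
  · intro z hz
    have hz' := (Finset.mem_filter.1 hz).2
    simp only [Finset.coe_filter, Finset.mem_univ, true_and, Set.mem_ofPred_eq]
    rw [Finset.card_compl, Fintype.card_fin]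
    omega
  · intro z _ z' _ h
    exact compl_injective h

section

variable {pv pe : ℝ} (hv0 : 0 < pv) (hv1 : pv ≤ 1) (he0 : 0 < pe) (he1 : pe ≤ 1)

include hv0 hv1 he0 he1

lemma prob_not_goodP (m d L : ℕ) (t : ℝ) (ht0 : 0 < t) (ht1 : t ≤ 1) :
    (law (par pv pe)).real {ω : Co n → Bool | ¬ GoodP m d L ω} ≤
      (2 ^ n * (n + 1) ^ d * (2 * (n + 1) ^ m) ^ (m + 1) : ℝ) *
        ((t ^ (3 * L))⁻¹ * (1 - pv * pe + pv * pe * t) ^ (n - 3 * (m + 1))) ^ (m + 1) := by
  classical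
  have H0 := par_nonneg (n := n) hv0 hv1 he0 he1
  have H1 := par_le_one (n := n) hv0 hv1 he0 he1
  have := law_prob H0 H1
  have hp : pv * pe ≤ 1 := by nlinarith
  have hp0 : 0 < pv * pe := by positivity
  have hq0 : 0 ≤ 1 - pv * pe + pv * pe * t := by nlinarith
  set S : Finset (Finset (Fin n)) := Finset.univ.filter (fun E => n ≤ E.card + d) with hS
  set K : Finset (Σ _ : Finset (Fin n) × Finset (Fin n), Finset (Finset (Fin n))) :=
    ((Finset.univ : Finset (Finset (Fin n))) ×ˢ S).sigma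
      (fun κ => Finset.powersetCard (m + 1) (bal κ.1 m ∪ bal (κ.1 ∆ κ.2) m)) with hK
  have hsub : {ω : Co n → Bool | ¬ GoodP m d L ω} ⊆
      {ω | ∃ κ ∈ K, ∀ z ∈ κ.2, (opn ω z).card ≤ 3 * L} := by
    intro ω hω
    simp only [Set.mem_ofPred_eq, GoodP] at hω ⊢
    push Not at hω
    obtain ⟨x, D, hD, Z, hZc, hZm, hZ⟩ := hω
    refine ⟨⟨⟨x, D⟩, Z⟩, ?_, fun z hz => (hZ z hz).le⟩
    rw [hK, Finset.mem_sigma, Finset.mem_product, Finset.mem_powersetCard]
    refine ⟨⟨Finset.mem_univ _, Finset.mem_filter.2 ⟨Finset.mem_univ _, hD⟩⟩, ?_, hZc⟩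
    intro z hz
    rw [Finset.mem_union, mem_bal, mem_bal]
    exact hZm z hz
  set b : ℝ := ((t ^ (3 * L))⁻¹ * (1 - pv * pe + pv * pe * t) ^ (n - 3 * (m + 1))) ^ (m + 1) with hb
  have hb0 : 0 ≤ b := by positivity
  calc (law (par pv pe)).real {ω : Co n → Bool | ¬ GoodP m d L ω}
      ≤ (law (par pv pe)).real {ω | ∃ κ ∈ K, ∀ z ∈ κ.2, (opn ω z).card ≤ 3 * L} := measureReal_mono hsub
    _ ≤ ∑ κ ∈ K, (law (par pv pe)).real {ω | ∀ z ∈ κ.2, (opn ω z).card ≤ 3 * L} :=
        prob_exists_le H0 H1 K _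
    _ ≤ ∑ κ ∈ K, b := by
        refine Finset.sum_le_sum fun κ hκ => ?_
        have h1 := poor_bound hv0 hv1 he0 he1 κ.2 (3 * L) t ht0 ht1
        rw [hK, Finset.mem_sigma, Finset.mem_powersetCard] at hκ
        rw [hκ.2.2] at h1
        exact h1
    _ = (K.card : ℝ) * b := by rw [Finset.sum_const, nsmul_eq_mul]
    _ ≤ _ := by
        refine mul_le_mul_of_nonneg_right ?_ hb0
        have h1 : K.card ≤ 2 ^ n * (n + 1) ^ d * (2 * (n + 1) ^ m) ^ (m + 1) := by
          rw [hK, Finset.card_sigma]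
          calc ∑ κ ∈ (Finset.univ : Finset (Finset (Fin n))) ×ˢ S,
                (Finset.powersetCard (m + 1) (bal κ.1 m ∪ bal (κ.1 ∆ κ.2) m)).card
              ≤ ∑ κ ∈ (Finset.univ : Finset (Finset (Fin n))) ×ˢ S, (2 * (n + 1) ^ m) ^ (m + 1) := by
                refine Finset.sum_le_sum fun κ _ => ?_
                rw [Finset.card_powersetCard]
                refine (Nat.choose_le_pow _ _).trans ?_
                refine Nat.pow_le_pow_left ?_ _
                refine (Finset.card_union_le _ _).trans ?_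
                have h1 := card_bal κ.1 m
                have h2 := card_bal (κ.1 ∆ κ.2) m
                omega
            _ = 2 ^ n * S.card * (2 * (n + 1) ^ m) ^ (m + 1) := by
                rw [Finset.sum_const, Finset.card_product, smul_eq_mul, Finset.card_univ,
                  Fintype.card_finset, Fintype.card_fin]
            _ ≤ _ := by
                refine Nat.mul_le_mul_right _ (Nat.mul_le_mul_left _ ?_)
                exact card_large n d
        have h2 : (K.card : ℝ) ≤ ((2 ^ n * (n + 1) ^ d * (2 * (n + 1) ^ m) ^ (m + 1) : ℕ) : ℝ) := by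
          exact_mod_cast h1
        refine h2.trans (le_of_eq ?_)
        push_cast
        ring

/-- choice of the tilt -/
lemma exists_tilt (k : ℕ) (hk : 1 ≤ k) (θ : ℝ) (hq : (1 - pv * pe) ^ k < θ) :
    ∃ t : ℝ, 0 < t ∧ t ≤ 1 ∧ (1 - pv * pe + pv * pe * t) ^ k < θ := by
  have hc : Tendsto (fun t : ℝ => (1 - pv * pe + pv * pe * t) ^ k) (𝓝 0) (𝓝 ((1 - pv * pe) ^ k)) := by
    have : Continuous (fun t : ℝ => (1 - pv * pe + pv * pe * t) ^ k) := by fun_prop
    have h := this.tendsto 0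
    simpa using h
  have hev := hc.eventually (gt_mem_nhds hq)
  have hev2 : ∀ᶠ t : ℝ in 𝓝[>] 0, (1 - pv * pe + pv * pe * t) ^ k < θ := hev.filter_mono nhdsWithin_le_nhds
  have hev3 : ∀ᶠ t : ℝ in 𝓝[>] 0, t ∈ Set.Ioo (0:ℝ) 1 := Ioo_mem_nhdsGT (by norm_num)
  obtain ⟨t, h1, h2⟩ := (hev2.and hev3).exists
  exact ⟨t, h2.1, h2.2.le, h1⟩

theorem tendsto_goodP (m d : ℕ) (hq : (1 - pv * pe) ^ (m + 1) < 1 / 2) :
    ∃ M0 : ℕ, ∀ M ≥ M0, Tendsto (fun n : ℕ => (law (par pv pe)).real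
      {ω : Co n → Bool | ¬ GoodP m d (n / M) ω}) atTop (𝓝 0) := by
  classical
  have hp : pv * pe ≤ 1 := by nlinarith
  have hp0 : 0 < pv * pe := by positivity
  obtain ⟨t, ht0, ht1, ht⟩ := exists_tilt hv0 hv1 he0 he1 (m + 1) (by omega) (1 / 2) hq
  have hq0 : 0 < 1 - pv * pe + pv * pe * t := by
    have : 0 < pv * pe * t := by positivity
    linarith
  set X : ℝ := (1 - pv * pe + pv * pe * t) ^ (m + 1) with hX
  have hX0 : 0 < X := by positivity
  set a : ℝ := 2 * X with ha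
  have ha0 : 0 < a := by positivity
  have ha1 : a < 1 := by linarith
  set b : ℝ := Real.sqrt a with hb
  have hb0 : 0 < b := Real.sqrt_pos.2 ha0
  have hb1 : b < 1 := by
    rw [hb, Real.sqrt_lt' (by norm_num)]
    simpa using ha1
  have hbb : b * b = a := Real.mul_self_sqrt ha0.le
  -- choice of M0
  obtain ⟨M0, hM0⟩ := pow_unbounded_of_one_lt ((t ^ (3 * (m + 1)))⁻¹) ((one_lt_inv₀ hb0).2 hb1)
  refine ⟨M0 + 1, fun M hM => ?_⟩
  have hMt : (t ^ (3 * (m + 1)))⁻¹ ≤ (b⁻¹) ^ M := by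
    refine hM0.le.trans ?_
    exact pow_le_pow_right₀ ((one_le_inv₀ hb0).2 hb1.le) (by omega)
  have hlim : Tendsto (fun n : ℕ => (2 ^ (m + 1) * (X ^ (3 * (m + 1)))⁻¹ * b⁻¹) *
      (((n + 1 : ℕ) : ℝ) ^ (d + m * (m + 1)) * b ^ (n + 1))) atTop (𝓝 0) := by
    have h1 := tendsto_pow_const_mul_const_pow_of_abs_lt_one (d + m * (m + 1)) (r := b)
      (by rw [abs_of_pos hb0]; exact hb1)
    have h2 := (h1.comp (tendsto_add_atTop_nat 1)).const_mul (2 ^ (m + 1) * (X ^ (3 * (m + 1)))⁻¹ * b⁻¹)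
    rw [mul_zero] at h2
    exact h2
  refine tendsto_of_tendsto_of_tendsto_of_le_of_le' tendsto_const_nhds hlim
    (Eventually.of_forall fun n => measureReal_nonneg) ?_
  filter_upwards [eventually_ge_atTop (3 * (m + 1))] with n hn
  refine (prob_not_goodP hv0 hv1 he0 he1 m d (n / M) t ht0 ht1).trans ?_
  have e1 : ((t ^ (3 * (n / M)))⁻¹) ^ (m + 1) ≤ (b ^ n)⁻¹ := by
    calc ((t ^ (3 * (n / M)))⁻¹) ^ (m + 1) = ((t ^ (3 * (m + 1)))⁻¹) ^ (n / M) := by
          rw [inv_pow, inv_pow, ← pow_mul, ← pow_mul]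
          congr 2
          ring
      _ ≤ ((b⁻¹) ^ M) ^ (n / M) := pow_le_pow_left₀ (by positivity) hMt _
      _ = (b⁻¹) ^ (M * (n / M)) := by rw [pow_mul]
      _ ≤ (b⁻¹) ^ n := pow_le_pow_right₀ ((one_le_inv₀ hb0).2 hb1.le) (Nat.mul_div_le n M)
      _ = (b ^ n)⁻¹ := by rw [inv_pow]
  have e2 : ((1 - pv * pe + pv * pe * t) ^ (n - 3 * (m + 1))) ^ (m + 1) = X ^ n * (X ^ (3 * (m + 1)))⁻¹ := by
    rw [← pow_mul, mul_comm (n - 3 * (m + 1)) (m + 1), pow_mul, ← hX]
    rw [pow_sub₀ X hX0.ne' hn]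
  have e3 : (2:ℝ) ^ n * X ^ n = b ^ n * b ^ n := by
    rw [← mul_pow, ← mul_pow, hbb]
  rw [mul_pow (t ^ (3 * (n / M)))⁻¹, e2]
  calc (2 ^ n * ((n:ℝ) + 1) ^ d * (2 * ((n:ℝ) + 1) ^ m) ^ (m + 1) : ℝ) *
        (((t ^ (3 * (n / M)))⁻¹) ^ (m + 1) * (X ^ n * (X ^ (3 * (m + 1)))⁻¹))
      ≤ (2 ^ n * ((n:ℝ) + 1) ^ d * (2 * ((n:ℝ) + 1) ^ m) ^ (m + 1) : ℝ) *
        ((b ^ n)⁻¹ * (X ^ n * (X ^ (3 * (m + 1)))⁻¹)) := by
        refine mul_le_mul_of_nonneg_left ?_ (by positivity)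
        exact mul_le_mul_of_nonneg_right e1 (by positivity)
    _ = ((b ^ n)⁻¹ * (2 ^ n * X ^ n)) * (2 ^ (m + 1) * (X ^ (3 * (m + 1)))⁻¹ *
        ((n:ℝ) + 1) ^ (d + m * (m + 1))) := by
        rw [mul_pow, ← pow_mul, pow_add]
        ring
    _ = (2 ^ (m + 1) * (X ^ (3 * (m + 1)))⁻¹ * b⁻¹) *
      (((n + 1 : ℕ) : ℝ) ^ (d + m * (m + 1)) * b ^ (n + 1)) := by
        rw [e3]
        have hbn : b ^ n ≠ 0 := by positivity
        have e4 : (b ^ n)⁻¹ * (b ^ n * b ^ n) = b⁻¹ * b ^ (n + 1) := by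
          rw [pow_succ]
          field_simp
        rw [e4]
        push_cast
        ring

end

end Pool.Agent.LibPerc
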