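import Pool.Agent.LibPerc.TrialW

set_option autoImplicit false
set_option linter.unusedSectionVars false
set_option linter.unusedVariables false
open MeasureTheory ProbabilityTheory Filter Topology
open scoped symmDiff

namespace Pool.Agent.LibPerc

variable {n L : ℕ}

/-- the directions in which `x` has an open edge to a present vertex -/
def opn (ω : Co n → Bool) (x : Finset (Fin n)) : Finset (Fin n) :=
  Finset.univ.filter (fun i => ω (Sum.inl (x ∆ {i})) = true ∧ ω (Sum.inr s(x, x ∆ {i})) = true)

lemma mem_opn {ω : Co n → Bool} {x : Finset (Fin n)} {i : Fin n} :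
    i ∈ opn ω x ↔ ω (Sum.inl (x ∆ {i})) = true ∧ ω (Sum.inr s(x, x ∆ {i})) = true := by
  unfold opn; simp

/-- for all admissible families of directions some trial succeeds -/
def GoodG (pv pe : ℝ) (L : ℕ) (ω : Co n → Bool) : Prop :=
  ∀ (x D : Finset (Fin n)) (s t u v : Fin L → Fin n), Dirs D s t u v →
    ∃ k, Succ pv pe x D s t u v k ω

lemma exists_inj_of_card {A : Finset (Fin n)} (h : L ≤ A.card) :
    ∃ f : Fin L → Fin n, Function.Injective f ∧ ∀ i, f i ∈ A := by
  obtain ⟨B, hBA, hB⟩ := Finset.exists_subset_card_eq h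
  refine ⟨fun i => (B.orderEmbOfFin hB i), (B.orderEmbOfFin hB).injective, fun i => ?_⟩
  exact hBA (B.orderEmbOfFin_mem hB i)

lemma card_range_le (f : Fin L → Fin n) : (Finset.univ.image f).card ≤ L := by
  refine Finset.card_image_le.trans ?_
  simp

/-- rich almost antipodal vertices are joined by a geodesic of the cube -/
lemma near_walk {pv pe : ℝ} (hv : 0 < pv) (he : 0 < pe) {ω : Co n → Bool}
    (hG' : GoodG pv pe L ω) {x D : Finset (Fin n)} (h2 : 2 ≤ L) (hn : 5 * L ≤ n)
    (hD : n ≤ D.card + L) (hx : ω (Sum.inl x) = true) (hy : ω (Sum.inl (x ∆ D)) = true)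
    (hrx : 3 * L ≤ (opn ω x).card) (hry : 3 * L ≤ (opn ω (x ∆ D)).card) :
    ∃ p : (hG ω).Walk x (x ∆ D), p.length = D.card := by
  classical
  have hDc : Dᶜ.card ≤ L := by
    rw [Finset.card_compl, Fintype.card_fin]; omega
  have key : ∀ A : Finset (Fin n), 3 * L ≤ A.card → 2 * L ≤ (A ∩ D).card := by
    intro A hA
    have h1 : A.card ≤ (A ∩ D).card + Dᶜ.card := by
      have : A ⊆ (A ∩ D) ∪ Dᶜ := by
        intro a ha
        by_cases h : a ∈ D
        · exact Finset.mem_union_left _ (Finset.mem_inter.2 ⟨ha, h⟩)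
        · exact Finset.mem_union_right _ (Finset.mem_compl.2 h)
      exact (Finset.card_le_card this).trans (Finset.card_union_le _ _)
    omega
  obtain ⟨s, sinj, smem⟩ := exists_inj_of_card (A := opn ω x ∩ D) (L := L) (by have := key _ hrx; omega)
  have c1 : L ≤ ((opn ω (x ∆ D) ∩ D) \ Finset.univ.image s).card := by
    have h1 := Finset.le_card_sdiff (Finset.univ.image s) (opn ω (x ∆ D) ∩ D)
    have h3 := card_range_le s
    have h4 := key _ hry
    omega
  obtain ⟨t, tinj, tmem⟩ := exists_inj_of_card c1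
  have c2 : L ≤ ((D \ Finset.univ.image s) \ Finset.univ.image t).card := by
    have h1 := Finset.le_card_sdiff (Finset.univ.image s) D
    have h1' := Finset.le_card_sdiff (Finset.univ.image t) (D \ Finset.univ.image s)
    have h3 := card_range_le s
    have h4 := card_range_le t
    omega
  obtain ⟨u, uinj, umem⟩ := exists_inj_of_card c2
  have c3 : L ≤ (((D \ Finset.univ.image s) \ Finset.univ.image t) \ Finset.univ.image u).card := by
    have h1 := Finset.le_card_sdiff (Finset.univ.image s) D
    have h1' := Finset.le_card_sdiff (Finset.univ.image t) (D \ Finset.univ.image s)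
    have h1'' := Finset.le_card_sdiff (Finset.univ.image u) ((D \ Finset.univ.image s) \ Finset.univ.image t)
    have h3 := card_range_le s
    have h4 := card_range_le t
    have h5 := card_range_le u
    omega
  obtain ⟨v, vinj, vmem⟩ := exists_inj_of_card c3
  simp only [Finset.mem_sdiff, Finset.mem_inter, Finset.mem_image, Finset.mem_univ, true_and,
    not_exists] at smem tmem umem vmem
  have hdirs : Dirs D s t u v :=
    { two := h2
      sinj := sinj
      tinj := tinj
      uinj := uinj
      vinj := vinj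
      st := fun i j e => (tmem j).2 i e
      su := fun i j e => (umem j).1.2 i e
      sv := fun i j e => (vmem j).1.1.2 i e
      tu := fun i j e => (umem j).2 i e
      tv := fun i j e => (vmem j).1.2 i e
      uv := fun i j e => (vmem j).2 i e
      os := Or.inl fun i => (smem i).2
      ot := Or.inl fun i => (tmem i).1.2
      ou := Or.inl fun i => (umem i).1.1 }
  obtain ⟨k, hk⟩ := hG' x D s t u v hdirs
  have a1 := mem_opn.1 (smem k.1).1
  have a2 := mem_opn.1 (tmem k.1).1.1
  obtain ⟨p, hp⟩ := hdirs.walk hv he k ω hk hx a1.1 a1.2 hy a2.1 a2.2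
  refine ⟨p, ?_⟩
  rw [hp]
  have e1 : (D ∆ {t k.1, v k.2}).card + 2 = D.card := by
    have : D ∆ {t k.1, v k.2} = D \ {t k.1, v k.2} := by
      ext a
      simp only [Finset.mem_symmDiff, Finset.mem_sdiff]
      constructor
      · rintro (h | ⟨h, h'⟩)
        · exact h
        · exfalso
          rcases mem_pair.1 h with rfl | rfl
          · exact h' (tmem _).1.2
          · exact h' (vmem _).1.1.1
      · exact Or.inl
    rw [this, Finset.card_sdiff_of_subset]
    · rw [Finset.card_pair (hdirs.tv _ _)]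
      have : ({t k.1, v k.2} : Finset (Fin n)).card ≤ D.card := Finset.card_le_card (by
        intro a ha
        rcases mem_pair.1 ha with rfl | rfl
        · exact (tmem _).1.2
        · exact (vmem _).1.1.1)
      rw [Finset.card_pair (hdirs.tv _ _)] at this
      omega
    · intro a ha
      rcases mem_pair.1 ha with rfl | rfl
      · exact (tmem _).1.2
      · exact (vmem _).1.1.1
  have e2 : (D ∆ {t k.1, v k.2} ∆ {s k.1, u k.2}).card + 2 = (D ∆ {t k.1, v k.2}).card := by
    have hsub : ({s k.1, u k.2} : Finset (Fin n)) ⊆ D ∆ {t k.1, v k.2} := by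
      intro a ha
      rw [Finset.mem_symmDiff]
      rcases mem_pair.1 ha with rfl | rfl
      · refine Or.inl ⟨(smem _).2, ?_⟩
        rw [mem_pair, not_or]
        exact ⟨hdirs.st _ _, hdirs.sv _ _⟩
      · refine Or.inl ⟨(umem _).1.1, ?_⟩
        rw [mem_pair, not_or]
        exact ⟨fun e => hdirs.tu _ _ e.symm, hdirs.uv _ _⟩
    have : D ∆ {t k.1, v k.2} ∆ {s k.1, u k.2} = (D ∆ {t k.1, v k.2}) \ {s k.1, u k.2} := by
      ext a
      rw [Finset.mem_symmDiff, Finset.mem_sdiff]
      constructor
      · rintro (h | ⟨h, h'⟩)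
        · exact h
        · exact absurd (hsub h) h'
      · exact Or.inl
    rw [this, Finset.card_sdiff_of_subset hsub, Finset.card_pair (hdirs.su _ _)]
    have := Finset.card_le_card hsub
    rw [Finset.card_pair (hdirs.su _ _)] at this
    omega
  omega

lemma one_sided {A D : Finset (Fin n)} (h : 2 * L ≤ A.card) :
    ∃ B ⊆ A, L ≤ B.card ∧ ((∀ a ∈ B, a ∈ D) ∨ ∀ a ∈ B, a ∉ D) := by
  classical
  have h1 : (A.filter (· ∈ D)).card + (A.filter (· ∉ D)).card = A.card :=
    Finset.card_filter_add_card_filter_not _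
  rcases le_or_gt L (A.filter (· ∈ D)).card with h2 | h2
  · exact ⟨_, Finset.filter_subset _ _, h2, Or.inl fun a ha => (Finset.mem_filter.1 ha).2⟩
  · refine ⟨A.filter (· ∉ D), Finset.filter_subset _ _, by omega, Or.inr fun a ha => (Finset.mem_filter.1 ha).2⟩

/-- rich vertices are joined by a short path -/
lemma far_walk {pv pe : ℝ} (hv : 0 < pv) (he : 0 < pe) {ω : Co n → Bool}
    (hG' : GoodG pv pe L ω) {x D : Finset (Fin n)} (h2 : 2 ≤ L) (hn : 5 * L ≤ n)
    (hx : ω (Sum.inl x) = true) (hy : ω (Sum.inl (x ∆ D)) = true)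
    (hrx : 3 * L ≤ (opn ω x).card) (hry : 3 * L ≤ (opn ω (x ∆ D)).card) :
    ∃ p : (hG ω).Walk x (x ∆ D), p.length ≤ D.card + 8 := by
  classical
  obtain ⟨S, hS1, hS2, hS3⟩ := one_sided (A := opn ω x) (D := D) (L := L) (by omega)
  obtain ⟨s, sinj, smem⟩ := exists_inj_of_card hS2
  have c1 : 2 * L ≤ (opn ω (x ∆ D) \ Finset.univ.image s).card := by
    have h1 := Finset.le_card_sdiff (Finset.univ.image s) (opn ω (x ∆ D))
    have h3 := card_range_le s
    omega
  obtain ⟨T, hT1, hT2, hT3⟩ := one_sided (D := D) c1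
  obtain ⟨t, tinj, tmem⟩ := exists_inj_of_card hT2
  have c2 : 2 * L ≤ (((Finset.univ : Finset (Fin n)) \ Finset.univ.image s) \ Finset.univ.image t).card := by
    have h1 := Finset.le_card_sdiff (Finset.univ.image s) (Finset.univ : Finset (Fin n))
    have h1' := Finset.le_card_sdiff (Finset.univ.image t) ((Finset.univ : Finset (Fin n)) \ Finset.univ.image s)
    have h3 := card_range_le s
    have h4 := card_range_le t
    have h5 : (Finset.univ : Finset (Fin n)).card = n := by simp
    omega
  obtain ⟨U, hU1, hU2, hU3⟩ := one_sided (D := D) c2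
  obtain ⟨u, uinj, umem⟩ := exists_inj_of_card hU2
  have c3 : L ≤ ((((Finset.univ : Finset (Fin n)) \ Finset.univ.image s) \ Finset.univ.image t) \ Finset.univ.image u).card := by
    have h1 := Finset.le_card_sdiff (Finset.univ.image u) (((Finset.univ : Finset (Fin n)) \ Finset.univ.image s) \ Finset.univ.image t)
    have h3 := card_range_le u
    omega
  obtain ⟨v, vinj, vmem⟩ := exists_inj_of_card c3
  have smem' : ∀ i, s i ∈ opn ω x := fun i => hS1 (smem i)
  have tmem' : ∀ i, t i ∈ opn ω (x ∆ D) \ Finset.univ.image s := fun i => hT1 (tmem i)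
  have umem' : ∀ i, u i ∈ ((Finset.univ : Finset (Fin n)) \ Finset.univ.image s) \ Finset.univ.image t := fun i => hU1 (umem i)
  simp only [Finset.mem_sdiff, Finset.mem_inter, Finset.mem_image, Finset.mem_univ, true_and,
    not_exists] at tmem' umem' vmem
  have hdirs : Dirs D s t u v :=
    { two := h2
      sinj := sinj
      tinj := tinj
      uinj := uinj
      vinj := vinj
      st := fun i j e => (tmem' j).2 i e
      su := fun i j e => (umem' j).1 i e
      sv := fun i j e => (vmem j).1.1 i e
      tu := fun i j e => (umem' j).2 i e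
      tv := fun i j e => (vmem j).1.2 i e
      uv := fun i j e => (vmem j).2 i e
      os := hS3.imp (fun h i => h _ (smem i)) (fun h i => h _ (smem i))
      ot := hT3.imp (fun h i => h _ (tmem i)) (fun h i => h _ (tmem i))
      ou := hU3.imp (fun h i => h _ (umem i)) (fun h i => h _ (umem i)) }
  obtain ⟨k, hk⟩ := hG' x D s t u v hdirs
  have a1 := mem_opn.1 (smem' k.1)
  have a2 := mem_opn.1 (tmem' k.1).1
  obtain ⟨p, hp⟩ := hdirs.walk hv he k ω hk hx a1.1 a1.2 hy a2.1 a2.2
  refine ⟨p, ?_⟩
  rw [hp]
  have e1 := card_symmDiff_le (D ∆ {t k.1, v k.2}) {s k.1, u k.2}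
  have e2 := card_symmDiff_le D {t k.1, v k.2}
  have e3 : ({s k.1, u k.2} : Finset (Fin n)).card ≤ 2 := Finset.card_le_two
  have e4 : ({t k.1, v k.2} : Finset (Fin n)).card ≤ 2 := Finset.card_le_two
  omega

end Pool.Agent.LibPerc
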