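import Pool.Agent.LibPerc.Basic

set_option autoImplicit false
set_option linter.unusedSectionVars false
open MeasureTheory ProbabilityTheory Filter Topology
open scoped symmDiff

namespace Pool.Agent.LibPerc

variable {n : ℕ}

/-- coordinates: one coin per vertex of the cube, one coin per unordered pair of vertices -/
abbrev Co (n : ℕ) : Type := Finset (Fin n) ⊕ Sym2 (Finset (Fin n))

/-- parameters of the coins -/
def par (pv pe : ℝ) : Co n → ℝ := Sum.elim (fun _ => pv) (fun _ => pe)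

/-- one-step factor -/
noncomputable def stepF (pv pe : ℝ) (a W : Finset (Fin n)) (i : Fin n) (ω : Co n → Bool) : ℝ :=
  (if ω (Sum.inl (a ∆ W)) then pv⁻¹ else 0) *
    (if ω (Sum.inr s(a ∆ (W.erase i), a ∆ W)) then pe⁻¹ else 0)

/-- normalized number of open increasing paths from `a` to `a ∆ W`, all vertices after `a`
being present -/
noncomputable def Mn (pv pe : ℝ) (a : Finset (Fin n)) : ℕ → Finset (Fin n) → (Co n → Bool) → ℝ
  | 0, _, _ => 1
  | (k + 1), W, ω => ((k : ℝ) + 1)⁻¹ * ∑ i ∈ W, stepF pv pe a W i ω * Mn pv pe a k (W.erase i) ω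

/-- coordinates of low level seen from `a` -/
def lev (a : Finset (Fin n)) (k : ℕ) : Set (Co n) :=
  {c | Sum.elim (fun z => (a ∆ z).card ≤ k) (fun e => ∀ z ∈ e, (a ∆ z).card ≤ k) c}

/-- coordinates of the cube spanned at `a` by `U`, without the vertex `a` -/
def cubeC (a U : Finset (Fin n)) : Set (Co n) :=
  {c | (∃ C ⊆ U, C ≠ ∅ ∧ c = Sum.inl (a ∆ C)) ∨
    ∃ C ⊆ U, ∃ C' ⊆ U, C ≠ C' ∧ c = Sum.inr s(a ∆ C, a ∆ C')}

lemma symmDiff_cancel (a C : Finset (Fin n)) : a ∆ (a ∆ C) = C := by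
  rw [symmDiff_symmDiff_cancel_left]

lemma symmDiff_inj {a C D : Finset (Fin n)} (h : a ∆ C = a ∆ D) : C = D := by
  have := congrArg (fun z => a ∆ z) h
  simpa [symmDiff_cancel] using this

lemma cubeC_mono {a U U' : Finset (Fin n)} (h : U ⊆ U') : cubeC a U ⊆ cubeC a U' := by
  rintro c (⟨C, hC, h1, h2⟩ | ⟨C, hC, C', hC', h1, h2⟩)
  · exact Or.inl ⟨C, hC.trans h, h1, h2⟩
  · exact Or.inr ⟨C, hC.trans h, C', hC'.trans h, h1, h2⟩

lemma cubeC_sub_lev (a U : Finset (Fin n)) (k : ℕ) (hk : U.card ≤ k) : cubeC a U ⊆ lev a k := by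
  rintro c (⟨C, hC, h1, rfl⟩ | ⟨C, hC, C', hC', h1, rfl⟩)
  · simp only [lev, Set.mem_ofPred_eq, Sum.elim_inl]
    rw [symmDiff_cancel]
    exact (Finset.card_le_card hC).trans hk
  · simp only [lev, Set.mem_ofPred_eq, Sum.elim_inr]
    intro z hz
    rw [Sym2.mem_iff] at hz
    rcases hz with rfl | rfl
    · rw [symmDiff_cancel]; exact (Finset.card_le_card hC).trans hk
    · rw [symmDiff_cancel]; exact (Finset.card_le_card hC').trans hk

lemma stepF_dep (pv pe : ℝ) (a W : Finset (Fin n)) (i : Fin n) :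
    DependsOn (stepF pv pe a W i) {Sum.inl (a ∆ W), Sum.inr s(a ∆ (W.erase i), a ∆ W)} := by
  intro x y h
  unfold stepF
  rw [h _ (Set.mem_insert _ _), h _ (Set.mem_insert_of_mem _ (Set.mem_singleton _))]

lemma Mn_dep (pv pe : ℝ) (a : Finset (Fin n)) (k : ℕ) (W : Finset (Fin n)) (hW : W.card = k) :
    DependsOn (Mn pv pe a k W) (cubeC a W) := by
  induction k generalizing W with
  | zero => intro x y _; rfl
  | succ k ih =>
    intro x y h
    unfold Mn
    congr 1
    refine Finset.sum_congr rfl fun i hi => ?_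
    have hne : W ≠ ∅ := Finset.ne_empty_of_mem hi
    have he : W.erase i ≠ W := fun h => by
      have := Finset.notMem_erase i W
      rw [h] at this; exact this hi
    congr 1
    · apply stepF_dep
      intro c hc
      rcases hc with rfl | rfl
      · exact h _ (Or.inl ⟨W, subset_rfl, hne, rfl⟩)
      · exact h _ (Or.inr ⟨W.erase i, Finset.erase_subset _ _, W, subset_rfl, he, rfl⟩)
    · apply ih (W.erase i) (by rw [Finset.card_erase_of_mem hi, hW]; rfl)
      intro c hc
      exact h c (cubeC_mono (Finset.erase_subset _ _) hc)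

lemma Mn_nonneg {pv pe : ℝ} (hv : 0 ≤ pv) (he : 0 ≤ pe) (a : Finset (Fin n)) (k : ℕ)
    (W : Finset (Fin n)) (ω : Co n → Bool) : 0 ≤ Mn pv pe a k W ω := by
  induction k generalizing W with
  | zero => exact zero_le_one
  | succ k ih =>
    unfold Mn
    refine mul_nonneg (by positivity) (Finset.sum_nonneg fun i _ => mul_nonneg ?_ (ih _))
    unfold stepF
    split_ifs <;> positivity

section

variable {pv pe : ℝ} (hv0 : 0 < pv) (hv1 : pv ≤ 1) (he0 : 0 < pe) (he1 : pe ≤ 1)

include hv0 hv1 he0 he1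

lemma par_nonneg : ∀ c : Co n, 0 ≤ par pv pe c := by
  rintro (z | e)
  · exact hv0.le
  · exact he0.le

lemma par_le_one : ∀ c : Co n, par pv pe c ≤ 1 := by
  rintro (z | e)
  · exact hv1
  · exact he1

lemma peel (a W : Finset (Fin n)) (i : Fin n) (T : Set (Co n)) (Z : (Co n → Bool) → ℝ)
    (hZ : DependsOn Z T) (h1 : Sum.inl (a ∆ W) ∉ T)
    (h2 : Sum.inr s(a ∆ (W.erase i), a ∆ W) ∉ T) :
    ∫ ω, stepF pv pe a W i ω * Z ω ∂(law (par pv pe)) = ∫ ω, Z ω ∂(law (par pv pe)) := by
  have H0 := par_nonneg (n := n) hv0 hv1 he0 he1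
  have H1 := par_le_one (n := n) hv0 hv1 he0 he1
  rw [indep2 H0 H1 (S := {Sum.inl (a ∆ W), Sum.inr s(a ∆ (W.erase i), a ∆ W)}) (T := T) ?_ _ _
    (stepF_dep pv pe a W i) hZ]
  · have : ∫ ω, stepF pv pe a W i ω ∂(law (par pv pe)) = 1 := by
      unfold stepF
      rw [indep2 H0 H1 (S := {Sum.inl (a ∆ W)}) (T := {Sum.inr s(a ∆ (W.erase i), a ∆ W)})]
      · rw [integral_coord H0 H1 (Sum.inl (a ∆ W)) (fun b => if b then pv⁻¹ else 0),
          integral_coord H0 H1 (Sum.inr s(a ∆ (W.erase i), a ∆ W)) (fun b => if b then pe⁻¹ else 0)]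
        simp [par, hv0.ne', he0.ne']
      · simp
      · intro x y h
        simp only
        rw [h _ (Set.mem_singleton _)]
      · intro x y h
        simp only
        rw [h _ (Set.mem_singleton _)]
    rw [this, one_mul]
  · rw [Set.disjoint_left]
    rintro c (rfl | rfl)
    · exact h1
    · exact h2

end

end Pool.Agent.LibPerc
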