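import Pool.Agent.LibPerc.Second
import Pool.Agent.LibPerc.Beta

set_option autoImplicit false
set_option linter.unusedSectionVars false
open MeasureTheory ProbabilityTheory Filter Topology
open scoped symmDiff

namespace Pool.Agent.LibPerc

variable {n : ℕ}

/-- the dominating kernel -/
noncomputable def Psi (r : ℝ) (k : ℕ) (W W' : Finset (Fin n)) : ℝ :=
  ∑ C ∈ (W ∩ W').powerset, beta r C.card / ((k.choose C.card : ℝ)) ^ 2

lemma psi_avg (r : ℝ) (k : ℕ) (W W' : Finset (Fin n)) (hW : W.card = k + 1) (hW' : W'.card = k + 1) :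
    ((k:ℝ) + 1)⁻¹ * ((k:ℝ) + 1)⁻¹ * ∑ i ∈ W, ∑ j ∈ W', Psi r k (W.erase i) (W'.erase j) =
      ∑ C ∈ (W ∩ W').powerset, (if C.card ≤ k then beta r C.card / (((k+1).choose C.card : ℝ)) ^ 2 else 0) := by
  classical
  have h1 : ∀ i ∈ W, ∀ j ∈ W', Psi r k (W.erase i) (W'.erase j) =
      ∑ C ∈ (W ∩ W').powerset, (if i ∉ C ∧ j ∉ C then beta r C.card / ((k.choose C.card : ℝ)) ^ 2 else 0) := by
    intro i hi j hj
    unfold Psi
    rw [← Finset.sum_filter]
    refine Finset.sum_congr ?_ (fun _ _ => rfl)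
    ext C
    simp only [Finset.mem_powerset, Finset.mem_filter, Finset.subset_inter_iff]
    constructor
    · rintro ⟨ha, hb⟩
      refine ⟨⟨ha.trans (Finset.erase_subset _ _), hb.trans (Finset.erase_subset _ _)⟩, ?_, ?_⟩
      · intro h; exact Finset.notMem_erase i W (ha h)
      · intro h; exact Finset.notMem_erase j W' (hb h)
    · rintro ⟨⟨ha, hb⟩, hc, hd⟩
      exact ⟨Finset.subset_erase.2 ⟨ha, hc⟩, Finset.subset_erase.2 ⟨hb, hd⟩⟩
  rw [Finset.sum_congr rfl (fun i hi => Finset.sum_congr rfl (fun j hj => h1 i hi j hj))]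
  have h2 : ∑ i ∈ W, ∑ j ∈ W', ∑ C ∈ (W ∩ W').powerset,
      (if i ∉ C ∧ j ∉ C then beta r C.card / ((k.choose C.card : ℝ)) ^ 2 else 0) =
      ∑ C ∈ (W ∩ W').powerset, ∑ i ∈ W, ∑ j ∈ W',
      (if i ∉ C ∧ j ∉ C then beta r C.card / ((k.choose C.card : ℝ)) ^ 2 else 0) := by
    rw [Finset.sum_comm' (s := W) (t := fun _ => W') (t' := W') (s' := fun _ => W) (by tauto)]
    rw [Finset.sum_congr rfl (fun j _ => Finset.sum_comm)]
    rw [Finset.sum_comm]
    refine Finset.sum_congr rfl fun C _ => ?_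
    rw [Finset.sum_comm]
  rw [h2, Finset.mul_sum]
  refine Finset.sum_congr rfl fun C hC => ?_
  rw [Finset.mem_powerset, Finset.subset_inter_iff] at hC
  have h3 : ∑ i ∈ W, ∑ j ∈ W', (if i ∉ C ∧ j ∉ C then beta r C.card / ((k.choose C.card : ℝ)) ^ 2 else 0) =
      (((k + 1 - C.card : ℕ) : ℝ)) ^ 2 * (beta r C.card / ((k.choose C.card : ℝ)) ^ 2) := by
    have h4 : ∀ i ∈ W, ∑ j ∈ W', (if i ∉ C ∧ j ∉ C then beta r C.card / ((k.choose C.card : ℝ)) ^ 2 else 0) =
        if i ∉ C then ((k + 1 - C.card : ℕ) : ℝ) * (beta r C.card / ((k.choose C.card : ℝ)) ^ 2) else 0 := by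
      intro i _
      by_cases hiC : i ∈ C
      · simp [hiC]
      · simp only [hiC, not_false_iff, true_and, if_true]
        rw [← Finset.sum_filter, Finset.sum_const, nsmul_eq_mul]
        congr 2
        rw [← Finset.sdiff_eq_filter, Finset.card_sdiff_of_subset hC.2, hW']
    rw [Finset.sum_congr rfl h4, ← Finset.sum_filter, Finset.sum_const, nsmul_eq_mul]
    rw [← Finset.sdiff_eq_filter, Finset.card_sdiff_of_subset hC.1, hW]
    ring
  rw [h3]
  have hle : C.card ≤ k + 1 := hW ▸ Finset.card_le_card hC.1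
  by_cases h : C.card ≤ k
  · rw [if_pos h]
    have h5 : ((k + 1 - C.card : ℕ) : ℝ) * ((k + 1).choose C.card : ℝ) = ((k:ℝ) + 1) * (k.choose C.card : ℝ) := by
      have h6 := Nat.choose_mul_succ_eq k C.card
      have h7 : (k.choose C.card) * (k + 1) = (k + 1).choose C.card * (k + 1 - C.card) := h6
      have h8 : ((k.choose C.card : ℕ) : ℝ) * ((k:ℝ) + 1) = ((k + 1).choose C.card : ℝ) * ((k + 1 - C.card : ℕ) : ℝ) := by
        exact_mod_cast h7
      linarith
    have hp1 : (0:ℝ) < ((k + 1).choose C.card : ℝ) := by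
      exact_mod_cast Nat.choose_pos (by omega)
    have hp2 : (0:ℝ) < (k.choose C.card : ℝ) := by
      exact_mod_cast Nat.choose_pos h
    have hk : (0:ℝ) < (k:ℝ) + 1 := by positivity
    have h9 : ((k + 1 - C.card : ℕ) : ℝ) = ((k:ℝ) + 1) * (k.choose C.card : ℝ) / ((k + 1).choose C.card : ℝ) := by
      rw [eq_div_iff hp1.ne']; exact h5
    rw [h9]
    field_simp
  · rw [if_neg h]
    have : C.card = k + 1 := by omega
    rw [this]
    simp

/-- at equal sets the kernel absorbs the factor `r` -/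
lemma psi_diag {r : ℝ} (k : ℕ) (W : Finset (Fin n)) (hW : W.card = k + 1) :
    r * ∑ C ∈ (W ∩ W).powerset, (if C.card ≤ k then beta r C.card / (((k+1).choose C.card : ℝ)) ^ 2 else 0)
      = Psi r (k + 1) W W := by
  classical
  unfold Psi
  rw [Finset.inter_self]
  have h1 : ∀ F : ℕ → ℝ, ∑ C ∈ W.powerset, F C.card = ∑ l ∈ Finset.range (k + 2), ((k+1).choose l : ℝ) * F l := by
    intro F
    rw [Finset.sum_powerset_apply_card, hW]
    refine Finset.sum_congr rfl fun l _ => ?_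
    rw [nsmul_eq_mul]
  rw [h1 (fun m => if m ≤ k then beta r m / (((k+1).choose m : ℝ)) ^ 2 else 0),
    h1 (fun m => beta r m / (((k+1).choose m : ℝ)) ^ 2)]
  rw [Finset.sum_range_succ, Finset.sum_range_succ _ (k + 1)]
  have h2 : ∑ x ∈ Finset.range (k + 1), ((k+1).choose x : ℝ) * (if x ≤ k then beta r x / (((k+1).choose x : ℝ)) ^ 2 else 0)
      = ∑ x ∈ Finset.range (k + 1), beta r x / ((k+1).choose x : ℝ) := by
    refine Finset.sum_congr rfl fun x hx => ?_
    have hx' : x ≤ k := by have := Finset.mem_range.1 hx; omega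
    rw [if_pos hx']
    have hp : (0:ℝ) < ((k + 1).choose x : ℝ) := by exact_mod_cast Nat.choose_pos (by omega)
    field_simp
  have h3 : ∑ x ∈ Finset.range (k + 1), ((k+1).choose x : ℝ) * (beta r x / (((k+1).choose x : ℝ)) ^ 2)
      = ∑ x ∈ Finset.range (k + 1), beta r x / ((k+1).choose x : ℝ) := by
    refine Finset.sum_congr rfl fun x hx => ?_
    have hx' : x ≤ k := by have := Finset.mem_range.1 hx; omega
    have hp : (0:ℝ) < ((k + 1).choose x : ℝ) := by exact_mod_cast Nat.choose_pos (by omega)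
    field_simp
  rw [h2, h3, if_neg (by omega), beta_succ]
  simp
  ring

section

variable {pv pe : ℝ} (hv0 : 0 < pv) (hv1 : pv ≤ 1) (he0 : 0 < pe) (he1 : pe ≤ 1)

include hv0 hv1 he0 he1

/-- mixed moments -/
noncomputable def Qm (pv pe : ℝ) (a : Finset (Fin n)) (k : ℕ) (W W' : Finset (Fin n)) : ℝ :=
  ∫ ω, Mn pv pe a k W ω * Mn pv pe a k W' ω ∂(law (par pv pe))

omit hv0 hv1 he0 he1 in
lemma stepF_nonneg (hv0 : 0 < pv) (he0 : 0 < pe) (a W : Finset (Fin n)) (i : Fin n) (ω : Co n → Bool) :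
    0 ≤ stepF pv pe a W i ω := by
  unfold stepF
  split_ifs <;> positivity

omit hv1 he1 in
lemma stepF_mul_le (a W : Finset (Fin n)) (i j : Fin n) (ω : Co n → Bool) :
    stepF pv pe a W i ω * stepF pv pe a W j ω ≤ (pv * pe)⁻¹ * stepF pv pe a W i ω := by
  have h : stepF pv pe a W j ω ≤ (pv * pe)⁻¹ := by
    unfold stepF
    rw [mul_inv]
    split_ifs <;> first | exact le_rfl | (simp; positivity)
  have := stepF_nonneg hv0 he0 a W i ω
  nlinarith

lemma Qm_rec (a : Finset (Fin n)) (k : ℕ) (W W' : Finset (Fin n)) (hW : W.card = k + 1)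
    (hW' : W'.card = k + 1) :
    Qm pv pe a (k + 1) W W' ≤ (if W = W' then (pv * pe)⁻¹ else 1) *
      (((k:ℝ) + 1)⁻¹ * ((k:ℝ) + 1)⁻¹ * ∑ i ∈ W, ∑ j ∈ W', Qm pv pe a k (W.erase i) (W'.erase j)) := by
  classical
  have H0 := par_nonneg (n := n) hv0 hv1 he0 he1
  have H1 := par_le_one (n := n) hv0 hv1 he0 he1
  have hint : ∀ f : (Co n → Bool) → ℝ, Integrable f (law (par pv pe)) := integrable_all H0 H1
  have hexp : Qm pv pe a (k + 1) W W' = ((k:ℝ) + 1)⁻¹ * ((k:ℝ) + 1)⁻¹ * ∑ i ∈ W, ∑ j ∈ W',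
      ∫ ω, stepF pv pe a W i ω * (stepF pv pe a W' j ω *
        (Mn pv pe a k (W.erase i) ω * Mn pv pe a k (W'.erase j) ω)) ∂(law (par pv pe)) := by
    unfold Qm
    have : ∀ ω : Co n → Bool, Mn pv pe a (k + 1) W ω * Mn pv pe a (k + 1) W' ω =
        ((k:ℝ) + 1)⁻¹ * ((k:ℝ) + 1)⁻¹ * ∑ i ∈ W, ∑ j ∈ W', stepF pv pe a W i ω * (stepF pv pe a W' j ω *
        (Mn pv pe a k (W.erase i) ω * Mn pv pe a k (W'.erase j) ω)) := by
      intro ω
      rw [Mn, Mn]
      have : (((k:ℝ) + 1)⁻¹ * ∑ i ∈ W, stepF pv pe a W i ω * Mn pv pe a k (W.erase i) ω) *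
          (((k:ℝ) + 1)⁻¹ * ∑ i ∈ W', stepF pv pe a W' i ω * Mn pv pe a k (W'.erase i) ω) =
          ((k:ℝ) + 1)⁻¹ * ((k:ℝ) + 1)⁻¹ * ((∑ i ∈ W, stepF pv pe a W i ω * Mn pv pe a k (W.erase i) ω) *
          (∑ i ∈ W', stepF pv pe a W' i ω * Mn pv pe a k (W'.erase i) ω)) := by ring
      rw [this, Finset.sum_mul_sum]
      congr 1
      refine Finset.sum_congr rfl fun i _ => Finset.sum_congr rfl fun j _ => ?_
      ring
    simp_rw [this]
    rw [integral_const_mul, integral_finsetSum _ (fun i _ => hint _)]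
    congr 1
    refine Finset.sum_congr rfl fun i _ => ?_
    rw [integral_finsetSum _ (fun i _ => hint _)]
  have hdep : ∀ i ∈ W, ∀ j ∈ W', DependsOn (fun ω : Co n → Bool =>
      Mn pv pe a k (W.erase i) ω * Mn pv pe a k (W'.erase j) ω) (lev a k) := by
    intro i hi j hj x y hxy
    have h1 : (W.erase i).card = k := by rw [Finset.card_erase_of_mem hi, hW]; rfl
    have h2 : (W'.erase j).card = k := by rw [Finset.card_erase_of_mem hj, hW']; rfl
    simp only
    rw [Mn_dep pv pe a k (W.erase i) h1 (fun c hc => hxy c (cubeC_sub_lev a _ k h1.le hc)),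
      Mn_dep pv pe a k (W'.erase j) h2 (fun c hc => hxy c (cubeC_sub_lev a _ k h2.le hc))]
  have hlev1 : ∀ U : Finset (Fin n), U.card = k + 1 → (Sum.inl (a ∆ U) : Co n) ∉ lev a k := by
    intro U hU h
    simp only [lev, Set.mem_ofPred_eq, Sum.elim_inl] at h
    rw [symmDiff_cancel, hU] at h
    omega
  have hlev2 : ∀ (U : Finset (Fin n)) (i : Fin n), U.card = k + 1 →
      (Sum.inr s(a ∆ (U.erase i), a ∆ U) : Co n) ∉ lev a k := by
    intro U i hU h
    simp only [lev, Set.mem_ofPred_eq, Sum.elim_inr] at h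
    have := h (a ∆ U) (Sym2.mem_mk_right _ _)
    rw [symmDiff_cancel, hU] at this
    omega
  rw [hexp]
  by_cases hWW : W = W'
  · subst hWW
    rw [if_pos rfl]
    have hre : ∀ z : ℝ, (pv * pe)⁻¹ * (((k:ℝ) + 1)⁻¹ * ((k:ℝ) + 1)⁻¹ * z) =
        (((k:ℝ) + 1)⁻¹ * ((k:ℝ) + 1)⁻¹) * ((pv * pe)⁻¹ * z) := fun z => by ring
    rw [hre]
    refine mul_le_mul_of_nonneg_left ?_ (by positivity)
    rw [Finset.mul_sum]
    refine Finset.sum_le_sum fun i hi => ?_
    rw [Finset.mul_sum]
    refine Finset.sum_le_sum fun j hj => ?_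
    have h1 : ∫ ω, stepF pv pe a W i ω * (stepF pv pe a W j ω *
        (Mn pv pe a k (W.erase i) ω * Mn pv pe a k (W.erase j) ω)) ∂(law (par pv pe)) ≤
        ∫ ω, (pv * pe)⁻¹ * (stepF pv pe a W i ω *
        (Mn pv pe a k (W.erase i) ω * Mn pv pe a k (W.erase j) ω)) ∂(law (par pv pe)) := by
      refine integral_mono (hint _) (hint _) (fun ω => ?_)
      have h2 := stepF_mul_le hv0 he0 a W i j ω
      have h3 : 0 ≤ Mn pv pe a k (W.erase i) ω * Mn pv pe a k (W.erase j) ω :=
        mul_nonneg (Mn_nonneg hv0.le he0.le _ _ _ _) (Mn_nonneg hv0.le he0.le _ _ _ _)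
      have h4 := mul_le_mul_of_nonneg_right h2 h3
      calc _ = stepF pv pe a W i ω * stepF pv pe a W j ω *
            (Mn pv pe a k (W.erase i) ω * Mn pv pe a k (W.erase j) ω) := by ring
        _ ≤ _ := h4
        _ = _ := by ring
    refine h1.trans ?_
    rw [integral_const_mul, peel hv0 hv1 he0 he1 a W i (lev a k) _ (hdep i hi j hj) (hlev1 W hW)
      (hlev2 W i hW)]
    rfl
  · rw [if_neg hWW, one_mul]
    refine le_of_eq ?_
    congr 1
    refine Finset.sum_congr rfl fun i hi => Finset.sum_congr rfl fun j hj => ?_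
    rw [peel hv0 hv1 he0 he1 a W i
      (lev a k ∪ {Sum.inl (a ∆ W'), Sum.inr s(a ∆ (W'.erase j), a ∆ W')}),
      peel hv0 hv1 he0 he1 a W' j (lev a k) _ (hdep i hi j hj) (hlev1 W' hW') (hlev2 W' j hW')]
    · rfl
    · intro x y hxy
      simp only
      rw [stepF_dep pv pe a W' j (fun c hc => hxy c (Or.inr hc))]
      have := hdep i hi j hj (fun c hc => hxy c (Or.inl hc))
      simp only at this
      rw [this]
    · rintro (h | h | h)
      · exact hlev1 W hW h
      · rw [Sum.inl.injEq] at h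
        exact hWW (symmDiff_inj h)
      · simp at h
    · rintro (h | h | h)
      · exact hlev2 W i hW h
      · simp at h
      · rw [Set.mem_singleton_iff, Sum.inr.injEq] at h
        have : a ∆ W ∈ s(a ∆ (W'.erase j), a ∆ W') := by rw [← h]; exact Sym2.mem_mk_right _ _
        rw [Sym2.mem_iff] at this
        rcases this with h' | h'
        · have := symmDiff_inj h'
          have hc := congrArg Finset.card this
          rw [Finset.card_erase_of_mem hj, hW, hW'] at hc
          omega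
        · exact hWW (symmDiff_inj h')

lemma Qm_le (a : Finset (Fin n)) (k : ℕ) (W W' : Finset (Fin n)) (hW : W.card = k)
    (hW' : W'.card = k) : Qm pv pe a k W W' ≤ Psi (pv * pe)⁻¹ k W W' := by
  classical
  have H0 := par_nonneg (n := n) hv0 hv1 he0 he1
  have H1 := par_le_one (n := n) hv0 hv1 he0 he1
  have := law_prob H0 H1
  have hr : 1 ≤ (pv * pe)⁻¹ := by
    rw [one_le_inv₀ (by positivity)]
    nlinarith
  induction k generalizing W W' with
  | zero =>
    rw [Finset.card_eq_zero] at hW hW'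
    subst hW hW'
    unfold Qm Psi
    simp [Mn, beta]
  | succ k ih =>
    refine (Qm_rec hv0 hv1 he0 he1 a k W W' hW hW').trans ?_
    have h1 : ((k:ℝ) + 1)⁻¹ * ((k:ℝ) + 1)⁻¹ * ∑ i ∈ W, ∑ j ∈ W', Qm pv pe a k (W.erase i) (W'.erase j) ≤
        ((k:ℝ) + 1)⁻¹ * ((k:ℝ) + 1)⁻¹ * ∑ i ∈ W, ∑ j ∈ W', Psi (pv * pe)⁻¹ k (W.erase i) (W'.erase j) := by
      refine mul_le_mul_of_nonneg_left ?_ (by positivity)
      refine Finset.sum_le_sum fun i hi => Finset.sum_le_sum fun j hj => ?_
      exact ih _ _ (by rw [Finset.card_erase_of_mem hi, hW]; rfl) (by rw [Finset.card_erase_of_mem hj, hW']; rfl)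
    rw [psi_avg _ k W W' hW hW'] at h1
    by_cases hWW : W = W'
    · subst hWW
      rw [if_pos rfl, ← psi_diag k W hW]
      exact mul_le_mul_of_nonneg_left h1 (by positivity)
    · rw [if_neg hWW, one_mul]
      refine h1.trans (le_of_eq ?_)
      unfold Psi
      refine Finset.sum_congr rfl fun C hC => ?_
      rw [Finset.mem_powerset, Finset.subset_inter_iff] at hC
      rw [if_pos]
      by_contra hcon
      have hle1 := Finset.card_le_card hC.1
      have hle2 := Finset.card_le_card hC.2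
      have e1 : C = W := Finset.eq_of_subset_of_card_le hC.1 (by omega)
      have e2 : C = W' := Finset.eq_of_subset_of_card_le hC.2 (by omega)
      exact hWW (e1.symm.trans e2)

/-- uniform second moment bound -/
lemma exists_second_bound : ∃ A : ℝ, 1 ≤ A ∧ ∀ (n : ℕ) (a W : Finset (Fin n)),
    ∫ ω, Mn pv pe a W.card W ω * Mn pv pe a W.card W ω ∂(law (par pv pe)) ≤ A := by
  classical
  have hr : 1 ≤ (pv * pe)⁻¹ := by
    rw [one_le_inv₀ (by positivity)]
    nlinarith
  obtain ⟨B, hB1, hB⟩ := beta_bdd hr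
  refine ⟨(pv * pe)⁻¹ * (B * 6), ?_, ?_⟩
  · nlinarith
  intro n a W
  refine (Qm_le hv0 hv1 he0 he1 a W.card W W rfl rfl).trans ?_
  rcases Nat.eq_zero_or_pos W.card with h | h
  · rw [Finset.card_eq_zero] at h
    subst h
    unfold Psi
    simp only [Finset.inter_self, Finset.powerset_empty, Finset.sum_singleton, Finset.card_empty, beta]
    norm_num
    have h2 : (pv * pe)⁻¹ = pe⁻¹ * pv⁻¹ := by rw [mul_inv, mul_comm]
    rw [h2] at hr
    nlinarith
  · obtain ⟨k, hk⟩ : ∃ k, W.card = k + 1 := ⟨W.card - 1, by omega⟩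
    rw [hk, ← psi_diag k W hk]
    refine mul_le_mul_of_nonneg_left ?_ (by positivity)
    rw [Finset.inter_self]
    have h1 : ∑ C ∈ W.powerset, (if C.card ≤ k then beta (pv * pe)⁻¹ C.card / (((k+1).choose C.card : ℝ)) ^ 2 else 0)
        = ∑ l ∈ Finset.range (k + 2), ((k+1).choose l : ℝ) * (if l ≤ k then beta (pv * pe)⁻¹ l / (((k+1).choose l : ℝ)) ^ 2 else 0) := by
      rw [Finset.sum_powerset_apply_card (fun m => (if m ≤ k then beta (pv * pe)⁻¹ m / (((k+1).choose m : ℝ)) ^ 2 else 0)), hk]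
      refine Finset.sum_congr rfl fun l _ => ?_
      rw [nsmul_eq_mul]
    rw [h1, Finset.sum_range_succ, if_neg (by omega), mul_zero, add_zero]
    have h2 : ∑ x ∈ Finset.range (k + 1), ((k+1).choose x : ℝ) * (if x ≤ k then beta (pv * pe)⁻¹ x / (((k+1).choose x : ℝ)) ^ 2 else 0)
      ≤ ∑ x ∈ Finset.range (k + 1), B * (1 / ((k+1).choose x : ℝ)) := by
      refine Finset.sum_le_sum fun x hx => ?_
      have hx' : x ≤ k := by have := Finset.mem_range.1 hx; omega
      rw [if_pos hx']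
      have hp : (0:ℝ) < ((k + 1).choose x : ℝ) := by exact_mod_cast Nat.choose_pos (by omega)
      have : ((k+1).choose x : ℝ) * (beta (pv * pe)⁻¹ x / (((k+1).choose x : ℝ)) ^ 2) =
          beta (pv * pe)⁻¹ x * (1 / ((k+1).choose x : ℝ)) := by field_simp
      rw [this]
      exact mul_le_mul_of_nonneg_right (hB x) (by positivity)
    refine h2.trans ?_
    rw [← Finset.mul_sum]
    refine mul_le_mul_of_nonneg_left ?_ (by linarith)
    rw [Finset.sum_range_succ']
    have h3 := sum_inv_choose k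
    have h4 : (4:ℝ) / (k + 1) ≤ 4 := by
      rw [div_le_iff₀ (by positivity)]
      have : (0:ℝ) ≤ k := Nat.cast_nonneg k
      linarith
    simp only [Nat.choose_zero_right, Nat.cast_one]
    linarith

end

end Pool.Agent.LibPerc
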