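import Pool.Agent.LibPerc.Conn

set_option autoImplicit false
set_option linter.unusedSectionVars false
set_option linter.unusedVariables false
open MeasureTheory ProbabilityTheory Filter Topology
open scoped symmDiff

namespace Pool.Agent.LibPerc

variable {n L : ℕ}

/-- hypotheses on the four families of directions -/
structure Dirs (D : Finset (Fin n)) (s t u v : Fin L → Fin n) : Prop where
  two : 2 ≤ L
  sinj : Function.Injective s
  tinj : Function.Injective t
  uinj : Function.Injective u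
  vinj : Function.Injective v
  st : ∀ i j, s i ≠ t j
  su : ∀ i j, s i ≠ u j
  sv : ∀ i j, s i ≠ v j
  tu : ∀ i j, t i ≠ u j
  tv : ∀ i j, t i ≠ v j
  uv : ∀ i j, u i ≠ v j
  os : (∀ i, s i ∈ D) ∨ ∀ i, s i ∉ D
  ot : (∀ i, t i ∈ D) ∨ ∀ i, t i ∉ D
  ou : (∀ i, u i ∈ D) ∨ ∀ i, u i ∉ D

/-- the directions used near the first end -/
def SU (s u : Fin L → Fin n) : Finset (Fin n) := Finset.univ.image s ∪ Finset.univ.image u

def tal (x : Finset (Fin n)) (s u : Fin L → Fin n) (k : Fin L × Fin L) : Finset (Fin n) :=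
  x ∆ {s k.1, u k.2}

def tA (D : Finset (Fin n)) (s t u v : Fin L → Fin n) (k : Fin L × Fin L) : Finset (Fin n) :=
  (D ∆ {t k.1, v k.2}) \ SU s u

def tB (D : Finset (Fin n)) (s u : Fin L → Fin n) (k : Fin L × Fin L) : Finset (Fin n) :=
  (D ∆ {s k.1, u k.2}) ∩ SU s u

lemma mem_SU {s u : Fin L → Fin n} {a : Fin n} : a ∈ SU s u ↔ (∃ i, s i = a) ∨ ∃ i, u i = a := by
  unfold SU
  simp

section

variable {x D : Finset (Fin n)} {s t u v : Fin L → Fin n}

lemma Dirs.t_notMem (h : Dirs D s t u v) (i : Fin L) : t i ∉ SU s u := by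
  rw [mem_SU]
  rintro (⟨j, hj⟩ | ⟨j, hj⟩)
  · exact h.st j i hj
  · exact h.tu i j hj.symm

lemma Dirs.v_notMem (h : Dirs D s t u v) (i : Fin L) : v i ∉ SU s u := by
  rw [mem_SU]
  rintro (⟨j, hj⟩ | ⟨j, hj⟩)
  · exact h.sv j i hj
  · exact h.uv j i hj

lemma s_mem (s u : Fin L → Fin n) (i : Fin L) : s i ∈ SU s u := mem_SU.2 (Or.inl ⟨i, rfl⟩)

lemma u_mem (s u : Fin L → Fin n) (i : Fin L) : u i ∈ SU s u := mem_SU.2 (Or.inr ⟨i, rfl⟩)

lemma exists_ne_fin (h : 2 ≤ L) (i : Fin L) : ∃ j : Fin L, j ≠ i := by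
  have : Nontrivial (Fin L) := Fin.nontrivial_iff_two_le.2 h
  exact exists_ne i

lemma mem_pair {a b c : Fin n} : a ∈ ({b, c} : Finset (Fin n)) ↔ a = b ∨ a = c := by
  simp

lemma Dirs.A_ne (h : Dirs D s t u v) (k : Fin L × Fin L) : tA D s t u v k ≠ ∅ := by
  obtain ⟨j, hj⟩ := exists_ne_fin h.two k.1
  rcases h.ot with ho | ho
  · refine Finset.ne_empty_of_mem (a := t j) ?_
    unfold tA
    rw [Finset.mem_sdiff, Finset.mem_symmDiff]
    refine ⟨Or.inl ⟨ho j, ?_⟩, h.t_notMem j⟩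
    rw [mem_pair, not_or]
    exact ⟨fun e => hj (h.tinj e), h.tv j k.2⟩
  · refine Finset.ne_empty_of_mem (a := t k.1) ?_
    unfold tA
    rw [Finset.mem_sdiff, Finset.mem_symmDiff]
    exact ⟨Or.inr ⟨by simp, ho _⟩, h.t_notMem _⟩

lemma Dirs.B_ne (h : Dirs D s t u v) (k : Fin L × Fin L) : tB D s u k ≠ ∅ := by
  obtain ⟨j, hj⟩ := exists_ne_fin h.two k.1
  rcases h.os with ho | ho
  · refine Finset.ne_empty_of_mem (a := s j) ?_
    unfold tB
    rw [Finset.mem_inter, Finset.mem_symmDiff]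
    refine ⟨Or.inl ⟨ho j, ?_⟩, s_mem s u j⟩
    rw [mem_pair, not_or]
    exact ⟨fun e => hj (h.sinj e), h.su j k.2⟩
  · refine Finset.ne_empty_of_mem (a := s k.1) ?_
    unfold tB
    rw [Finset.mem_inter, Finset.mem_symmDiff]
    exact ⟨Or.inr ⟨by simp, ho _⟩, s_mem s u _⟩

lemma A_disj_SU (k : Fin L × Fin L) : Disjoint (tA D s t u v k) (SU s u) := by
  unfold tA
  exact Finset.sdiff_disjoint

lemma B_sub_SU (k : Fin L × Fin L) : tB D s u k ⊆ SU s u := by
  unfold tB
  exact Finset.inter_subset_right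

lemma AB_disj (k : Fin L × Fin L) : Disjoint (tA D s t u v k) (tB D s u k) :=
  (A_disj_SU k).mono_right (B_sub_SU k)

lemma symm_of_disj {A C : Finset (Fin n)} (h : Disjoint A C) : A ∆ C = A ∪ C := by
  rw [Disjoint.symmDiff_eq_sup h]; rfl

/-- the end point of the upper cube -/
lemma Dirs.end_eq (h : Dirs D s t u v) (k : Fin L × Fin L) :
    (tal x s u k ∆ tA D s t u v k) ∆ tB D s u k = (x ∆ D) ∆ {t k.1, v k.2} := by
  have h1 : tA D s t u v k ∆ tB D s u k = D ∆ {t k.1, v k.2} ∆ {s k.1, u k.2} := by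
    rw [symm_of_disj (AB_disj k)]
    ext a
    unfold tA tB
    simp only [Finset.mem_union, Finset.mem_sdiff, Finset.mem_inter]
    by_cases ha : a ∈ SU s u
    · have h2 : a ∉ ({t k.1, v k.2} : Finset (Fin n)) := by
        rw [mem_pair, not_or]
        exact ⟨fun e => h.t_notMem _ (e ▸ ha), fun e => h.v_notMem _ (e ▸ ha)⟩
      generalize ({t k.1, v k.2} : Finset (Fin n)) = P at h2 ⊢
      generalize ({s k.1, u k.2} : Finset (Fin n)) = Q
      simp only [ha, not_true_eq_false, and_false, and_true, false_or, Finset.mem_symmDiff, h2]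
      tauto
    · have h2 : a ∉ ({s k.1, u k.2} : Finset (Fin n)) := by
        rw [mem_pair, not_or]
        exact ⟨fun e => ha (e ▸ s_mem s u _), fun e => ha (e ▸ u_mem s u _)⟩
      generalize ({t k.1, v k.2} : Finset (Fin n)) = P at ⊢
      generalize ({s k.1, u k.2} : Finset (Fin n)) = Q at h2 ⊢
      simp only [ha, not_false_eq_true, and_true, and_false, or_false, Finset.mem_symmDiff, h2]
      tauto
  rw [symmDiff_assoc, h1]
  unfold tal
  generalize ({t k.1, v k.2} : Finset (Fin n)) = P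
  generalize ({s k.1, u k.2} : Finset (Fin n)) = Q
  ext a
  simp only [Finset.mem_symmDiff]
  tauto

/-- zone of a trial -/
def InZ (x D : Finset (Fin n)) (s t u v : Fin L → Fin n) (k : Fin L × Fin L) (z : Finset (Fin n)) : Prop :=
  (x ∆ z) ∩ SU s u = {s k.1, u k.2} ∨
    ((x ∆ z) \ SU s u = tA D s t u v k ∧ ∃ C ⊆ tB D s u k, (x ∆ z) ∩ SU s u = {s k.1, u k.2} ∆ C)

lemma Dirs.pair_inj (h : Dirs D s t u v) {k l : Fin L × Fin L}
    (e : ({s k.1, u k.2} : Finset (Fin n)) = {s l.1, u l.2}) : k = l := by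
  have h1 : s k.1 ∈ ({s l.1, u l.2} : Finset (Fin n)) := by rw [← e]; simp
  have h2 : u k.2 ∈ ({s l.1, u l.2} : Finset (Fin n)) := by rw [← e]; simp
  rw [mem_pair] at h1 h2
  refine Prod.ext ?_ ?_
  · rcases h1 with h1 | h1
    · exact h.sinj h1
    · exact absurd h1 (h.su _ _)
  · rcases h2 with h2 | h2
    · exact absurd h2.symm (h.su _ _)
    · exact h.uinj h2

lemma Dirs.A_inj (h : Dirs D s t u v) {k l : Fin L × Fin L}
    (e : tA D s t u v k = tA D s t u v l) : k = l := by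
  have key : ∀ a, a ∉ SU s u → (a ∈ D ∆ {t k.1, v k.2} ↔ a ∈ D ∆ {t l.1, v l.2}) := by
    intro a ha
    have : a ∈ tA D s t u v k ↔ a ∈ tA D s t u v l := by rw [e]
    unfold tA at this
    simp only [Finset.mem_sdiff, ha, not_false_eq_true, and_true] at this
    exact this
  refine Prod.ext ?_ ?_
  · by_contra hne
    have := key (t k.1) (h.t_notMem _)
    simp only [Finset.mem_symmDiff, mem_pair] at this
    have h1 : t k.1 ≠ t l.1 := fun e => hne (h.tinj e)
    have h2 := h.tv k.1 l.2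
    tauto
  · by_contra hne
    have := key (v k.2) (h.v_notMem _)
    simp only [Finset.mem_symmDiff, mem_pair] at this
    have h1 : v k.2 ≠ v l.2 := fun e => hne (h.vinj e)
    have h2 : v k.2 ≠ t l.1 := fun e => h.tv _ _ e.symm
    tauto

lemma Dirs.cross (h : Dirs D s t u v) {k l : Fin L × Fin L} {C : Finset (Fin n)}
    (hC : C ⊆ tB D s u l) (e : ({s k.1, u k.2} : Finset (Fin n)) = {s l.1, u l.2} ∆ C) : k = l := by
  have hmem : ∀ a, a ∈ ({s k.1, u k.2} : Finset (Fin n)) ↔ a ∈ ({s l.1, u l.2} : Finset (Fin n)) ∆ C := by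
    intro a; rw [e]
  have hCB : ∀ a ∈ C, a ∈ D ∆ {s l.1, u l.2} := by
    intro a ha
    have := hC ha
    unfold tB at this
    exact (Finset.mem_inter.1 this).1
  -- an element of the first pair outside the second is in D, and conversely
  have f1 : ∀ a, a ∈ ({s k.1, u k.2} : Finset (Fin n)) → a ∉ ({s l.1, u l.2} : Finset (Fin n)) → a ∈ D := by
    intro a ha hb
    have := (hmem a).1 ha
    rw [Finset.mem_symmDiff] at this
    rcases this with h1 | h1
    · exact absurd h1.1 hb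
    · have := hCB a h1.1
      rw [Finset.mem_symmDiff] at this
      rcases this with h2 | h2
      · exact h2.1
      · exact absurd h2.1 hb
  have f2 : ∀ a, a ∈ ({s l.1, u l.2} : Finset (Fin n)) → a ∉ ({s k.1, u k.2} : Finset (Fin n)) → a ∉ D := by
    intro a ha hb
    have h0 := mt (hmem a).2 hb
    rw [Finset.mem_symmDiff] at h0
    push Not at h0
    have hc : a ∈ C := h0.1 ha
    have := hCB a hc
    rw [Finset.mem_symmDiff] at this
    rcases this with h2 | h2
    · exact absurd ha h2.2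
    · exact h2.2
  refine Prod.ext ?_ ?_
  · by_contra hne
    have n1 : s k.1 ≠ s l.1 := fun e => hne (h.sinj e)
    have c1 := f1 (s k.1) (by simp) (by rw [mem_pair, not_or]; exact ⟨n1, h.su _ _⟩)
    have c2 := f2 (s l.1) (by simp) (by rw [mem_pair, not_or]; exact ⟨n1.symm, h.su _ _⟩)
    rcases h.os with ho | ho
    · exact c2 (ho _)
    · exact ho _ c1
  · by_contra hne
    have n1 : u k.2 ≠ u l.2 := fun e => hne (h.uinj e)
    have c1 := f1 (u k.2) (by simp) (by rw [mem_pair, not_or]; exact ⟨fun e => h.su _ _ e.symm, n1⟩)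
    have c2 := f2 (u l.2) (by simp) (by rw [mem_pair, not_or]; exact ⟨fun e => h.su _ _ e.symm, n1.symm⟩)
    rcases h.ou with ho | ho
    · exact c2 (ho _)
    · exact ho _ c1

lemma Dirs.InZ_inj (h : Dirs D s t u v) {k l : Fin L × Fin L} {z : Finset (Fin n)}
    (hk : InZ x D s t u v k z) (hl : InZ x D s t u v l z) : k = l := by
  rcases hk with hk | ⟨hk1, C, hC, hk2⟩
  · rcases hl with hl | ⟨hl1, C', hC', hl2⟩
    · exact h.pair_inj (hk.symm.trans hl)
    · exact h.cross hC' (hk.symm.trans hl2)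
  · rcases hl with hl | ⟨hl1, C', hC', hl2⟩
    · exact (h.cross hC (hl.symm.trans hk2)).symm
    · exact h.A_inj (hk1.symm.trans hl1)

lemma Dirs.notZ_x (h : Dirs D s t u v) (k : Fin L × Fin L) (i : Fin L) :
    ¬ InZ x D s t u v k (x ∆ {s i}) := by
  unfold InZ
  rw [symmDiff_cancel]
  rintro (h1 | ⟨h1, -⟩)
  · have : u k.2 ∈ ({s i} : Finset (Fin n)) ∩ SU s u := by rw [h1]; simp
    rw [Finset.mem_inter, Finset.mem_singleton] at this
    exact h.su _ _ this.1.symm
  · apply h.A_ne k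
    rw [← h1, Finset.sdiff_eq_empty_iff_subset, Finset.singleton_subset_iff]
    exact s_mem s u i

lemma Dirs.notZ_y (h : Dirs D s t u v) (k : Fin L × Fin L) (i : Fin L) :
    ¬ InZ x D s t u v k ((x ∆ D) ∆ {t i}) := by
  unfold InZ
  have e : x ∆ ((x ∆ D) ∆ {t i}) = D ∆ {t i} := by
    rw [symmDiff_assoc, symmDiff_symmDiff_cancel_left]
  rw [e]
  rintro (h1 | ⟨h1, -⟩)
  · obtain ⟨j, hj⟩ := exists_ne_fin h.two k.1
    have hs : s k.1 ∈ (D ∆ {t i}) ∩ SU s u := by rw [h1]; simp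
    have hj2 : s j ∉ (D ∆ {t i}) ∩ SU s u := by
      rw [h1, mem_pair, not_or]
      exact ⟨fun e => hj (h.sinj e), h.su _ _⟩
    have n1 := h.st k.1 i
    have n2 := h.st j i
    have c1 : s k.1 ∈ D := by
      rw [Finset.mem_inter, Finset.mem_symmDiff] at hs
      rcases hs.1 with h2 | h2
      · exact h2.1
      · exact absurd (Finset.mem_singleton.1 h2.1) n1
    have c2 : s j ∉ D := by
      intro hd
      apply hj2
      rw [Finset.mem_inter, Finset.mem_symmDiff]
      exact ⟨Or.inl ⟨hd, fun h3 => n2 (Finset.mem_singleton.1 h3)⟩, s_mem s u j⟩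
    rcases h.os with ho | ho
    · exact c2 (ho j)
    · exact ho _ c1
  · unfold tA at h1
    have hv : v k.2 ∈ (D ∆ {t i}) \ SU s u ↔ v k.2 ∈ (D ∆ {t k.1, v k.2}) \ SU s u := by rw [h1]
    have n1 := h.v_notMem k.2
    have n2 : v k.2 ≠ t i := fun e => h.tv _ _ e.symm
    simp only [Finset.mem_sdiff, Finset.mem_symmDiff, Finset.mem_singleton, mem_pair, n1,
      not_false_eq_true, and_true] at hv
    tauto

end

end Pool.Agent.LibPerc
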