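import Pool.Agent.LibPerc.Trial

set_option autoImplicit false
set_option linter.unusedSectionVars false
set_option linter.unusedVariables false
open MeasureTheory ProbabilityTheory Filter Topology
open scoped symmDiff

namespace Pool.Agent.LibPerc

variable {n L : ℕ}

/-- success of a trial -/
def Succ (pv pe : ℝ) (x D : Finset (Fin n)) (s t u v : Fin L → Fin n) (k : Fin L × Fin L)
    (ω : Co n → Bool) : Prop :=
  ω (Sum.inr s(x ∆ {s k.1}, tal x s u k)) = true ∧ (ω (Sum.inl (tal x s u k)) = true ∧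
    (Conn pv pe (tal x s u k) (tA D s t u v k) ω ∧
      (Conn pv pe (tal x s u k ∆ tA D s t u v k) (tB D s u k) ω ∧
        ω (Sum.inr s((x ∆ D) ∆ {t k.1, v k.2}, (x ∆ D) ∆ {t k.1})) = true)))

/-- coordinates of a trial -/
def Res (x D : Finset (Fin n)) (s t u v : Fin L → Fin n) (k : Fin L × Fin L) : Set (Co n) :=
  {Sum.inr s(x ∆ {s k.1}, tal x s u k)} ∪ ({Sum.inl (tal x s u k)} ∪
    (cubeC (tal x s u k) (tA D s t u v k) ∪ (cubeC (tal x s u k ∆ tA D s t u v k) (tB D s u k) ∪
      {Sum.inr s((x ∆ D) ∆ {t k.1, v k.2}, (x ∆ D) ∆ {t k.1})})))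

section

variable {x D : Finset (Fin n)} {s t u v : Fin L → Fin n}

lemma Succ_dep (pv pe : ℝ) (k : Fin L × Fin L) :
    DependsOn (Succ pv pe x D s t u v k) (Res x D s t u v k) := by
  intro ω ω' h
  unfold Succ
  unfold Res at h
  rw [h _ (Or.inl rfl), h _ (Or.inr (Or.inl rfl)),
    Conn_dep pv pe (tal x s u k) (tA D s t u v k) (fun c hc => h c (Or.inr (Or.inr (Or.inl hc)))),
    Conn_dep pv pe (tal x s u k ∆ tA D s t u v k) (tB D s u k)
      (fun c hc => h c (Or.inr (Or.inr (Or.inr (Or.inl hc))))),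
    h _ (Or.inr (Or.inr (Or.inr (Or.inr rfl))))]

/-- relative coordinates of the special vertices -/
lemma Dirs.x_eq (h : Dirs D s t u v) (k : Fin L × Fin L) :
    x ∆ {s k.1} = tal x s u k ∆ {u k.2} := by
  unfold tal
  rw [symmDiff_assoc]
  congr 1
  have := h.su k.1 k.2
  ext a
  simp only [Finset.mem_symmDiff, mem_pair, Finset.mem_singleton]
  constructor
  · rintro rfl
    exact Or.inl ⟨Or.inl rfl, this⟩
  · rintro (⟨h1 | h1, h2⟩ | ⟨h1, h2⟩)
    · exact h1
    · exact absurd h1 h2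
    · exact absurd (Or.inr h1) h2

lemma w_eq {k : Fin L × Fin L} {C : Finset (Fin n)} (hC : C ⊆ tB D s u k) :
    tal x s u k ∆ tA D s t u v k ∆ C = tal x s u k ∆ (tA D s t u v k ∪ C) := by
  rw [symmDiff_assoc, symm_of_disj ((AB_disj k).mono_right hC)]

lemma Dirs.end_eq' (h : Dirs D s t u v) (k : Fin L × Fin L) :
    (x ∆ D) ∆ {t k.1, v k.2} = tal x s u k ∆ (tA D s t u v k ∪ tB D s u k) := by
  rw [← h.end_eq (x := x) k, w_eq subset_rfl]

lemma Dirs.y_eq (h : Dirs D s t u v) (k : Fin L × Fin L) :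
    (x ∆ D) ∆ {t k.1} = tal x s u k ∆ ((tA D s t u v k ∪ tB D s u k) ∆ {v k.2}) := by
  rw [← symmDiff_assoc, ← h.end_eq' (x := x) k, symmDiff_assoc (x ∆ D)]
  congr 1
  have := h.tv k.1 k.2
  ext a
  simp only [Finset.mem_symmDiff, mem_pair, Finset.mem_singleton]
  constructor
  · rintro rfl
    exact Or.inl ⟨Or.inl rfl, this⟩
  · rintro (⟨h1 | h1, h2⟩ | ⟨h1, h2⟩)
    · exact h1
    · exact absurd h1 h2
    · exact absurd (Or.inr h1) h2

/-- every coordinate of a trial touches its zone -/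
lemma Dirs.touch (h : Dirs D s t u v) (k : Fin L × Fin L) (c : Co n) (hc : c ∈ Res x D s t u v k) :
    (∃ z, c = Sum.inl z ∧ InZ x D s t u v k z) ∨
    (∃ z z', c = Sum.inr s(z, z') ∧ InZ x D s t u v k z ∧
      (InZ x D s t u v k z' ∨ (∃ i, z' = x ∆ {s i}) ∨ ∃ i, z' = (x ∆ D) ∆ {t i})) := by
  have zlow : ∀ C ⊆ tA D s t u v k, InZ x D s t u v k (tal x s u k ∆ C) := by
    intro C hC
    left
    unfold tal
    rw [symmDiff_assoc, symmDiff_cancel]
    have hd : Disjoint C (SU s u) := (A_disj_SU k).mono_left hC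
    ext a
    rw [Finset.mem_inter, Finset.mem_symmDiff]
    constructor
    · rintro ⟨h1 | h1, h2⟩
      · exact h1.1
      · exact absurd h2 (Finset.disjoint_left.1 hd h1.1)
    · intro h1
      have h2 : a ∈ SU s u := by
        rcases mem_pair.1 h1 with rfl | rfl
        · exact s_mem s u _
        · exact u_mem s u _
      exact ⟨Or.inl ⟨h1, fun h3 => Finset.disjoint_left.1 hd h3 h2⟩, h2⟩
  have zup : ∀ C ⊆ tB D s u k, InZ x D s t u v k (tal x s u k ∆ tA D s t u v k ∆ C) := by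
    intro C hC
    right
    have hAS := A_disj_SU (D := D) (s := s) (t := t) (u := u) (v := v) k
    have hCS : C ⊆ SU s u := hC.trans (B_sub_SU k)
    have hpS : ({s k.1, u k.2} : Finset (Fin n)) ⊆ SU s u := by
      intro a ha
      rcases mem_pair.1 ha with rfl | rfl
      · exact s_mem s u _
      · exact u_mem s u _
    unfold tal
    rw [symmDiff_assoc, symmDiff_assoc, symmDiff_cancel]
    generalize ({s k.1, u k.2} : Finset (Fin n)) = P at hpS ⊢
    constructor
    · ext a
      have h1 : a ∈ tA D s t u v k → a ∉ SU s u := fun h => Finset.disjoint_left.1 hAS h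
      have h2 : a ∈ C → a ∈ SU s u := fun h => hCS h
      have h3 : a ∈ P → a ∈ SU s u := fun h => hpS h
      simp only [Finset.mem_sdiff, Finset.mem_symmDiff]
      tauto
    · refine ⟨C, hC, ?_⟩
      ext a
      have h1 : a ∈ tA D s t u v k → a ∉ SU s u := fun h => Finset.disjoint_left.1 hAS h
      have h2 : a ∈ C → a ∈ SU s u := fun h => hCS h
      have h3 : a ∈ P → a ∈ SU s u := fun h => hpS h
      simp only [Finset.mem_inter, Finset.mem_symmDiff]
      tauto
  have e0 : tal x s u k ∆ ∅ = tal x s u k := symmDiff_bot _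
  have zal : InZ x D s t u v k (tal x s u k) := by
    have := zlow ∅ (Finset.empty_subset _)
    rwa [e0] at this
  have zend : InZ x D s t u v k ((x ∆ D) ∆ {t k.1, v k.2}) := by
    have := zup (tB D s u k) subset_rfl
    rwa [h.end_eq k] at this
  rcases hc with hc | hc | hc | hc | hc
  · rw [Set.mem_singleton_iff] at hc
    right
    exact ⟨tal x s u k, x ∆ {s k.1}, by rw [hc, Sym2.eq_swap], zal, Or.inr (Or.inl ⟨_, rfl⟩)⟩
  · rw [Set.mem_singleton_iff] at hc
    left
    exact ⟨_, hc, zal⟩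
  · rcases hc with ⟨C, hC, -, rfl⟩ | ⟨C, hC, C', hC', -, rfl⟩
    · exact Or.inl ⟨_, rfl, zlow C hC⟩
    · exact Or.inr ⟨_, _, rfl, zlow C hC, Or.inl (zlow C' hC')⟩
  · rcases hc with ⟨C, hC, -, rfl⟩ | ⟨C, hC, C', hC', -, rfl⟩
    · exact Or.inl ⟨_, rfl, zup C hC⟩
    · exact Or.inr ⟨_, _, rfl, zup C hC, Or.inl (zup C' hC')⟩
  · rw [Set.mem_singleton_iff] at hc
    right
    exact ⟨_, _, hc, zend, Or.inr (Or.inr ⟨_, rfl⟩)⟩

/-- different trials use different coordinates -/
lemma Dirs.res_disj (h : Dirs D s t u v) {k l : Fin L × Fin L} (hkl : k ≠ l) :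
    Disjoint (Res x D s t u v k) (Res x D s t u v l) := by
  rw [Set.disjoint_left]
  intro c hk hl
  rcases h.touch k c hk with ⟨z, hz, h1⟩ | ⟨z, z', hz, h1, -⟩
  · rcases h.touch l c hl with ⟨a, ha, h2⟩ | ⟨a, a', ha, h2, -⟩
    · rw [hz, Sum.inl.injEq] at ha
      subst ha
      exact hkl (h.InZ_inj h1 h2)
    · rw [hz] at ha; simp at ha
  · rcases h.touch l c hl with ⟨a, ha, h2⟩ | ⟨a, a', ha, h2, h3⟩
    · rw [hz] at ha; simp at ha
    · rw [hz, Sum.inr.injEq] at ha
      have hmem : z ∈ s(a, a') := by rw [← ha]; exact Sym2.mem_mk_left _ _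
      rw [Sym2.mem_iff] at hmem
      rcases hmem with rfl | rfl
      · exact hkl (h.InZ_inj h1 h2)
      · rcases h3 with h3 | ⟨i, rfl⟩ | ⟨i, rfl⟩
        · exact hkl (h.InZ_inj h1 h3)
        · exact h.notZ_x k i h1
        · exact h.notZ_y k i h1

end

section

variable {pv pe : ℝ} (hv0 : 0 < pv) (hv1 : pv ≤ 1) (he0 : 0 < pe) (he1 : pe ≤ 1)

include hv0 hv1 he0 he1

lemma prob_and {S T : Set (Co n)} (hST : Disjoint S T) (A B : (Co n → Bool) → Prop)
    (hA : DependsOn A S) (hB : DependsOn B T) :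
    (law (par pv pe)).real {ω | A ω ∧ B ω} =
      (law (par pv pe)).real {ω | A ω} * (law (par pv pe)).real {ω | B ω} := by
  classical
  have H0 := par_nonneg (n := n) hv0 hv1 he0 he1
  have H1 := par_le_one (n := n) hv0 hv1 he0 he1
  rw [prob_eq_integral H0 H1, prob_eq_integral H0 H1, prob_eq_integral H0 H1,
    ← indep2 H0 H1 hST (fun ω => if A ω then (1:ℝ) else 0) (fun ω => if B ω then (1:ℝ) else 0)]
  · congr 1
    ext ω
    by_cases h1 : A ω <;> by_cases h2 : B ω <;> simp [h1, h2]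
  · intro x y h
    simp only [hA h]
  · intro x y h
    simp only [hB h]

lemma Dirs.prob_succ {c : ℝ} (hc0 : 0 < c)
    (hc : ∀ (a W : Finset (Fin n)), c ≤ (law (par pv pe)).real {ω : Co n → Bool | Conn pv pe a W ω})
    {x D : Finset (Fin n)} {s t u v : Fin L → Fin n} (h : Dirs D s t u v) (k : Fin L × Fin L) :
    pe * (pv * (c * (c * pe))) ≤ (law (par pv pe)).real {ω | Succ pv pe x D s t u v k ω} := by
  have H0 := par_nonneg (n := n) hv0 hv1 he0 he1
  have H1 := par_le_one (n := n) hv0 hv1 he0 he1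
  have hA := h.A_ne k
  have hB := h.B_ne k
  have hAB := AB_disj (D := D) (s := s) (t := t) (u := u) (v := v) k
  have huA : u k.2 ∉ tA D s t u v k := fun hu =>
    Finset.disjoint_left.1 (A_disj_SU k) hu (u_mem s u _)
  have hvB : v k.2 ∉ tB D s u k := fun hu => h.v_notMem _ (B_sub_SU k hu)
  have e0 : tal x s u k = tal x s u k ∆ ∅ := (symmDiff_bot _).symm
  -- disjointness facts
  have d5 : Disjoint (cubeC (tal x s u k ∆ tA D s t u v k) (tB D s u k))
      {(Sum.inr s((x ∆ D) ∆ {t k.1, v k.2}, (x ∆ D) ∆ {t k.1}) : Co n)} := by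
    rw [Set.disjoint_singleton_right]
    rintro (⟨C, hC, h1, h2⟩ | ⟨C, hC, C', hC', h1, h2⟩)
    · simp at h2
    · rw [Sum.inr.injEq, w_eq hC, w_eq hC', h.y_eq k] at h2
      have hm : tal x s u k ∆ ((tA D s t u v k ∪ tB D s u k) ∆ {v k.2}) ∈
          s(tal x s u k ∆ (tA D s t u v k ∪ C), tal x s u k ∆ (tA D s t u v k ∪ C')) := by
        rw [← h2]; exact Sym2.mem_mk_right _ _
      have key : ∀ C'' ⊆ tB D s u k, tal x s u k ∆ ((tA D s t u v k ∪ tB D s u k) ∆ {v k.2}) ≠
          tal x s u k ∆ (tA D s t u v k ∪ C'') := by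
        intro C'' hC'' e
        have e' := symmDiff_inj e
        have : v k.2 ∈ (tA D s t u v k ∪ tB D s u k) ∆ {v k.2} ↔ v k.2 ∈ tA D s t u v k ∪ C'' := by rw [e']
        have hvC : v k.2 ∉ C'' := fun h => hvB (hC'' h)
        simp only [Finset.mem_symmDiff, Finset.mem_union, Finset.mem_singleton, hvB, hvC] at this
        tauto
      rw [Sym2.mem_iff] at hm
      rcases hm with hm | hm
      · exact key C hC hm
      · exact key C' hC' hm
  have d4 : Disjoint (cubeC (tal x s u k) (tA D s t u v k))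
      (cubeC (tal x s u k ∆ tA D s t u v k) (tB D s u k) ∪
      {(Sum.inr s((x ∆ D) ∆ {t k.1, v k.2}, (x ∆ D) ∆ {t k.1}) : Co n)}) := by
    rw [Set.disjoint_left]
    rintro c (⟨C, hC, h1, h2⟩ | ⟨C, hC, C', hC', h1, h2⟩)
    · rintro ((⟨E, hE, h3, h4⟩ | ⟨E, hE, E', hE', h3, h4⟩) | h3)
      · rw [h2, Sum.inl.injEq, w_eq hE] at h4
        have h5 := symmDiff_inj h4
        apply h3
        have h6 : E ⊆ tA D s t u v k := (Finset.subset_union_right.trans h5.symm.subset).trans hC
        rw [Finset.eq_empty_iff_forall_notMem]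
        intro a ha
        exact Finset.disjoint_left.1 hAB (h6 ha) (hE ha)
      · rw [h2] at h4; simp at h4
      · rw [h2] at h3; simp at h3
    · rintro ((⟨E, hE, h3, h4⟩ | ⟨E, hE, E', hE', h3, h4⟩) | h3)
      · rw [h2] at h4; simp at h4
      · rw [h2, Sum.inr.injEq, w_eq hE, w_eq hE'] at h4
        have key : ∀ F ⊆ tA D s t u v k, ∀ G ⊆ tB D s u k,
            tal x s u k ∆ F = tal x s u k ∆ (tA D s t u v k ∪ G) → F = tA D s t u v k := by
          intro F hF G hG e
          have e' := symmDiff_inj e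
          exact Finset.Subset.antisymm hF (Finset.subset_union_left.trans e'.symm.subset)
        have hm1 : tal x s u k ∆ C ∈ s(tal x s u k ∆ (tA D s t u v k ∪ E), tal x s u k ∆ (tA D s t u v k ∪ E')) := by
          rw [← h4]; exact Sym2.mem_mk_left _ _
        have hm2 : tal x s u k ∆ C' ∈ s(tal x s u k ∆ (tA D s t u v k ∪ E), tal x s u k ∆ (tA D s t u v k ∪ E')) := by
          rw [← h4]; exact Sym2.mem_mk_right _ _
        have f1 : C = tA D s t u v k := by
          rw [Sym2.mem_iff] at hm1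
          rcases hm1 with hm | hm
          · exact key C hC E hE hm
          · exact key C hC E' hE' hm
        have f2 : C' = tA D s t u v k := by
          rw [Sym2.mem_iff] at hm2
          rcases hm2 with hm | hm
          · exact key C' hC' E hE hm
          · exact key C' hC' E' hE' hm
        exact h1 (f1.trans f2.symm)
      · rw [Set.mem_singleton_iff, h2, Sum.inr.injEq, h.end_eq' k] at h3
        have hm : tal x s u k ∆ (tA D s t u v k ∪ tB D s u k) ∈ s(tal x s u k ∆ C, tal x s u k ∆ C') := by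
          rw [h3]; exact Sym2.mem_mk_left _ _
        have key : ∀ F ⊆ tA D s t u v k, tal x s u k ∆ (tA D s t u v k ∪ tB D s u k) ≠ tal x s u k ∆ F := by
          intro F hF e
          have e' := symmDiff_inj e
          apply hB
          rw [Finset.eq_empty_iff_forall_notMem]
          intro a ha
          have : a ∈ F := by rw [← e']; exact Finset.mem_union_right _ ha
          exact Finset.disjoint_left.1 hAB (hF this) ha
        rw [Sym2.mem_iff] at hm
        rcases hm with hm | hm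
        · exact key C hC hm
        · exact key C' hC' hm
  have d3 : Disjoint {(Sum.inl (tal x s u k) : Co n)}
      (cubeC (tal x s u k) (tA D s t u v k) ∪ (cubeC (tal x s u k ∆ tA D s t u v k) (tB D s u k) ∪
      {Sum.inr s((x ∆ D) ∆ {t k.1, v k.2}, (x ∆ D) ∆ {t k.1})})) := by
    rw [Set.disjoint_singleton_left]
    rintro ((⟨C, hC, h1, h2⟩ | ⟨C, hC, C', hC', h1, h2⟩) | (⟨E, hE, h3, h4⟩ | ⟨E, hE, E', hE', h3, h4⟩) | h3)
    · rw [Sum.inl.injEq, e0, symmDiff_assoc] at h2
      have := symmDiff_inj h2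
      apply h1
      simpa using this.symm
    · simp at h2
    · rw [Sum.inl.injEq, w_eq hE] at h4
      rw [e0, symmDiff_assoc] at h4
      have h5 := symmDiff_inj h4
      apply hA
      rw [Finset.eq_empty_iff_forall_notMem]
      intro a ha
      have h6 : a ∈ (∅ : Finset (Fin n)) ∆ (tA D s t u v k ∪ E) := by
        rw [Finset.mem_symmDiff]
        exact Or.inr ⟨Finset.mem_union_left _ ha, Finset.notMem_empty _⟩
      rw [← h5] at h6
      exact Finset.notMem_empty _ h6
    · simp at h4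
    · simp at h3
  have d2 : Disjoint {(Sum.inr s(x ∆ {s k.1}, tal x s u k) : Co n)}
      ({Sum.inl (tal x s u k)} ∪ (cubeC (tal x s u k) (tA D s t u v k) ∪
      (cubeC (tal x s u k ∆ tA D s t u v k) (tB D s u k) ∪
      {Sum.inr s((x ∆ D) ∆ {t k.1, v k.2}, (x ∆ D) ∆ {t k.1})}))) := by
    rw [Set.disjoint_singleton_left]
    rintro (h0 | (⟨C, hC, h1, h2⟩ | ⟨C, hC, C', hC', h1, h2⟩) | (⟨E, hE, h3, h4⟩ | ⟨E, hE, E', hE', h3, h4⟩) | h3)
    · simp at h0
    · simp at h2
    · rw [Sum.inr.injEq, h.x_eq k] at h2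
      have hm : tal x s u k ∆ {u k.2} ∈ s(tal x s u k ∆ C, tal x s u k ∆ C') := by
        rw [← h2]; exact Sym2.mem_mk_left _ _
      have key : ∀ F ⊆ tA D s t u v k, tal x s u k ∆ {u k.2} ≠ tal x s u k ∆ F := by
        intro F hF e
        have e' := symmDiff_inj e
        apply huA
        apply hF
        rw [← e']; simp
      rw [Sym2.mem_iff] at hm
      rcases hm with hm | hm
      · exact key C hC hm
      · exact key C' hC' hm
    · simp at h4
    · rw [Sum.inr.injEq, w_eq hE, w_eq hE'] at h4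
      have hm : tal x s u k ∈ s(tal x s u k ∆ (tA D s t u v k ∪ E), tal x s u k ∆ (tA D s t u v k ∪ E')) := by
        rw [← h4]; exact Sym2.mem_mk_right _ _
      have key : ∀ F, tal x s u k ≠ tal x s u k ∆ (tA D s t u v k ∪ F) := by
        intro F e
        have e2 : tal x s u k ∆ ∅ = tal x s u k ∆ (tA D s t u v k ∪ F) := by rw [← e]; exact e0.symm
        have e' := symmDiff_inj e2
        apply hA
        rw [Finset.eq_empty_iff_forall_notMem]
        intro a ha
        have : a ∈ (∅ : Finset (Fin n)) := by rw [e']; exact Finset.mem_union_left _ ha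
        exact Finset.notMem_empty _ this
      rw [Sym2.mem_iff] at hm
      rcases hm with hm | hm
      · exact key E hm
      · exact key E' hm
    · rw [Set.mem_singleton_iff, Sum.inr.injEq, h.end_eq' k, h.x_eq k] at h3
      have hm : tal x s u k ∆ (tA D s t u v k ∪ tB D s u k) ∈ s(tal x s u k ∆ {u k.2}, tal x s u k) := by
        rw [h3]; exact Sym2.mem_mk_left _ _
      obtain ⟨a, ha⟩ := Finset.nonempty_iff_ne_empty.2 hA
      rw [Sym2.mem_iff] at hm
      rcases hm with hm | hm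
      · have e' := symmDiff_inj hm
        have h4 : a ∈ ({u k.2} : Finset (Fin n)) := by rw [← e']; exact Finset.mem_union_left _ ha
        rw [Finset.mem_singleton] at h4
        exact huA (h4 ▸ ha)
      · have e2 : tal x s u k ∆ (tA D s t u v k ∪ tB D s u k) = tal x s u k ∆ ∅ := by rw [hm]; exact e0
        have e' := symmDiff_inj e2
        have h4 : a ∈ (∅ : Finset (Fin n)) := by rw [← e']; exact Finset.mem_union_left _ ha
        exact Finset.notMem_empty _ h4
  -- dependence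
  have dep5 : DependsOn (fun ω : Co n → Bool => ω (Sum.inr s((x ∆ D) ∆ {t k.1, v k.2}, (x ∆ D) ∆ {t k.1})) = true)
      {(Sum.inr s((x ∆ D) ∆ {t k.1, v k.2}, (x ∆ D) ∆ {t k.1}) : Co n)} := by
    intro ω ω' hh
    simp only
    rw [hh _ rfl]
  have dep4 := Conn_dep pv pe (tal x s u k ∆ tA D s t u v k) (tB D s u k)
  have dep45 : DependsOn (fun ω : Co n → Bool => Conn pv pe (tal x s u k ∆ tA D s t u v k) (tB D s u k) ω ∧
      ω (Sum.inr s((x ∆ D) ∆ {t k.1, v k.2}, (x ∆ D) ∆ {t k.1})) = true)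
      (cubeC (tal x s u k ∆ tA D s t u v k) (tB D s u k) ∪
      {(Sum.inr s((x ∆ D) ∆ {t k.1, v k.2}, (x ∆ D) ∆ {t k.1}) : Co n)}) := by
    intro ω ω' hh
    simp only
    rw [dep4 (fun c hc => hh c (Or.inl hc)), hh _ (Or.inr rfl)]
  have dep3 := Conn_dep pv pe (tal x s u k) (tA D s t u v k)
  have dep345 : DependsOn (fun ω : Co n → Bool => Conn pv pe (tal x s u k) (tA D s t u v k) ω ∧
      (Conn pv pe (tal x s u k ∆ tA D s t u v k) (tB D s u k) ω ∧
      ω (Sum.inr s((x ∆ D) ∆ {t k.1, v k.2}, (x ∆ D) ∆ {t k.1})) = true))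
      (cubeC (tal x s u k) (tA D s t u v k) ∪ (cubeC (tal x s u k ∆ tA D s t u v k) (tB D s u k) ∪
      {(Sum.inr s((x ∆ D) ∆ {t k.1, v k.2}, (x ∆ D) ∆ {t k.1}) : Co n)})) := by
    intro ω ω' hh
    simp only
    rw [dep3 (fun c hc => hh c (Or.inl hc)), dep4 (fun c hc => hh c (Or.inr (Or.inl hc))),
      hh _ (Or.inr (Or.inr rfl))]
  have dep2 : DependsOn (fun ω : Co n → Bool => ω (Sum.inl (tal x s u k)) = true)
      {(Sum.inl (tal x s u k) : Co n)} := by
    intro ω ω' hh
    simp only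
    rw [hh _ rfl]
  have dep2345 : DependsOn (fun ω : Co n → Bool => ω (Sum.inl (tal x s u k)) = true ∧
      (Conn pv pe (tal x s u k) (tA D s t u v k) ω ∧
      (Conn pv pe (tal x s u k ∆ tA D s t u v k) (tB D s u k) ω ∧
      ω (Sum.inr s((x ∆ D) ∆ {t k.1, v k.2}, (x ∆ D) ∆ {t k.1})) = true)))
      ({(Sum.inl (tal x s u k) : Co n)} ∪ (cubeC (tal x s u k) (tA D s t u v k) ∪
      (cubeC (tal x s u k ∆ tA D s t u v k) (tB D s u k) ∪
      {(Sum.inr s((x ∆ D) ∆ {t k.1, v k.2}, (x ∆ D) ∆ {t k.1}) : Co n)}))) := by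
    intro ω ω' hh
    simp only
    rw [hh _ (Or.inl rfl), dep3 (fun c hc => hh c (Or.inr (Or.inl hc))),
      dep4 (fun c hc => hh c (Or.inr (Or.inr (Or.inl hc)))),
      hh _ (Or.inr (Or.inr (Or.inr rfl)))]
  have dep1 : DependsOn (fun ω : Co n → Bool => ω (Sum.inr s(x ∆ {s k.1}, tal x s u k)) = true)
      {(Sum.inr s(x ∆ {s k.1}, tal x s u k) : Co n)} := by
    intro ω ω' hh
    simp only
    rw [hh _ rfl]
  unfold Succ
  rw [prob_and hv0 hv1 he0 he1 d2 _ _ dep1 dep2345,
    prob_and hv0 hv1 he0 he1 d3 _ _ dep2 dep345,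
    prob_and hv0 hv1 he0 he1 d4 _ _ dep3 dep45,
    prob_and hv0 hv1 he0 he1 d5 _ _ dep4 dep5,
    prob_coord_true H0 H1, prob_coord_true H0 H1, prob_coord_true H0 H1]
  have c1 := hc (tal x s u k) (tA D s t u v k)
  have c2 := hc (tal x s u k ∆ tA D s t u v k) (tB D s u k)
  change pe * (pv * (c * (c * pe))) ≤ pe * (pv * (_ * (_ * pe)))
  gcongr

end

end Pool.Agent.LibPerc
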