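import Pool.Agent.LibPerc.TrialP

set_option autoImplicit false
set_option linter.unusedSectionVars false
set_option linter.unusedVariables false
open MeasureTheory ProbabilityTheory Filter Topology
open scoped symmDiff

namespace Pool.Agent.LibPerc

variable {n L : ℕ}

section

variable {pv pe : ℝ} (hv0 : 0 < pv) (hv1 : pv ≤ 1) (he0 : 0 < pe) (he1 : pe ≤ 1)

include hv0 hv1 he0 he1

/-- all trials fail with small probability -/
lemma Dirs.prob_fail {c : ℝ} (hc0 : 0 < c) (hc1 : c ≤ 1)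
    (hc : ∀ (a W : Finset (Fin n)), c ≤ (law (par pv pe)).real {ω : Co n → Bool | Conn pv pe a W ω})
    {x D : Finset (Fin n)} {s t u v : Fin L → Fin n} (h : Dirs D s t u v) :
    (law (par pv pe)).real {ω | ∀ k, ¬ Succ pv pe x D s t u v k ω} ≤
      (1 - pe * (pv * (c * (c * pe)))) ^ (L * L) := by
  classical
  have H0 := par_nonneg (n := n) hv0 hv1 he0 he1
  have H1 := par_le_one (n := n) hv0 hv1 he0 he1
  have := law_prob H0 H1
  have h1 := prob_forall H0 H1 (Finset.univ : Finset (Fin L × Fin L)) (Res x D s t u v)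
    (fun k _ l _ hkl => h.res_disj hkl) (fun k ω => ¬ Succ pv pe x D s t u v k ω)
    (fun k _ ω ω' hh => by
      have := Succ_dep (x := x) (D := D) (s := s) (t := t) (u := u) (v := v) pv pe k hh
      simp only [this])
  simp only [Finset.mem_univ, forall_true_left] at h1
  rw [h1]
  have h2 : ∀ k ∈ (Finset.univ : Finset (Fin L × Fin L)),
      (law (par pv pe)).real {ω | ¬ Succ pv pe x D s t u v k ω} ≤ 1 - pe * (pv * (c * (c * pe))) := by
    intro k _
    have h3 := h.prob_succ hv0 hv1 he0 he1 hc0 hc (x := x) k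
    have h4 : {ω | ¬ Succ pv pe x D s t u v k ω} = {ω | Succ pv pe x D s t u v k ω}ᶜ := rfl
    rw [h4, probReal_compl_eq_one_sub MeasurableSet.of_discrete]
    linarith
  calc ∏ k : Fin L × Fin L, (law (par pv pe)).real {ω | ¬ Succ pv pe x D s t u v k ω}
      ≤ ∏ k : Fin L × Fin L, (1 - pe * (pv * (c * (c * pe)))) :=
        Finset.prod_le_prod (fun _ _ => measureReal_nonneg) h2
    _ = (1 - pe * (pv * (c * (c * pe)))) ^ (L * L) := by
        rw [Finset.prod_const, Finset.card_univ, Fintype.card_prod, Fintype.card_fin]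

end

lemma Dirs.AB_card {D : Finset (Fin n)} {s t u v : Fin L → Fin n} (h : Dirs D s t u v)
    (k : Fin L × Fin L) :
    (tA D s t u v k).card + (tB D s u k).card = (D ∆ {t k.1, v k.2} ∆ {s k.1, u k.2}).card := by
  rw [← Finset.card_union_of_disjoint (AB_disj k), ← symm_of_disj (AB_disj k)]
  have h1 := h.end_eq (x := ∅) k
  unfold tal at h1
  have h2 : tA D s t u v k ∆ tB D s u k = D ∆ {t k.1, v k.2} ∆ {s k.1, u k.2} := by
    have h3 := congrArg (fun z => z ∆ ({s k.1, u k.2} : Finset (Fin n))) h1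
    generalize ({s k.1, u k.2} : Finset (Fin n)) = P at *
    generalize ({t k.1, v k.2} : Finset (Fin n)) = Q at *
    generalize tA D s t u v k = A at *
    generalize tB D s u k = B at *
    have h4 : ∅ ∆ P ∆ A ∆ B ∆ P = A ∆ B := by
      ext a
      simp only [Finset.mem_symmDiff, Finset.notMem_empty]
      tauto
    have h5 : ∅ ∆ D ∆ Q ∆ P = D ∆ Q ∆ P := by
      ext a
      simp only [Finset.mem_symmDiff, Finset.notMem_empty]
      tauto
    rw [h4, h5] at h3
    exact h3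
  rw [h2]

lemma card_symmDiff_le (A B : Finset (Fin n)) : (A ∆ B).card ≤ A.card + B.card := by
  have : A ∆ B ⊆ A ∪ B := by
    intro a ha
    rw [Finset.mem_symmDiff] at ha
    rw [Finset.mem_union]
    tauto
  exact (Finset.card_le_card this).trans (Finset.card_union_le _ _)

/-- the walk provided by a successful trial -/
lemma Dirs.walk {pv pe : ℝ} (hv : 0 < pv) (he : 0 < pe) {x D : Finset (Fin n)}
    {s t u v : Fin L → Fin n} (h : Dirs D s t u v) (k : Fin L × Fin L) (ω : Co n → Bool)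
    (hs : Succ pv pe x D s t u v k ω) (hx : ω (Sum.inl x) = true)
    (hxs : ω (Sum.inl (x ∆ {s k.1})) = true) (hxe : ω (Sum.inr s(x, x ∆ {s k.1})) = true)
    (hy : ω (Sum.inl (x ∆ D)) = true) (hyt : ω (Sum.inl ((x ∆ D) ∆ {t k.1})) = true)
    (hye : ω (Sum.inr s(x ∆ D, (x ∆ D) ∆ {t k.1})) = true) :
    ∃ p : (hG ω).Walk x (x ∆ D), p.length = (D ∆ {t k.1, v k.2} ∆ {s k.1, u k.2}).card + 4 := by
  obtain ⟨e1, p1, c1, c2, e2⟩ := hs
  obtain ⟨p2, w1, l1⟩ := walk_of_Mn hv he (tal x s u k) _ _ rfl ω p1 c1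
  have hw := walk_of_Mn hv he (tal x s u k ∆ tA D s t u v k) _ _ rfl ω p2 c2
  rw [h.end_eq k] at hw
  obtain ⟨p3, w2, l2⟩ := hw
  have a1 : (hG ω).Adj x (x ∆ {s k.1}) := by
    refine ⟨?_, hx, hxs, hxe⟩
    rw [symmDiff_cancel]; simp
  have a2 : (hG ω).Adj (x ∆ {s k.1}) (tal x s u k) := by
    refine ⟨?_, hxs, p1, e1⟩
    rw [h.x_eq k, symmDiff_comm, symmDiff_cancel]; simp
  have a3 : (hG ω).Adj ((x ∆ D) ∆ {t k.1, v k.2}) ((x ∆ D) ∆ {t k.1}) := by
    refine ⟨?_, p3, hyt, e2⟩
    have : ((x ∆ D) ∆ {t k.1, v k.2}) ∆ ((x ∆ D) ∆ {t k.1}) = {v k.2} := by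
      rw [symmDiff_symmDiff_symmDiff_comm, symmDiff_self, bot_symmDiff]
      have := h.tv k.1 k.2
      ext a
      simp only [Finset.mem_symmDiff, mem_pair, Finset.mem_singleton]
      constructor
      · rintro (⟨h1 | h1, h2⟩ | ⟨h1, h2⟩)
        · exact absurd h1 h2
        · exact h1
        · exact absurd (Or.inl h1) h2
      · rintro rfl
        exact Or.inl ⟨Or.inr rfl, fun e => this e.symm⟩
    rw [this]; simp
  have a4 : (hG ω).Adj ((x ∆ D) ∆ {t k.1}) (x ∆ D) := by
    refine ⟨?_, hyt, hy, by rw [Sym2.eq_swap]; exact hye⟩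
    rw [symmDiff_comm, symmDiff_cancel]; simp
  refine ⟨(SimpleGraph.Walk.cons a1 (SimpleGraph.Walk.cons a2 (w1.append w2))).append
    (SimpleGraph.Walk.cons a3 (SimpleGraph.Walk.cons a4 SimpleGraph.Walk.nil)), ?_⟩
  have hAB := h.AB_card k
  simp only [SimpleGraph.Walk.length_append, SimpleGraph.Walk.length_cons, SimpleGraph.Walk.length_nil]
  omega

end Pool.Agent.LibPerc
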