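import Pool.Agent.LibPerc.Poor

set_option autoImplicit false
set_option linter.unusedSectionVars false
set_option linter.unusedVariables false
open MeasureTheory ProbabilityTheory Filter Topology
open scoped symmDiff

namespace Pool.Agent.LibPerc

variable {n L : ℕ}

/-- around every almost antipodal pair there are at most `m` poor vertices -/
def GoodP (m d L : ℕ) (ω : Co n → Bool) : Prop :=
  ∀ (x D : Finset (Fin n)), n ≤ D.card + d → ∀ Z : Finset (Finset (Fin n)), Z.card = m + 1 →
    (∀ z ∈ Z, (x ∆ z).card ≤ m ∨ ((x ∆ D) ∆ z).card ≤ m) → ∃ z ∈ Z, 3 * L ≤ (opn ω z).card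

lemma card_tri (x y z : Finset (Fin n)) : (x ∆ z).card ≤ (x ∆ y).card + (y ∆ z).card := by
  have : x ∆ z = (x ∆ y) ∆ (y ∆ z) := by
    rw [symmDiff_assoc, symmDiff_symmDiff_cancel_left]
  rw [this]
  exact card_symmDiff_le _ _

lemma card_getVert {ω : Co n → Bool} {x y : Finset (Fin n)} (p : (hG ω).Walk x y) (i : ℕ) :
    (x ∆ p.getVert i).card ≤ i := by
  induction p generalizing i with
  | nil => simp
  | @cons a b c h q ih =>
    cases i with
    | zero => simp
    | succ i =>
      rw [SimpleGraph.Walk.getVert_cons_succ]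
      have h1 := card_tri a b (q.getVert i)
      have h2 := h.1
      have h3 := ih i
      omega

lemma present_getVert {ω : Co n → Bool} {x y : Finset (Fin n)} (p : (hG ω).Walk x y)
    (hp : 1 ≤ p.length) (i : ℕ) (hi : i ≤ p.length) : ω (Sum.inl (p.getVert i)) = true := by
  rcases Nat.lt_or_ge i p.length with h | h
  · exact (p.adj_getVert_succ h).2.1
  · have h1 : i - 1 < p.length := by omega
    have := (p.adj_getVert_succ h1).2.2.1
    rwa [show i - 1 + 1 = i by omega] at this

lemma find_rich {m d : ℕ} {ω : Co n → Bool} (hP : GoodP m d L ω) {x y : Finset (Fin n)}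
    (p : (hG ω).Walk x y) (hp : p.IsPath) (hm : m ≤ p.length) :
    ∃ k ≤ m, 3 * L ≤ (opn ω (p.getVert k)).card ∧ ∀ i < k, (opn ω (p.getVert i)).card < 3 * L := by
  classical
  have hinj := hp.getVert_injOn
  have hex : ∃ k, k ≤ m ∧ 3 * L ≤ (opn ω (p.getVert k)).card := by
    obtain ⟨z, hz, hz'⟩ := hP x Finset.univ (by simp)
      ((Finset.range (m + 1)).image p.getVert) (by
        rw [Finset.card_image_of_injOn, Finset.card_range]
        intro i hi j hj hij
        simp only [Finset.coe_range, Set.mem_Iio] at hi hj
        exact hinj (by simp only [Set.mem_ofPred_eq]; omega) (by simp only [Set.mem_ofPred_eq]; omega) hij) (by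
        intro z hz
        obtain ⟨i, hi, rfl⟩ := Finset.mem_image.1 hz
        rw [Finset.mem_range] at hi
        left
        have := card_getVert p i
        omega)
    obtain ⟨i, hi, rfl⟩ := Finset.mem_image.1 hz
    rw [Finset.mem_range] at hi
    exact ⟨i, by omega, hz'⟩
  obtain ⟨h1, h2⟩ := Nat.find_spec hex
  refine ⟨Nat.find hex, h1, h2, fun i hi => ?_⟩
  have := Nat.find_min hex hi
  by_contra hcon
  exact this ⟨by omega, by omega⟩

theorem dist_le_of_good {pv pe : ℝ} (hv : 0 < pv) (he : 0 < pe) {m d : ℕ} {ω : Co n → Bool}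
    (hG' : GoodG pv pe L ω) (hP : GoodP m d L ω) (hm : 1 ≤ m) (h2 : 2 ≤ L) (hn : 5 * L ≤ n)
    (hd : 3 * m + 8 ≤ d) (hdL : d + 2 * m ≤ L) {x y : Finset (Fin n)}
    (hxy : (hG ω).Reachable x y) : (hG ω).dist x y ≤ n + m := by
  classical
  obtain ⟨p, hp, hpl⟩ := hxy.exists_path_of_dist
  rcases Nat.lt_or_ge p.length m with hlen | hlen
  · omega
  obtain ⟨k, hk, hkr, hkp⟩ := find_rich hP p hp hlen
  obtain ⟨l, hl, hlr, hlp⟩ := find_rich hP p.reverse hp.reverse (by
    rw [SimpleGraph.Walk.length_reverse]; exact hlen)
  set x' := p.getVert k with hx'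
  set y' := p.reverse.getVert l with hy'
  have hxp : ω (Sum.inl x') = true := present_getVert p (by omega) k (by omega)
  have hyp : ω (Sum.inl y') = true := present_getVert p.reverse
    (by rw [SimpleGraph.Walk.length_reverse]; omega) l (by rw [SimpleGraph.Walk.length_reverse]; omega)
  have hdx : (x ∆ x').card ≤ k := card_getVert p k
  have hdy : (y ∆ y').card ≤ l := card_getVert p.reverse l
  have hyy : x' ∆ (x' ∆ y') = y' := symmDiff_cancel _ _
  have hcomb : ∀ q : (hG ω).Walk x' y', (hG ω).dist x y ≤ k + q.length + l := by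
    intro q
    have := SimpleGraph.dist_le (((p.take k).append q).append (p.reverse.take l).reverse)
    refine this.trans ?_
    rw [SimpleGraph.Walk.length_append, SimpleGraph.Walk.length_append,
      SimpleGraph.Walk.length_reverse, SimpleGraph.Walk.take_length, SimpleGraph.Walk.take_length]
    have h1 : min k p.length ≤ k := min_le_left _ _
    have h2 : min l p.reverse.length ≤ l := min_le_left _ _
    omega
  have hD1 : (x' ∆ y').card ≤ (x ∆ y).card + k + l := by
    have h1 := card_tri x' x y'
    have h2 := card_tri x y y'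
    rw [symmDiff_comm x' x] at h1
    omega
  have hD2 : (x ∆ y).card ≤ (x' ∆ y').card + k + l := by
    have h1 := card_tri x x' y
    have h2 := card_tri x' y' y
    rw [symmDiff_comm y' y] at h2
    omega
  rcases Nat.lt_or_ge ((x ∆ y).card + d) n with hfar | hnear
  · obtain ⟨q, hq⟩ := far_walk (x := x') (D := x' ∆ y') hv he hG' h2 hn hxp (by rw [hyy]; exact hyp) hkr
      (by rw [hyy]; exact hlr)
    rw [hyy] at q
    have : ∃ q : (hG ω).Walk x' y', q.length ≤ (x' ∆ y').card + 8 := by
      obtain ⟨q, hq⟩ := far_walk (x := x') (D := x' ∆ y') hv he hG' h2 hn hxp (by rw [hyy]; exact hyp) hkr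
        (by rw [hyy]; exact hlr)
      exact ⟨q.copy rfl hyy, by rw [SimpleGraph.Walk.length_copy]; exact hq⟩
    obtain ⟨q, hq⟩ := this
    have := hcomb q
    omega
  · have hkl : k + l ≤ m := by
      by_contra hcon
      push Not at hcon
      set A := (Finset.range k).image p.getVert with hA
      set B := (Finset.range l).image p.reverse.getVert with hB
      have hAc : A.card = k := by
        rw [hA, Finset.card_image_of_injOn, Finset.card_range]
        intro i hi j hj hij
        simp only [Finset.coe_range, Set.mem_Iio] at hi hj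
        exact hp.getVert_injOn (by simp only [Set.mem_ofPred_eq]; omega)
          (by simp only [Set.mem_ofPred_eq]; omega) hij
      have hBc : B.card = l := by
        rw [hB, Finset.card_image_of_injOn, Finset.card_range]
        intro i hi j hj hij
        simp only [Finset.coe_range, Set.mem_Iio] at hi hj
        exact hp.reverse.getVert_injOn
          (by simp only [Set.mem_ofPred_eq, SimpleGraph.Walk.length_reverse]; omega)
          (by simp only [Set.mem_ofPred_eq, SimpleGraph.Walk.length_reverse]; omega) hij
      have hAm : ∀ z ∈ A, (x ∆ z).card ≤ m ∧ (opn ω z).card < 3 * L := by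
        intro z hz
        obtain ⟨i, hi, rfl⟩ := Finset.mem_image.1 hz
        rw [Finset.mem_range] at hi
        exact ⟨(card_getVert p i).trans (by omega), hkp i hi⟩
      have hBm : ∀ z ∈ B, (y ∆ z).card ≤ m ∧ (opn ω z).card < 3 * L := by
        intro z hz
        obtain ⟨i, hi, rfl⟩ := Finset.mem_image.1 hz
        rw [Finset.mem_range] at hi
        exact ⟨(card_getVert p.reverse i).trans (by omega), hlp i hi⟩
      have hdisj : Disjoint A B := by
        rw [Finset.disjoint_left]
        intro z hz hz'
        have h1 := (hAm z hz).1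
        have h2 := (hBm z hz').1
        have h3 := card_tri x z y
        rw [symmDiff_comm z y] at h3
        omega
      have hcard : m + 1 ≤ (A ∪ B).card := by
        rw [Finset.card_union_of_disjoint hdisj]; omega
      obtain ⟨Z, hZ, hZc⟩ := Finset.exists_subset_card_eq hcard
      obtain ⟨z, hz, hz'⟩ := hP x (x ∆ y) hnear Z hZc (by
        intro z hz
        rw [symmDiff_cancel]
        rcases Finset.mem_union.1 (hZ hz) with h | h
        · exact Or.inl (hAm z h).1
        · exact Or.inr (hBm z h).1)
      rcases Finset.mem_union.1 (hZ hz) with h | h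
      · have := (hAm z h).2
        omega
      · have := (hBm z h).2
        omega
    have : ∃ q : (hG ω).Walk x' y', q.length = (x' ∆ y').card := by
      obtain ⟨q, hq⟩ := near_walk (x := x') (D := x' ∆ y') hv he hG' h2 hn (by omega) hxp
        (by rw [hyy]; exact hyp) hkr (by rw [hyy]; exact hlr)
      exact ⟨q.copy rfl hyy, by rw [SimpleGraph.Walk.length_copy]; exact hq⟩
    obtain ⟨q, hq⟩ := this
    have h1 := hcomb q
    have h2 : (x' ∆ y').card ≤ n := by
      have := Finset.card_le_univ (x' ∆ y')
      rwa [Fintype.card_fin] at this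
    omega

end Pool.Agent.LibPerc
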